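import Mathlib
import Pool.Agent.H552R3.PC.DegBd3
import Pool.Agent.H552R3.PC.Quant3

/-!
Gradings, linearity in some variables, equivariance of the values of noncommutative polynomials.
-/

namespace Pool.Agent.TH46.NC

open Matrix Pool.Agent.H552R3.PC

section Grading

variable {R : Type*} [CommRing R] {n : ℕ} {Γ : Type*} [AddCommGroup Γ]

/-- `M` is homogeneous of degree `d` for the grading given by `h`. -/
def Hom (h : Fin n → Γ) (d : Γ) (M : Matrix (Fin n) (Fin n) R) : Prop :=
  ∀ p q, M p q ≠ 0 → h p - h q = d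

theorem Hom.mul {h : Fin n → Γ} {d d' : Γ} {M N : Matrix (Fin n) (Fin n) R}
    (hM : Hom h d M) (hN : Hom h d' N) : Hom h (d + d') (M * N) := by
  intro p q hpq
  rw [mul_apply] at hpq
  obtain ⟨k, _, hk⟩ := Finset.exists_ne_zero_of_sum_ne_zero hpq
  have h1 := hM p k (left_ne_zero_of_mul hk)
  have h2 := hN k q (right_ne_zero_of_mul hk)
  rw [← h1, ← h2]; abel

theorem Hom.add {h : Fin n → Γ} {d : Γ} {M N : Matrix (Fin n) (Fin n) R}
    (hM : Hom h d M) (hN : Hom h d N) : Hom h d (M + N) := by
  intro p q hpq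
  by_cases h1 : M p q = 0
  · refine hN p q ?_
    rwa [Matrix.add_apply, h1, zero_add] at hpq
  · exact hM p q h1

theorem Hom.zero {h : Fin n → Γ} {d : Γ} : Hom h d (0 : Matrix (Fin n) (Fin n) R) := by
  intro p q hpq
  exact absurd rfl hpq

theorem Hom.smul {S : Type*} [SMulZeroClass S R] {h : Fin n → Γ} {d : Γ}
    {M : Matrix (Fin n) (Fin n) R} (c : S) (hM : Hom h d M) : Hom h d (c • M) := by
  intro p q hpq
  refine hM p q fun e => hpq ?_
  rw [Matrix.smul_apply, e, smul_zero]

theorem Hom.diagonal {h : Fin n → Γ} (t : Fin n → R) : Hom h 0 (Matrix.diagonal t) := by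
  intro p q hpq
  by_cases e : p = q
  · rw [e, sub_self]
  · exact absurd (Matrix.diagonal_apply_ne _ e) hpq

theorem Hom.one {h : Fin n → Γ} : Hom h 0 (1 : Matrix (Fin n) (Fin n) R) := by
  rw [← Matrix.diagonal_one]
  exact Hom.diagonal _

theorem Hom.single {h : Fin n → Γ} (a b : Fin n) (c : R) :
    Hom h (h a - h b) (Matrix.single a b c) := by
  intro p q hpq
  by_cases e : a = p ∧ b = q
  · rw [e.1, e.2]
  · exact absurd (Matrix.single_apply_of_ne _ _ _ _ _ e) hpq

theorem Hom.list_prod {σ : Type*} {h : Fin n → Γ} (W : σ → Matrix (Fin n) (Fin n) R) (d : σ → Γ)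
    (hW : ∀ v, Hom h (d v) (W v)) (l : List σ) : Hom h ((l.map d).sum) ((l.map W).prod) := by
  induction l with
  | nil => simpa using Hom.one
  | cons a l ih =>
    rw [List.map_cons, List.map_cons, List.sum_cons, List.prod_cons]
    exact (hW a).mul ih

end Grading

section Words

variable {K : Type*} [Field K] {σ : Type*} [DecidableEq σ]

/-- `f` is homogeneous of degree `k v` in the variable `v`, for every `v ∈ J`: it is a linear
combination of words in which every `v ∈ J` occurs exactly `k v` times. -/
def HomogIn (J : Finset σ) (k : σ → ℕ) (f : FreeAlgebra K σ) : Prop :=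
  f ∈ Submodule.span K {w : FreeAlgebra K σ |
    ∃ l : List σ, (∀ v ∈ J, l.count v = k v) ∧ w = (l.map (FreeAlgebra.ι K)).prod}

omit [DecidableEq σ] in
theorem lift_word {A : Type*} [Ring A] [Algebra K A] (W : σ → A) (l : List σ) :
    FreeAlgebra.lift K W ((l.map (FreeAlgebra.ι K)).prod) = (l.map W).prod := by
  rw [map_list_prod, List.map_map]
  congr 1
  refine List.map_congr_left fun v _ => ?_
  simp

theorem sum_word {Γ : Type*} [AddCommGroup Γ] (J : Finset σ) (k : σ → ℕ) (l : List σ)
    (hl : ∀ v ∈ J, l.count v = k v) (d : σ → Γ) (hd : ∀ v, v ∉ J → d v = 0) :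
    (l.map d).sum = ∑ v ∈ J, k v • d v := by
  rw [Finset.sum_list_map_count]
  have h1 : ∑ m ∈ l.toFinset, List.count m l • d m = ∑ m ∈ l.toFinset ∪ J, List.count m l • d m := by
    refine Finset.sum_subset Finset.subset_union_left fun x _ hx => ?_
    rw [List.mem_toFinset] at hx
    rw [List.count_eq_zero_of_not_mem hx, zero_smul]
  have h2 : ∑ v ∈ J, k v • d v = ∑ m ∈ l.toFinset ∪ J, List.count m l • d m := by
    have e : ∑ v ∈ J, k v • d v = ∑ v ∈ J, List.count v l • d v :=
      Finset.sum_congr rfl fun v hv => by rw [hl v hv]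
    rw [e]
    refine Finset.sum_subset Finset.subset_union_right fun x _ hx => ?_
    rw [hd x hx, smul_zero]
  rw [h1, h2]

/-- Homogeneous substitutions give homogeneous values. -/
theorem hom_lift {R : Type*} [CommRing R] [Algebra K R] {n : ℕ} {Γ : Type*} [AddCommGroup Γ]
    {J : Finset σ} {k : σ → ℕ} {f : FreeAlgebra K σ} (hf : HomogIn J k f)
    {h : Fin n → Γ} (W : σ → Matrix (Fin n) (Fin n) R) (d : σ → Γ)
    (hW : ∀ v, Hom h (d v) (W v)) (hd : ∀ v, v ∉ J → d v = 0) :
    Hom h (∑ v ∈ J, k v • d v) (FreeAlgebra.lift K W f) := by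
  refine Submodule.span_induction (p := fun f _ => Hom h (∑ v ∈ J, k v • d v)
    (FreeAlgebra.lift K W f)) ?_ ?_ ?_ ?_ hf
  · rintro w ⟨l, hl, rfl⟩
    rw [lift_word, ← sum_word J k l hl d hd]
    exact Hom.list_prod W d hW l
  · rw [map_zero]; exact Hom.zero
  · intro a b _ _ ha hb
    rw [map_add]; exact ha.add hb
  · intro c a _ ha
    rw [map_smul]; exact ha.smul c

/-- `f` is linear in the variables of `J`. -/
abbrev LinIn (J : Finset σ) (f : FreeAlgebra K σ) : Prop := HomogIn J (fun _ => 1) f

theorem lin_lift {A : Type*} [Ring A] {R : Type*} [CommRing R] [Algebra R A] [Algebra K A]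
    [Algebra K R] [IsScalarTower K R A]
    {J : Finset σ} {f : FreeAlgebra K σ} (hf : LinIn J f) {j : σ} (hj : j ∈ J) (W : σ → A) :
    ∃ ℓ : A →ₗ[R] A, ∀ M, FreeAlgebra.lift K (Function.update W j M) f = ℓ M := by
  refine Submodule.span_induction (p := fun f _ => ∃ ℓ : A →ₗ[R] A, ∀ M,
    FreeAlgebra.lift K (Function.update W j M) f = ℓ M) ?_ ?_ ?_ ?_ hf
  · rintro w ⟨l, hl, rfl⟩
    have hc : l.count j = 1 := hl j hj
    have hmem : j ∈ l := by
      rw [← List.count_pos_iff]; omega
    obtain ⟨l₁, l₂, rfl, h1⟩ := List.eq_append_cons_of_mem hmem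
    have h2 : j ∉ l₂ := by
      rw [List.count_append, List.count_cons_self, List.count_eq_zero_of_not_mem h1] at hc
      rw [← List.count_eq_zero]; omega
    refine ⟨(LinearMap.mulLeft R ((l₁.map W).prod)).comp
      (LinearMap.mulRight R ((l₂.map W).prod)), fun M => ?_⟩
    rw [lift_word, List.map_append, List.map_cons, List.prod_append, List.prod_cons,
      Function.update_self]
    have e1 : l₁.map (Function.update W j M) = l₁.map W := by
      refine List.map_congr_left fun v hv => Function.update_of_ne ?_ _ _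
      rintro rfl; exact h1 hv
    have e2 : l₂.map (Function.update W j M) = l₂.map W := by
      refine List.map_congr_left fun v hv => Function.update_of_ne ?_ _ _
      rintro rfl; exact h2 hv
    rw [e1, e2]
    simp [mul_assoc]
  · exact ⟨0, fun M => by simp⟩
  · rintro a b _ _ ⟨ℓa, ha⟩ ⟨ℓb, hb⟩
    exact ⟨ℓa + ℓb, fun M => by rw [map_add, ha, hb]; rfl⟩
  · rintro c a _ ⟨ℓa, ha⟩
    refine ⟨(algebraMap K R c) • ℓa, fun M => ?_⟩
    rw [map_smul, ha, LinearMap.smul_apply, algebraMap_smul]

/-- The tuple with matrix units in the places of `J`. -/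
noncomputable def mix {R : Type*} [CommRing R] {n : ℕ} (J : Finset σ) (E : σ → Fin n × Fin n)
    (W : σ → Matrix (Fin n) (Fin n) R) : σ → Matrix (Fin n) (Fin n) R :=
  fun v => if v ∈ J then Matrix.single (E v).1 (E v).2 1 else W v

/-- Properties of all values follow from those at matrix units. -/
theorem units_lift {R : Type*} [CommRing R] [Algebra K R] {n : ℕ}
    {J : Finset σ} {f : FreeAlgebra K σ} (hf : LinIn J f)
    (N : Submodule R (Matrix (Fin n) (Fin n) R)) (W : σ → Matrix (Fin n) (Fin n) R)
    (h : ∀ E : σ → Fin n × Fin n, FreeAlgebra.lift K (mix J E W) f ∈ N) :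
    FreeAlgebra.lift K W f ∈ N := by
  have key : ∀ T : Finset σ, T ⊆ J →
      (∀ E : σ → Fin n × Fin n, FreeAlgebra.lift K (mix T E W) f ∈ N) →
      FreeAlgebra.lift K W f ∈ N := by
    intro T
    induction T using Finset.induction_on with
    | empty =>
      intro _ h
      rcases Nat.eq_zero_or_pos n with rfl | hn
      · have : FreeAlgebra.lift K W f = 0 := Subsingleton.elim _ _
        rw [this]; exact N.zero_mem
      · have := h (fun _ => (⟨0, hn⟩, ⟨0, hn⟩))
        have e : mix ∅ (fun _ : σ => ((⟨0, hn⟩ : Fin n), (⟨0, hn⟩ : Fin n))) W = W := by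
          funext v; simp [mix]
        rwa [e] at this
    | insert j T hjT ih =>
      intro hT h
      refine ih (fun x hx => hT (Finset.mem_insert_of_mem hx)) fun E => ?_
      obtain ⟨ℓ, hℓ⟩ := lin_lift (R := R) hf (hT (Finset.mem_insert_self j T)) (mix T E W)
      have e1 : mix T E W = Function.update (mix T E W) j (W j) := by
        funext v
        by_cases hv : v = j
        · subst hv; simp [mix, hjT]
        · rw [Function.update_of_ne hv]
      rw [e1, hℓ, Matrix.matrix_eq_sum_single (W j), map_sum]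
      refine N.sum_mem fun a _ => ?_
      rw [map_sum]
      refine N.sum_mem fun b _ => ?_
      have e2 : Matrix.single a b (W j a b) = (W j a b) • Matrix.single a b (1 : R) := by
        rw [Matrix.smul_single, smul_eq_mul, mul_one]
      rw [e2, map_smul, ← hℓ]
      refine N.smul_mem _ ?_
      have e3 : Function.update (mix T E W) j (Matrix.single a b (1 : R)) =
          mix (insert j T) (Function.update E j (a, b)) W := by
        funext v
        by_cases hv : v = j
        · subst hv; simp [mix]
        · rw [Function.update_of_ne hv]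
          simp [mix, hv]
      rw [e3]
      exact h _
  exact key J subset_rfl h

end Words

section Equivariance

variable {K : Type*} [Field K] {σ : Type*} {R : Type*} [CommRing R] [Algebra K R] {n : ℕ}

theorem lift_perm (π : Equiv.Perm (Fin n)) (W : σ → Matrix (Fin n) (Fin n) R)
    (f : FreeAlgebra K σ) :
    FreeAlgebra.lift K (fun v => (W v).submatrix π π) f =
      (FreeAlgebra.lift K W f).submatrix π π := by
  have := lift_map (Matrix.reindexAlgEquiv K R π.symm).toAlgHom W f
  have e : ∀ M : Matrix (Fin n) (Fin n) R,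
      (Matrix.reindexAlgEquiv K R π.symm).toAlgHom M = M.submatrix π π := fun M => rfl
  rw [e] at this
  rw [this]
  rfl

end Equivariance

end Pool.Agent.TH46.NC
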