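import Mathlib
import Pool.Agent.TH46.NC.Basic

/-!
The core argument: values at diagonal matrices and matrix units.
-/

namespace Pool.Agent.TH46.NC

open Matrix Pool.Agent.H552R3.PC MvPolynomial

variable {K : Type*} [Field K] {σ : Type*} [DecidableEq σ] {n : ℕ}

/-- The coordinate ring. -/
abbrev BB (K : Type*) [Field K] (σ : Type*) (n : ℕ) := MvPolynomial ((σ × Fin n) ⊕ (σ ⊕ σ)) K

/-- Generic diagonal matrices. -/
noncomputable def td (K : Type*) [Field K] (σ : Type*) (n : ℕ) (v : σ) :
    Matrix (Fin n) (Fin n) (BB K σ n) := Matrix.diagonal fun p => X (Sum.inl (v, p))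

/-- Diagonal matrices and matrix units. -/
noncomputable def W0 (K : Type*) [Field K] {σ : Type*} [DecidableEq σ] {n : ℕ} (J : Finset σ)
    (E : σ → Fin n × Fin n) : σ → Matrix (Fin n) (Fin n) (BB K σ n) := mix J E (td K σ n)

/-- Diagonal matrices and combinations of two matrix units. -/
noncomputable def Wm (K : Type*) [Field K] {σ : Type*} [DecidableEq σ] {n : ℕ} (J : Finset σ)
    (E E' : σ → Fin n × Fin n) : σ → Matrix (Fin n) (Fin n) (BB K σ n) :=
  fun v => if v ∈ J then
    (X (Sum.inr (Sum.inl v)) : BB K σ n) • Matrix.single (E v).1 (E v).2 1 +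
    (X (Sum.inr (Sum.inr v)) : BB K σ n) • Matrix.single (E' v).1 (E' v).2 1 else td K σ n v

/-- The specialisation of the parameters. -/
noncomputable def phi (K : Type*) [Field K] (σ : Type*) (n : ℕ) (x y : K) :
    BB K σ n →ₐ[K] BB K σ n :=
  aeval (Sum.elim (fun vp => X (Sum.inl vp)) (Sum.elim (fun _ => C x) (fun _ => C y)))

theorem phi_10 (J : Finset σ) (E E' : σ → Fin n × Fin n) (v : σ) :
    (phi K σ n 1 0).mapMatrix (Wm K J E E' v) = W0 K J E v := by
  ext1 a b
  by_cases hv : v ∈ J
  · simp only [Wm, W0, mix, hv, if_true, AlgHom.mapMatrix_apply, Matrix.map_apply,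
      Matrix.add_apply, Matrix.smul_apply, smul_eq_mul, map_add, map_mul, phi, aeval_X,
      Sum.elim_inr, Sum.elim_inl, map_one, map_zero, zero_mul, add_zero, one_mul]
    by_cases e : (E v).1 = a ∧ (E v).2 = b
    · rw [e.1, e.2]; simp
    · rw [Matrix.single_apply_of_ne _ _ _ _ _ e, map_zero]
  · simp only [Wm, W0, mix, hv, if_false, AlgHom.mapMatrix_apply, Matrix.map_apply, td]
    by_cases e : a = b
    · subst e; simp [phi]
    · simp [e]

theorem phi_01 (J : Finset σ) (E E' : σ → Fin n × Fin n) (v : σ) :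
    (phi K σ n 0 1).mapMatrix (Wm K J E E' v) = W0 K J E' v := by
  ext1 a b
  by_cases hv : v ∈ J
  · simp only [Wm, W0, mix, hv, if_true, AlgHom.mapMatrix_apply, Matrix.map_apply,
      Matrix.add_apply, Matrix.smul_apply, smul_eq_mul, map_add, map_mul, phi, aeval_X,
      Sum.elim_inr, Sum.elim_inl, map_one, map_zero, zero_mul, zero_add, one_mul]
    by_cases e : (E' v).1 = a ∧ (E' v).2 = b
    · rw [e.1, e.2]; simp
    · rw [Matrix.single_apply_of_ne _ _ _ _ _ e, map_zero]
  · simp only [Wm, W0, mix, hv, if_false, AlgHom.mapMatrix_apply, Matrix.map_apply, td]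
    by_cases e : a = b
    · subst e; simp [phi]
    · simp [e]

/-- The action of permutations. -/
noncomputable def rho (K : Type*) [Field K] (σ : Type*) {n : ℕ} (π : Equiv.Perm (Fin n)) :
    BB K σ n →ₐ[K] BB K σ n :=
  rename (Sum.map (Prod.map id π) id)

theorem rho_injective (π : Equiv.Perm (Fin n)) : Function.Injective (rho K σ π) := by
  apply rename_injective
  exact Sum.map_injective.mpr ⟨Function.Injective.prodMap Function.injective_id π.injective,
    Function.injective_id⟩

/-- The permuted tuple of positions. -/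
def pE (π : Equiv.Perm (Fin n)) (E : σ → Fin n × Fin n) : σ → Fin n × Fin n :=
  fun v => (π (E v).1, π (E v).2)

theorem W0_perm (J : Finset σ) (π : Equiv.Perm (Fin n)) (E : σ → Fin n × Fin n) (v : σ) :
    (W0 K J (pE π E) v).submatrix π π = (rho K σ π).mapMatrix (W0 K J E v) := by
  ext1 a b
  by_cases hv : v ∈ J
  · simp only [W0, mix, hv, if_true, AlgHom.mapMatrix_apply, Matrix.map_apply,
      Matrix.submatrix_apply, pE]
    by_cases e : (E v).1 = a ∧ (E v).2 = b
    · rw [e.1, e.2]; simp
    · rw [Matrix.single_apply_of_ne _ _ _ _ _ e, map_zero, Matrix.single_apply_of_ne]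
      simpa using e
  · simp only [W0, mix, hv, if_false, AlgHom.mapMatrix_apply, Matrix.map_apply, td,
      Matrix.submatrix_apply]
    by_cases e : a = b
    · subst e; simp [rho]
    · simp [e]

/-- The value at generic diagonal matrices and matrix units. -/
noncomputable def F (J : Finset σ) (f : FreeAlgebra K σ) (E : σ → Fin n × Fin n) :
    Matrix (Fin n) (Fin n) (BB K σ n) := FreeAlgebra.lift K (W0 K J E) f

theorem F_perm (J : Finset σ) (f : FreeAlgebra K σ) (π : Equiv.Perm (Fin n))
    (E : σ → Fin n × Fin n) (p q : Fin n) :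
    F J f (pE π E) (π p) (π q) = rho K σ π (F J f E p q) := by
  have h1 : (F J f (pE π E)).submatrix π π = (rho K σ π).mapMatrix (F J f E) := by
    rw [F, F, ← lift_perm, lift_map]
    congr 2
    funext v
    exact W0_perm J π E v
  exact congrFun (congrFun h1 p) q

/-- The value at generic diagonal matrices and combinations of two matrix units. -/
noncomputable def G (J : Finset σ) (f : FreeAlgebra K σ) (E E' : σ → Fin n × Fin n) :
    Matrix (Fin n) (Fin n) (BB K σ n) := FreeAlgebra.lift K (Wm K J E E') f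

theorem G_10 (J : Finset σ) (f : FreeAlgebra K σ) (E E' : σ → Fin n × Fin n) (p q : Fin n) :
    phi K σ n 1 0 (G J f E E' p q) = F J f E p q := by
  have h1 : (phi K σ n 1 0).mapMatrix (G J f E E') = F J f E := by
    rw [F, G, lift_map]
    congr 2
    funext v
    exact phi_10 J E E' v
  exact congrFun (congrFun h1 p) q

theorem G_01 (J : Finset σ) (f : FreeAlgebra K σ) (E E' : σ → Fin n × Fin n) (p q : Fin n) :
    phi K σ n 0 1 (G J f E E' p q) = F J f E' p q := by
  have h1 : (phi K σ n 0 1).mapMatrix (G J f E E') = F J f E' := by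
    rw [F, G, lift_map]
    congr 2
    funext v
    exact phi_01 J E E' v
  exact congrFun (congrFun h1 p) q

/-- The degree of a tuple of matrix units. -/
def deg {Γ : Type*} [AddCommGroup Γ] (J : Finset σ) (k : σ → ℕ) (h : Fin n → Γ)
    (E : σ → Fin n × Fin n) : Γ :=
  ∑ v ∈ J, k v • (if v ∈ J then h (E v).1 - h (E v).2 else 0)

theorem F_hom {Γ : Type*} [AddCommGroup Γ] {J : Finset σ} {k : σ → ℕ} {f : FreeAlgebra K σ}
    (hf : HomogIn J k f) (h : Fin n → Γ) (E : σ → Fin n × Fin n) :
    Hom h (deg J k h E) (F J f E) := by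
  refine hom_lift hf _ _ (fun v => ?_) (fun v hv => if_neg hv)
  by_cases hv : v ∈ J
  · simp only [W0, mix, hv, if_true]
    exact Hom.single _ _ _
  · simp only [W0, mix, hv, if_false, td]
    exact Hom.diagonal _

theorem G_hom {Γ : Type*} [AddCommGroup Γ] {J : Finset σ} {k : σ → ℕ} {f : FreeAlgebra K σ}
    (hf : HomogIn J k f) (h : Fin n → Γ) (E E' : σ → Fin n × Fin n)
    (hE : ∀ v ∈ J, h (E' v).1 - h (E' v).2 = h (E v).1 - h (E v).2) :
    Hom h (deg J k h E) (G J f E E') := by
  refine hom_lift hf _ _ (fun v => ?_) (fun v hv => if_neg hv)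
  by_cases hv : v ∈ J
  · simp only [Wm, hv, if_true]
    refine ((Hom.single _ _ _).smul _).add (Hom.smul _ ?_)
    rw [← hE v hv]
    exact Hom.single _ _ _
  · simp only [Wm, hv, if_false, td]
    exact Hom.diagonal _

theorem W0_diag (J : Finset σ) (E : σ → Fin n × Fin n) (v : σ) (hv : v ∉ J) :
    (W0 K J E v).IsDiag := by
  simp only [W0, mix, hv, if_false, td]
  exact Matrix.isDiag_diagonal _

theorem Wm_diag (J : Finset σ) (E E' : σ → Fin n × Fin n) (v : σ) (hv : v ∉ J) :
    (Wm K J E E' v).IsDiag := by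
  simp only [Wm, hv, if_false, td]
  exact Matrix.isDiag_diagonal _

/-- Hypothesis: the `n`-th powers are scalar. -/
def Pow (n : ℕ) (J : Finset σ) (f : FreeAlgebra K σ) : Prop :=
  ∀ W : σ → Matrix (Fin n) (Fin n) (BB K σ n), (∀ v, v ∉ J → (W v).IsDiag) →
    ∃ c, FreeAlgebra.lift K W f ^ n = Matrix.scalar (Fin n) c

/-- Hypothesis: the shape of the characteristic polynomials. -/
def Chp (n : ℕ) (J : Finset σ) (f : FreeAlgebra K σ) : Prop :=
  ∀ W : σ → Matrix (Fin n) (Fin n) (BB K σ n), (∀ v, v ∉ J → (W v).IsDiag) →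
    ∀ i, 0 < i → i < n → (FreeAlgebra.lift K W f).charpoly.coeff i = 0

theorem diag_of_hom {R : Type*} [CommRing R] {Γ : Type*} [AddCommGroup Γ] {h : Fin n → Γ}
    (hinj : Function.Injective h) {M : Matrix (Fin n) (Fin n) R} (hM : Hom h 0 M) :
    M = Matrix.diagonal fun p => M p p := by
  ext1 p q
  by_cases e : p = q
  · subst e; simp
  · rw [Matrix.diagonal_apply_ne _ e]
    by_contra hne
    exact e (hinj (sub_eq_zero.mp (hM p q hne)))

/-- The ratios of the entries of a diagonal value are invariant under permutations preserving a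
cyclic grading. -/
theorem ratio {Γ : Type*} [AddCommGroup Γ] (hn : 0 < n) {J : Finset σ} {k : σ → ℕ}
    {f : FreeAlgebra K σ} (hf : HomogIn J k f) (hpow : Pow n J f)
    (h : Fin n → Γ) (hinj : Function.Injective h) (π : Equiv.Perm (Fin n))
    (hπ : ∀ p q, h (π p) - h (π q) = h p - h q)
    (E : σ → Fin n × Fin n) (hd : deg J k h E = 0) (hne : ∀ p, F J f E p p ≠ 0)
    (p q : Fin n) (r : K) (hr : F J f E (π q) (π q) = C r * F J f E (π p) (π p)) :
    F J f E q q = C r * F J f E p p := by
  set M := G J f E (pE π E) with hM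
  have hMh : Hom h 0 M := by
    rw [← hd]
    exact G_hom hf h E (pE π E) (fun v _ => hπ _ _)
  have hMd := diag_of_hom hinj hMh
  obtain ⟨c, hc⟩ := hpow (Wm K J E (pE π E)) (Wm_diag J E (pE π E))
  have hc' : M ^ n = Matrix.scalar (Fin n) c := hc
  have hpn : ∀ p, M p p ^ n = c := by
    intro p
    have e := congrFun (congrFun hc' p) p
    rw [hMd, Matrix.diagonal_pow] at e
    simpa using e
  have h10 : ∀ p, phi K σ n 1 0 (M p p) = F J f E p p := fun p => G_10 J f _ _ p p
  have h01 : ∀ p, phi K σ n 0 1 (M (π p) (π p)) = rho K σ π (F J f E p p) := fun p => by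
    rw [hM, G_01, F_perm]
  have hMne : ∀ p, M p p ≠ 0 := by
    intro p h0
    apply hne p
    rw [← h10, h0, map_zero]
  obtain ⟨r', _, hr'⟩ := smul_of_pow_eq hn (M (π p) (π p)) (M (π q) (π q)) (hMne _)
    (by rw [hpn, hpn])
  have e1 := congrArg (phi K σ n 1 0) hr'
  rw [map_mul, h10, h10] at e1
  have e2 : phi K σ n 1 0 (C r') = C r' := by
    simp [phi]
  rw [e2, hr] at e1
  have e3 : r = r' := by
    have := mul_right_cancel₀ (hne _) e1
    exact C_injective _ _ this
  have e4 := congrArg (phi K σ n 0 1) hr'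
  rw [map_mul, h01, h01] at e4
  have e5 : phi K σ n 0 1 (C r') = C r' := by
    simp [phi]
  have e6 : rho K σ π (C r') = C r' := by
    simp [rho]
  rw [e5, ← e6, ← map_mul] at e4
  rw [e3]
  exact rho_injective π e4

theorem distinct_of_charpoly {R : Type*} [CommRing R] [IsDomain R] (hnR : (n : R) ≠ 0)
    (γ : Fin n → R) (hcp : ∀ i, 0 < i → i < n → (Matrix.diagonal γ).charpoly.coeff i = 0)
    (p q : Fin n) (hpq : p ≠ q) (h : γ p = γ q) : γ p = 0 := by
  have hn0 : 0 < n := p.pos
  set P := (Matrix.diagonal γ).charpoly with hP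
  have hdeg : P.natDegree = n := by
    rw [hP, Matrix.charpoly_natDegree_eq_dim, Fintype.card_fin]
  have hmon : P.Monic := Matrix.charpoly_monic _
  have hpoly : P = Polynomial.X ^ n + Polynomial.C (P.coeff 0) := by
    ext i
    rw [Polynomial.coeff_add, Polynomial.coeff_X_pow, Polynomial.coeff_C]
    rcases Nat.eq_zero_or_pos i with rfl | hi
    · rw [if_neg hn0.ne, if_pos rfl, zero_add]
    · rw [if_neg hi.ne', add_zero]
      rcases lt_trichotomy i n with h1 | h1 | h1
      · rw [hcp i hi h1, if_neg h1.ne]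
      · rw [if_pos h1, h1]
        rw [Polynomial.Monic, Polynomial.leadingCoeff, hdeg] at hmon
        exact hmon
      · rw [if_neg h1.ne']
        exact Polynomial.coeff_eq_zero_of_natDegree_lt (by rw [hdeg]; exact h1)
  have hprod : P = ∏ j, (Polynomial.X - Polynomial.C (γ j)) := by
    rw [hP, Matrix.charpoly, Matrix.charmatrix_diagonal, Matrix.det_diagonal]
  have hdvd : (Polynomial.X - Polynomial.C (γ p)) ^ 2 ∣
      ∏ j, (Polynomial.X - Polynomial.C (γ j)) := by
    rw [← Finset.mul_prod_erase Finset.univ _ (Finset.mem_univ p),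
      ← Finset.mul_prod_erase (Finset.univ.erase p) _
        (Finset.mem_erase.mpr ⟨hpq.symm, Finset.mem_univ q⟩), pow_two]
    rw [← h, ← mul_assoc]
    exact dvd_mul_right _ _
  obtain ⟨g, hg⟩ := hdvd
  rw [← hprod, hpoly] at hg
  have hder := congrArg Polynomial.derivative hg
  have hev := congrArg (Polynomial.eval (γ p)) hder
  simp only [Polynomial.derivative_add, Polynomial.derivative_X_pow, Polynomial.derivative_C,
    Polynomial.derivative_mul, Polynomial.derivative_pow, Polynomial.derivative_sub,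
    Polynomial.derivative_X, Polynomial.eval_add, Polynomial.eval_mul, Polynomial.eval_pow,
    Polynomial.eval_sub, Polynomial.eval_X, Polynomial.eval_C, sub_self, Polynomial.eval_zero,
    add_zero, mul_zero, zero_mul, ne_eq, OfNat.ofNat_ne_zero, not_false_eq_true, zero_pow] at hev
  simp at hev
  rcases hev with h | h
  · exact absurd h hnR
  · exact h.1

end Pool.Agent.TH46.NC
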