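import Mathlib
import Pool.Agent.TH46.NC.Core

/-!
The core argument, continued.
-/

namespace Pool.Agent.TH46.NC

open Matrix Pool.Agent.H552R3.PC MvPolynomial

variable {K : Type*} [Field K] {σ : Type*} [DecidableEq σ] {n : ℕ}

/-- The diagonal of the value at matrix units vanishes. -/
theorem diag_zero (hn4 : 4 ≤ n) (hnK : (n : K) ≠ 0) {J : Finset σ} {k : σ → ℕ}
    {f : FreeAlgebra K σ} (hf : HomogIn J k f) (hpow : Pow n J f) (hchp : Chp n J f)
    (E : σ → Fin n × Fin n) (p0 : Fin n) : F J f E p0 p0 = 0 := by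
  have : NeZero n := ⟨by omega⟩
  by_contra h0
  have hdeg : ∀ h : Fin n → Fin n, deg J k h E = 0 := by
    intro h
    have := F_hom hf h E p0 p0 h0
    rw [sub_self] at this
    exact this.symm
  have hFd := diag_of_hom (M := F J f E) (h := (id : Fin n → Fin n)) Function.injective_id (by
    have := F_hom hf (id : Fin n → Fin n) E
    rwa [hdeg id] at this)
  obtain ⟨c, hc⟩ := hpow (W0 K J E) (W0_diag J E)
  have hc' : F J f E ^ n = Matrix.scalar (Fin n) c := hc
  have hpn : ∀ p, F J f E p p ^ n = c := by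
    intro p
    have e := congrFun (congrFun hc' p) p
    rw [hFd, Matrix.diagonal_pow] at e
    simpa using e
  have hn0 : 0 < n := by omega
  have hne : ∀ p, F J f E p p ≠ 0 := by
    intro p hp
    have h1 := hpn p
    rw [hp, zero_pow hn0.ne', ← hpn p0] at h1
    exact h0 (pow_eq_zero_iff hn0.ne' |>.mp h1.symm)
  have hnB : (n : BB K σ n) ≠ 0 := by
    have e : (n : BB K σ n) = C (n : K) := by simp
    rw [e]
    intro h
    exact hnK (C_injective _ _ (by rw [h, map_zero]))
  have hdist : ∀ p q, p ≠ q → F J f E p p ≠ F J f E q q := by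
    intro p q hpq h
    refine hne p (distinct_of_charpoly hnB (fun p => F J f E p p) ?_ p q hpq h)
    intro i hi hin
    rw [← hFd]
    exact hchp (W0 K J E) (W0_diag J E) i hi hin
  -- the permutations
  set i0 : Fin n := ⟨0, by omega⟩ with hi0
  set i1 : Fin n := ⟨1, by omega⟩ with hi1
  set i2 : Fin n := ⟨2, by omega⟩ with hi2
  set i3 : Fin n := ⟨3, by omega⟩ with hi3
  have h01 : i0 + i1 = i1 := by
    apply Fin.ext
    rw [Fin.val_add]
    simp only [hi0, hi1]
    exact Nat.mod_eq_of_lt (by omega)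
  have h11 : i1 + i1 = i2 := by
    apply Fin.ext
    rw [Fin.val_add]
    simp only [hi2, hi1]
    exact Nat.mod_eq_of_lt (by omega)
  have n02 : i0 ≠ i2 := by simp [hi0, hi2, Fin.ext_iff]
  have n03 : i0 ≠ i3 := by simp [hi0, hi3, Fin.ext_iff]
  have n12 : i1 ≠ i2 := by simp [hi1, hi2, Fin.ext_iff]
  have n13 : i1 ≠ i3 := by simp [hi1, hi3, Fin.ext_iff]
  have n23 : i2 ≠ i3 := by simp [hi2, hi3, Fin.ext_iff]
  set A : Equiv.Perm (Fin n) := Equiv.addRight i1 with hA
  set s : Equiv.Perm (Fin n) := Equiv.swap i2 i3 with hs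
  have hAsymm : ∀ p, A.symm p = p - i1 := by
    intro p
    rw [Equiv.symm_apply_eq]
    show p = p - i1 + i1
    rw [sub_add_cancel]
  have hπ1 : ∀ p q : Fin n, (id : Fin n → Fin n) (A.symm p) - id (A.symm q) = id p - id q := by
    intro p q
    simp only [id, hAsymm]
    abel
  set B : Equiv.Perm (Fin n) := s.trans (A.symm.trans s) with hB
  have hss : ∀ p, s (s p) = p := by
    intro p; rw [hs, Equiv.swap_apply_self]
  have hBv : ∀ p, s (B p) = s p - i1 := by
    intro p
    rw [hB, Equiv.trans_apply, Equiv.trans_apply, hss, hAsymm]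
  have hπ2 : ∀ p q : Fin n, s (B p) - s (B q) = s p - s q := by
    intro p q
    rw [hBv, hBv]
    abel
  obtain ⟨r, _, hr⟩ := smul_of_pow_eq hn0 (F J f E i0 i0) (F J f E i1 i1) (hne _)
    (by rw [hpn, hpn])
  have hA1 : A.symm i1 = i0 := by
    rw [Equiv.symm_apply_eq]
    exact h01.symm
  have hA2 : A.symm i2 = i1 := by
    rw [Equiv.symm_apply_eq]
    exact h11.symm
  have hs0 : s i0 = i0 := by rw [hs, Equiv.swap_apply_of_ne_of_ne n02 n03]
  have hs1 : s i1 = i1 := by rw [hs, Equiv.swap_apply_of_ne_of_ne n12 n13]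
  have hs3 : s i3 = i2 := by rw [hs, Equiv.swap_apply_right]
  have hB1 : B i1 = i0 := by
    rw [hB, Equiv.trans_apply, Equiv.trans_apply, hs1, hA1, hs0]
  have hB3 : B i3 = i1 := by
    rw [hB, Equiv.trans_apply, Equiv.trans_apply, hs3, hA2, hs1]
  have e1 := ratio hn0 hf hpow id Function.injective_id A.symm hπ1 E (hdeg _) hne i1 i2 r
    (by rw [hA1, hA2]; exact hr)
  have e2 := ratio hn0 hf hpow (fun p => s p) s.injective B hπ2 E (hdeg _) hne i1 i3 r
    (by rw [hB1, hB3]; exact hr)
  exact hdist i2 i3 n23 (by rw [e1, e2])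

/-- The off-diagonal entries of the value at matrix units vanish. -/
theorem offdiag_zero (hodd : Odd n) {J : Finset σ} {k : σ → ℕ}
    {f : FreeAlgebra K σ} (hf : HomogIn J k f)
    (hδ : ∀ E E' : σ → Fin n × Fin n, ∃ δ c, (∀ p, G J f E E' p p = δ) ∧
      (G J f E E' - Matrix.scalar (Fin n) δ) ^ n = Matrix.scalar (Fin n) c)
    (E : σ → Fin n × Fin n) (a b : Fin n) (hab : a ≠ b) : F J f E a b = 0 := by
  by_contra h0
  set h : Fin n → ℤ := fun p => if p = b then (a.val : ℤ) else p.val with hh
  have ha : h a = a.val := by simp only [hh, if_neg hab]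
  have hb : h b = a.val := by simp only [hh, if_pos]
  have hcol : ∀ p q, p ≠ q → h p = h q → (p = a ∧ q = b) ∨ (p = b ∧ q = a) := by
    intro p q hpq he
    by_cases hp : p = b
    · by_cases hq : q = b
      · exact absurd (hp.trans hq.symm) hpq
      · right
        refine ⟨hp, ?_⟩
        rw [hp, hb] at he
        simp only [hh, if_neg hq] at he
        exact Fin.ext (by exact_mod_cast he.symm)
    · by_cases hq : q = b
      · left
        refine ⟨?_, hq⟩
        rw [hq, hb] at he
        simp only [hh, if_neg hp] at he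
        exact Fin.ext (by exact_mod_cast he)
      · exfalso
        simp only [hh, if_neg hp, if_neg hq] at he
        exact hpq (Fin.ext (by exact_mod_cast he))
  set τ := Equiv.swap a b with hτ
  have hτh : ∀ x, h (τ x) = h x := by
    intro x
    by_cases hx : x = a
    · rw [hx, hτ, Equiv.swap_apply_left, ha, hb]
    · by_cases hx' : x = b
      · rw [hx', hτ, Equiv.swap_apply_right, ha, hb]
      · rw [hτ, Equiv.swap_apply_of_ne_of_ne hx hx']
  have hdeg : deg J k h E = 0 := by
    have := F_hom hf h E a b h0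
    rw [ha, hb, sub_self] at this
    exact this.symm
  have hG : Hom h 0 (G J f E (pE τ E)) := by
    rw [← hdeg]
    exact G_hom hf h E (pE τ E) (fun v _ => by simp only [pE, hτh])
  obtain ⟨δ, c, h1, h2⟩ := hδ E (pE τ E)
  set M := G J f E (pE τ E) - Matrix.scalar (Fin n) δ with hM
  have hMo : ∀ p q, p ≠ q → M p q = G J f E (pE τ E) p q := by
    intro p q hpq
    rw [hM, Matrix.sub_apply, Matrix.scalar_apply, Matrix.diagonal_apply_ne _ hpq, sub_zero]
  have hsupp : ∀ p q, M p q ≠ 0 → (p = a ∧ q = b) ∨ (p = b ∧ q = a) := by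
    intro p q hpq
    by_cases e : p = q
    · exfalso
      apply hpq
      rw [hM, Matrix.sub_apply, Matrix.scalar_apply, ← e, Matrix.diagonal_apply_eq, h1, sub_self]
    · apply hcol p q e
      rw [hMo p q e] at hpq
      exact sub_eq_zero.mp (hG p q hpq)
  have hx : M a b ≠ 0 := by
    rw [hMo a b hab]
    intro e
    apply h0
    rw [← G_10 J f E (pE τ E), e, map_zero]
  have hy : M b a ≠ 0 := by
    rw [hMo b a hab.symm]
    intro e
    have e1 := G_01 J f E (pE τ E) b a
    rw [e, map_zero] at e1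
    have e2 := F_perm J f τ E a b
    rw [hτ, Equiv.swap_apply_left, Equiv.swap_apply_right, ← hτ, ← e1] at e2
    exact h0 (rho_injective τ (by rw [← e2, map_zero]))
  obtain ⟨m, hm⟩ := hodd
  apply offdiag M hab hx hy hsupp m
  rw [← hm, h2, Matrix.scalar_apply, Matrix.diagonal_apply_ne _ hab]

theorem mix_Wm (J : Finset σ) (E E' E'' : σ → Fin n × Fin n) :
    mix J E'' (Wm K J E E') = W0 K J E'' := by
  funext v
  by_cases hv : v ∈ J
  · simp [mix, W0, hv]
  · simp [mix, W0, Wm, hv]

/-- Characteristic prime to `n`: the values at matrix units vanish. -/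
theorem F_zero (hn4 : 4 ≤ n) (hodd : Odd n) (hnK : (n : K) ≠ 0) {J : Finset σ}
    {f : FreeAlgebra K σ} (hf : LinIn J f) (hpow : Pow n J f) (hchp : Chp n J f)
    (E : σ → Fin n × Fin n) : F J f E = 0 := by
  have hd := diag_zero hn4 hnK hf hpow hchp
  have hδ : ∀ E E' : σ → Fin n × Fin n, ∃ δ c, (∀ p, G J f E E' p p = δ) ∧
      (G J f E E' - Matrix.scalar (Fin n) δ) ^ n = Matrix.scalar (Fin n) c := by
    intro E E'
    obtain ⟨c, hc⟩ := hpow (Wm K J E E') (Wm_diag J E E')
    refine ⟨0, c, fun p => ?_, ?_⟩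
    · have hN := units_lift (R := BB K σ n) hf
        (N := LinearMap.ker (Matrix.entryLinearMap (BB K σ n) (BB K σ n) p p))
        (Wm K J E E') (fun E'' => by
          rw [mix_Wm, LinearMap.mem_ker]
          exact hd E'' p)
      exact hN
    · rw [map_zero, sub_zero]
      exact hc
  ext1 p q
  by_cases e : p = q
  · subst e; exact hd E p
  · exact offdiag_zero hodd hf hδ E p q e

/-- Characteristic `n`: the diagonal entries of the values at matrix units are equal. -/
theorem F_diag_eq (hn : n.Prime) [CharP K n] {J : Finset σ} {k : σ → ℕ}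
    {f : FreeAlgebra K σ} (hf : HomogIn J k f) (hpow : Pow n J f)
    (E : σ → Fin n × Fin n) (p q : Fin n) : F J f E p p = F J f E q q := by
  have : Fact n.Prime := ⟨hn⟩
  have : NeZero n := ⟨hn.ne_zero⟩
  by_cases h0 : F J f E p p = 0 ∧ F J f E q q = 0
  · rw [h0.1, h0.2]
  obtain ⟨p0, hp0⟩ : ∃ p0, F J f E p0 p0 ≠ 0 := by
    by_contra hcon
    push Not at hcon
    exact h0 ⟨hcon p, hcon q⟩
  have hdeg : deg J k (id : Fin n → Fin n) E = 0 := by
    have := F_hom hf (id : Fin n → Fin n) E p0 p0 hp0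
    rw [sub_self] at this
    exact this.symm
  have hFd := diag_of_hom (M := F J f E) (h := (id : Fin n → Fin n)) Function.injective_id (by
    have := F_hom hf (id : Fin n → Fin n) E
    rwa [hdeg] at this)
  obtain ⟨c, hc⟩ := hpow (W0 K J E) (W0_diag J E)
  have hc' : F J f E ^ n = Matrix.scalar (Fin n) c := hc
  have hpn : ∀ p, F J f E p p ^ n = c := by
    intro p
    have e := congrFun (congrFun hc' p) p
    rw [hFd, Matrix.diagonal_pow] at e
    simpa using e
  have h1 : (F J f E p p - F J f E q q) ^ n = 0 := by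
    rw [sub_pow_char, hpn, hpn, sub_self]
  exact sub_eq_zero.mp (pow_eq_zero_iff hn.ne_zero |>.mp h1)

/-- Characteristic `n`: the values at matrix units are scalar. -/
theorem F_scalar (hn : n.Prime) (hodd : Odd n) [CharP K n] {J : Finset σ}
    {f : FreeAlgebra K σ} (hf : LinIn J f) (hpow : Pow n J f)
    (E : σ → Fin n × Fin n) (p q : Fin n) :
    F J f E p p = F J f E q q ∧ (p ≠ q → F J f E p q = 0) := by
  have : Fact n.Prime := ⟨hn⟩
  have : NeZero n := ⟨hn.ne_zero⟩
  have hd := F_diag_eq hn hf hpow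
  have hδ : ∀ E E' : σ → Fin n × Fin n, ∃ δ c, (∀ p, G J f E E' p p = δ) ∧
      (G J f E E' - Matrix.scalar (Fin n) δ) ^ n = Matrix.scalar (Fin n) c := by
    intro E E'
    obtain ⟨c, hc⟩ := hpow (Wm K J E E') (Wm_diag J E E')
    have hc' : G J f E E' ^ n = Matrix.scalar (Fin n) c := hc
    refine ⟨G J f E E' 0 0, c - G J f E E' 0 0 ^ n, fun p => ?_, ?_⟩
    · have hN := units_lift (R := BB K σ n) hf
        (N := LinearMap.ker (Matrix.entryLinearMap (BB K σ n) (BB K σ n) p p -
          Matrix.entryLinearMap (BB K σ n) (BB K σ n) 0 0))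
        (Wm K J E E') (fun E'' => by
          rw [mix_Wm, LinearMap.mem_ker]
          exact sub_eq_zero.mpr (hd E'' p 0))
      exact sub_eq_zero.mp hN
    · rw [sub_pow_char_of_commute, hc', map_sub, map_pow]
      exact (Matrix.scalar_commute _ (fun _ => Commute.all _ _) _).symm
  exact ⟨hd E p q, fun e => offdiag_zero hodd hf hδ E p q e⟩

end Pool.Agent.TH46.NC
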