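import Mathlib
import Pool.Agent.TH46.NC.Core2

/-!
Every matrix lies on a line whose generic point is diagonalizable.
-/

namespace Pool.Agent.TH46.NC

open Matrix Polynomial

section Res

theorem separable_map_iff {R F : Type*} [CommRing R] [Field F] (φ : R →+* F) {q : R[X]}
    (hq : q.Monic) :
    (q.map φ).Separable ↔
      φ (resultant q (derivative q) q.natDegree (derivative q).natDegree) ≠ 0 := by
  have hd : derivative (q.map φ) = (derivative q).map φ := derivative_map q φ
  have hnd : (q.map φ).natDegree = q.natDegree := hq.natDegree_map φ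
  have hle : (derivative (q.map φ)).natDegree ≤ (derivative q).natDegree := by
    rw [hd]; exact natDegree_map_le
  obtain ⟨k, hk⟩ := Nat.exists_eq_add_of_le hle
  have h1 : φ (resultant q (derivative q) q.natDegree (derivative q).natDegree) =
      resultant (q.map φ) (derivative (q.map φ)) := by
    rw [← resultant_map_map, ← hd, hk, resultant_add_right_deg _ _ _ _ _ le_rfl, hnd]
    have : (q.map φ).coeff q.natDegree = 1 := by
      rw [coeff_map, hq.coeff_natDegree, map_one]
    rw [this, one_pow, one_mul]
  rw [h1, ← isUnit_iff_ne_zero, isUnit_resultant_iff_isCoprime (hq.map φ)]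
  rfl

theorem separable_transfer {R F F' : Type*} [CommRing R] [Field F] [Field F'] (φ : R →+* F)
    (φ' : R →+* F') (hφ' : Function.Injective φ') {q : R[X]} (hq : q.Monic)
    (h : (q.map φ).Separable) : (q.map φ').Separable := by
  rw [separable_map_iff _ hq] at h ⊢
  intro h0
  apply h
  rw [hφ' (h0.trans (map_zero φ').symm), map_zero]

end Res

section Diag

variable {F : Type*} [Field F] {n : ℕ}

theorem exists_diag [IsAlgClosed F] (T : Matrix (Fin n) (Fin n) F) (h : T.charpoly.Separable) :
    ∃ (P Q : Matrix (Fin n) (Fin n) F) (t : Fin n → F),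
      P * Q = 1 ∧ Q * P = 1 ∧ T = P * Matrix.diagonal t * Q := by
  have hcard : T.charpoly.roots.toList.length = n := by
    rw [Multiset.length_toList, IsAlgClosed.card_roots_eq_natDegree,
      Matrix.charpoly_natDegree_eq_dim, Fintype.card_fin]
  have hnodup : T.charpoly.roots.toList.Nodup := by
    rw [← Multiset.coe_nodup, Multiset.coe_toList]
    exact nodup_roots h
  set t : Fin n → F := fun i => T.charpoly.roots.toList.get (Fin.cast hcard.symm i) with ht
  have htinj : Function.Injective t := by
    intro i j hij
    have := (List.nodup_iff_injective_get.mp hnodup) hij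
    exact Fin.cast_injective _ this
  have htroot : ∀ i, T.charpoly.IsRoot (t i) := by
    intro i
    have : t i ∈ T.charpoly.roots := by
      rw [← Multiset.mem_toList]
      exact List.get_mem _ _
    exact isRoot_of_mem_roots this
  have hv : ∀ i, ∃ v : Fin n → F, v ≠ 0 ∧ T.mulVec v = t i • v := by
    intro i
    have h1 : (Matrix.scalar (Fin n) (t i) - T).det = 0 := by
      rw [← Matrix.eval_charpoly]; exact htroot i
    obtain ⟨v, hv0, hv⟩ := Matrix.exists_mulVec_eq_zero_iff.mpr h1
    refine ⟨v, hv0, ?_⟩
    rw [Matrix.sub_mulVec, sub_eq_zero] at hv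
    rw [← hv]
    ext a
    simp [Matrix.scalar_apply, Matrix.mulVec_diagonal]
  choose v hv0 hv using hv
  have hli : LinearIndependent F v := by
    refine Module.End.eigenvectors_linearIndependent' (Matrix.toLin' T) t htinj v (fun i => ?_)
    refine ⟨?_, hv0 i⟩
    rw [Module.End.mem_eigenspace_iff, Matrix.toLin'_apply]
    exact hv i
  set P : Matrix (Fin n) (Fin n) F := Matrix.of fun a i => v i a with hP
  have hPu : IsUnit P := by
    rw [← Matrix.linearIndependent_cols_iff_isUnit]
    exact hli
  have hdet : IsUnit P.det := (Matrix.isUnit_iff_isUnit_det _).mp hPu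
  refine ⟨P, P⁻¹, t, Matrix.mul_nonsing_inv _ hdet, Matrix.nonsing_inv_mul _ hdet, ?_⟩
  have hTP : T * P = P * Matrix.diagonal t := by
    ext a i
    have := congrFun (hv i) a
    rw [Matrix.mul_diagonal, Matrix.mul_apply]
    simp only [hP, Matrix.of_apply]
    rw [Matrix.mulVec, dotProduct] at this
    rw [this, Pi.smul_apply, smul_eq_mul, mul_comm]
  rw [← hTP, mul_assoc, Matrix.mul_nonsing_inv _ hdet, mul_one]

end Diag

section Line

variable {K : Type*} [Field K] {n : ℕ}

/-- The line through `T` (at `0`) and `diag lam` (at `1`). -/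
noncomputable def line (T : Matrix (Fin n) (Fin n) K) (lam : Fin n → K) :
    Matrix (Fin n) (Fin n) K[X] :=
  Matrix.of fun a b => C (T a b) + X * (C (Matrix.diagonal lam a b) - C (T a b))

theorem line_zero (T : Matrix (Fin n) (Fin n) K) (lam : Fin n → K) :
    (aeval (0 : K) : K[X] →ₐ[K] K).mapMatrix (line T lam) = T := by
  ext a b
  simp [line]

theorem line_one (T : Matrix (Fin n) (Fin n) K) (lam : Fin n → K) :
    (line T lam).map (evalRingHom (1 : K)) = Matrix.diagonal lam := by
  ext a b
  simp [line]

theorem line_separable (T : Matrix (Fin n) (Fin n) K) (lam : Fin n → K)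
    (hlam : Function.Injective lam) {F : Type*} [Field F] (φ : K[X] →+* F)
    (hφ : Function.Injective φ) : ((line T lam).map φ).charpoly.Separable := by
  rw [Matrix.charpoly_map]
  refine separable_transfer (evalRingHom (1 : K)) φ hφ (Matrix.charpoly_monic _) ?_
  rw [← Matrix.charpoly_map, line_one, Matrix.charpoly, Matrix.charmatrix_diagonal,
    Matrix.det_diagonal]
  exact separable_prod_X_sub_C_iff.mpr hlam

end Line

end Pool.Agent.TH46.NC
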