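import Mathlib
import Pool.Agent.TH46.NC.Core2
import Pool.Agent.TH46.NC.Dense

/-!
Values over arbitrary commutative algebras; polynomials linear in all but one variable.
-/

namespace Pool.Agent.TH46.NC

open Matrix Pool.Agent.H552R3.PC

universe u

variable {K : Type u} [Field K] {σ : Type*} {n : ℕ}

/-- The `n`-th powers of the values of `f` are scalar over all commutative algebras. -/
theorem pow_scalar [Infinite K] (f : FreeAlgebra K σ) (ν : ℕ)
    (h : ∀ X : σ → Matrix (Fin n) (Fin n) K, ∀ Z : Matrix (Fin n) (Fin n) K,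
      FreeAlgebra.lift K X (f ^ ν) * Z = Z * FreeAlgebra.lift K X (f ^ ν))
    {R : Type*} [CommRing R] [Algebra K R] (W : σ → Matrix (Fin n) (Fin n) R) :
    ∃ c, FreeAlgebra.lift K W f ^ ν = Matrix.scalar (Fin n) c := by
  have hcomm : ∀ i j : Fin n,
      Commute (Matrix.single i j (1 : R)) (FreeAlgebra.lift K W f ^ ν) := by
    intro i j
    have e := transfer_comm (f ^ ν) (Matrix.single i j 1) (fun X => h X _) W
    have e2 : (Matrix.single i j (1 : K)).map (algebraMap K R) = Matrix.single i j 1 := by
      ext1 a b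
      simp only [Matrix.map_apply, Matrix.single, Matrix.of_apply]
      split_ifs <;> simp
    rw [e2, map_pow] at e
    exact e.symm
  obtain ⟨c, hc⟩ := Matrix.mem_range_scalar_iff_commute_single'.mpr hcomm
  exact ⟨c, hc.symm⟩

variable [DecidableEq σ]

/-- The specialisation of generic diagonal matrices. -/
noncomputable def psi {R : Type*} [CommRing R] [Algebra K R] (W : σ → Matrix (Fin n) (Fin n) R) :
    BB K σ n →ₐ[K] R :=
  MvPolynomial.aeval (Sum.elim (fun vp => W vp.1 vp.2 vp.2) (fun _ => 0))

theorem psi_F {R : Type*} [CommRing R] [Algebra K R] (J : Finset σ) (f : FreeAlgebra K σ)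
    (W : σ → Matrix (Fin n) (Fin n) R) (hW : ∀ v, v ∉ J → (W v).IsDiag)
    (E : σ → Fin n × Fin n) :
    FreeAlgebra.lift K (mix J E W) f = (psi W).mapMatrix (F J f E) := by
  rw [F, lift_map]
  congr 2
  funext v
  ext1 a b
  by_cases hv : v ∈ J
  · simp only [W0, mix, hv, if_true, AlgHom.mapMatrix_apply, Matrix.map_apply]
    by_cases e : (E v).1 = a ∧ (E v).2 = b
    · rw [e.1, e.2]; simp
    · rw [Matrix.single_apply_of_ne _ _ _ _ _ e, Matrix.single_apply_of_ne _ _ _ _ _ e, map_zero]
  · simp only [W0, mix, hv, if_false, AlgHom.mapMatrix_apply, Matrix.map_apply, td]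
    by_cases e : a = b
    · subst e; simp [psi]
    · rw [Matrix.diagonal_apply_ne _ e, map_zero]
      exact hW v hv e

theorem value_zero (hn4 : 4 ≤ n) (hodd : Odd n) (hnK : (n : K) ≠ 0) {J : Finset σ}
    {f : FreeAlgebra K σ} (hf : LinIn J f) (hpow : Pow n J f) (hchp : Chp n J f)
    {R : Type*} [CommRing R] [Algebra K R] (W : σ → Matrix (Fin n) (Fin n) R)
    (hW : ∀ v, v ∉ J → (W v).IsDiag) : FreeAlgebra.lift K W f = 0 := by
  have h := units_lift (R := R) hf (N := ⊥) W (fun E => by
    rw [psi_F J f W hW E, F_zero hn4 hodd hnK hf hpow hchp, map_zero]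
    exact Submodule.zero_mem _)
  exact (Submodule.mem_bot R).mp h

theorem value_scalar (hn : n.Prime) (hodd : Odd n) [CharP K n] {J : Finset σ}
    {f : FreeAlgebra K σ} (hf : LinIn J f) (hpow : Pow n J f)
    {R : Type*} [CommRing R] [Algebra K R] (W : σ → Matrix (Fin n) (Fin n) R)
    (hW : ∀ v, v ∉ J → (W v).IsDiag) :
    ∃ c, FreeAlgebra.lift K W f = Matrix.scalar (Fin n) c := by
  have : NeZero n := ⟨hn.ne_zero⟩
  have h := fun p q => F_scalar hn hodd hf hpow (p := p) (q := q)
  have h1 : ∀ p, FreeAlgebra.lift K W f p p = FreeAlgebra.lift K W f 0 0 := by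
    intro p
    have hN := units_lift (R := R) hf
      (N := LinearMap.ker (Matrix.entryLinearMap R R p p - Matrix.entryLinearMap R R 0 0))
      W (fun E => by
        rw [psi_F J f W hW E, LinearMap.mem_ker]
        refine sub_eq_zero.mpr ?_
        show psi W (F J f E p p) = psi W (F J f E 0 0)
        rw [(h p 0 E).1])
    exact sub_eq_zero.mp hN
  have h2 : ∀ p q, p ≠ q → FreeAlgebra.lift K W f p q = 0 := by
    intro p q hpq
    have hN := units_lift (R := R) hf
      (N := LinearMap.ker (Matrix.entryLinearMap R R p q))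
      W (fun E => by
        rw [psi_F J f W hW E, LinearMap.mem_ker]
        show psi W (F J f E p q) = 0
        rw [(h p q E).2 hpq, map_zero])
    exact hN
  refine ⟨FreeAlgebra.lift K W f 0 0, ?_⟩
  ext1 p q
  by_cases e : p = q
  · subst e; rw [h1]; simp
  · rw [h2 p q e, Matrix.scalar_apply, Matrix.diagonal_apply_ne _ e]

/-- Values at matrix units of polynomials homogeneous in the variables of `J`. -/
theorem F_sq (hn4 : 4 ≤ n) (hnK : (n : K) ≠ 0) {J : Finset σ} {k : σ → ℕ}
    {f : FreeAlgebra K σ} (hf : HomogIn J k f) (hpow : Pow n J f) (hchp : Chp n J f)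
    (E : σ → Fin n × Fin n) : F J f E * F J f E = 0 := by
  have hd := diag_zero hn4 hnK hf hpow hchp E
  have hh := F_hom hf (fun p : Fin n => (Pi.single p 1 : Fin n → ℤ)) E
  ext1 p q
  rw [Matrix.mul_apply, Matrix.zero_apply]
  refine Finset.sum_eq_zero fun m _ => ?_
  by_contra hne
  have h1 := left_ne_zero_of_mul hne
  have h2 := right_ne_zero_of_mul hne
  have hpm : p ≠ m := by rintro rfl; exact h1 (hd p)
  have hmq : m ≠ q := by rintro rfl; exact h2 (hd m)
  have e := (hh p m h1).trans (hh m q h2).symm
  have e1 := congrFun e m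
  simp only [Pi.sub_apply, Pi.single_eq_same, Pi.single_eq_of_ne hpm.symm,
    Pi.single_eq_of_ne hmq] at e1
  omega

theorem value_sq (hn4 : 4 ≤ n) (hnK : (n : K) ≠ 0) {J : Finset σ} {k : σ → ℕ}
    {f : FreeAlgebra K σ} (hf : HomogIn J k f) (hpow : Pow n J f) (hchp : Chp n J f)
    {R : Type*} [CommRing R] [Algebra K R] (W : σ → Matrix (Fin n) (Fin n) R)
    (hW : ∀ v, v ∉ J → (W v).IsDiag) (E : σ → Fin n × Fin n) :
    FreeAlgebra.lift K (mix J E W) f ^ 2 = 0 := by
  rw [psi_F J f W hW E, pow_two, ← map_mul, F_sq hn4 hnK hf hpow hchp, map_zero]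

omit [DecidableEq σ] in
/-- Evaluation depends only on the variables that occur. -/
theorem lift_congr {A : Type*} [Ring A] [Algebra K A] {T : Set σ} {f : FreeAlgebra K σ}
    (hf : f ∈ Algebra.adjoin K (FreeAlgebra.ι K '' T)) (W W' : σ → A)
    (h : ∀ v ∈ T, W v = W' v) : FreeAlgebra.lift K W f = FreeAlgebra.lift K W' f := by
  have : Set.EqOn (FreeAlgebra.lift K W) (FreeAlgebra.lift K W')
      (FreeAlgebra.ι K '' T) := by
    rintro _ ⟨v, hv, rfl⟩
    simp [h v hv]
  exact AlgHom.eqOn_adjoin_iff.mpr this hf

omit [DecidableEq σ] in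
theorem lift_conj {R : Type*} [CommRing R] [Algebra K R] (P Q : Matrix (Fin n) (Fin n) R)
    (hPQ : P * Q = 1) (hQP : Q * P = 1) (W : σ → Matrix (Fin n) (Fin n) R)
    (f : FreeAlgebra K σ) :
    FreeAlgebra.lift K (fun v => P * W v * Q) f = P * FreeAlgebra.lift K W f * Q := by
  induction f using FreeAlgebra.induction with
  | grade0 c =>
    rw [AlgHom.commutes, AlgHom.commutes, ← Algebra.commutes, mul_assoc, hPQ, mul_one]
  | grade1 i => rw [FreeAlgebra.lift_ι_apply, FreeAlgebra.lift_ι_apply]
  | mul a b ha hb =>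
    rw [map_mul, map_mul, ha, hb]
    have : P * FreeAlgebra.lift K W a * Q * (P * FreeAlgebra.lift K W b * Q) =
      P * FreeAlgebra.lift K W a * (Q * P) * FreeAlgebra.lift K W b * Q := by noncomm_ring
    rw [this, hQP]
    noncomm_ring
  | add a b ha hb => rw [map_add, map_add, ha, hb]; noncomm_ring

/-- If `f` is scalar valued whenever the variables outside `J` are diagonal, and only one variable
outside `J` occurs in `f`, then `f` is scalar valued. -/
theorem scalar_of_diag [Infinite K] {J : Finset σ} {x : σ} {f : FreeAlgebra K σ}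
    (hfx : f ∈ Algebra.adjoin K (FreeAlgebra.ι K '' (insert x (J : Set σ))))
    (hval : ∀ (R : Type u) [Field R] [Algebra K R] (W : σ → Matrix (Fin n) (Fin n) R),
      (∀ v, v ∉ J → (W v).IsDiag) → ∃ c, FreeAlgebra.lift K W f = Matrix.scalar (Fin n) c)
    (X : σ → Matrix (Fin n) (Fin n) K) : ∃ c, FreeAlgebra.lift K X f = Matrix.scalar (Fin n) c := by
  classical
  rcases Nat.eq_zero_or_pos n with rfl | hn0
  · exact ⟨0, Subsingleton.elim _ _⟩
  have : NeZero n := ⟨hn0.ne'⟩
  -- the line
  obtain ⟨lam, hlam⟩ : ∃ lam : Fin n → K, Function.Injective lam :=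
    ⟨fun i => Infinite.natEmbedding K i, fun i j h =>
      Fin.ext ((Infinite.natEmbedding K).injective h)⟩
  set Fr := FractionRing (Polynomial K) with hFr
  set A := AlgebraicClosure Fr with hA
  letI : Algebra K A := ((algebraMap Fr A).comp ((algebraMap (Polynomial K) Fr).comp
    (algebraMap K (Polynomial K)))).toAlgebra
  set φ : Polynomial K →+* A := (algebraMap Fr A).comp (algebraMap (Polynomial K) Fr) with hφ
  have hφinj : Function.Injective φ :=
    (algebraMap Fr A).injective.comp (IsFractionRing.injective (Polynomial K) Fr)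
  let φa : Polynomial K →ₐ[K] A := { φ with commutes' := fun c => rfl }
  set XL : σ → Matrix (Fin n) (Fin n) (Polynomial K) := fun v =>
    if v = x then line (X x) lam else (X v).map Polynomial.C with hXL
  set V := FreeAlgebra.lift K XL f with hV
  -- the specialisation at zero
  have hsp : (Polynomial.aeval (0 : K) : Polynomial K →ₐ[K] K).mapMatrix V =
      FreeAlgebra.lift K X f := by
    rw [hV, lift_map]
    congr 2
    funext v
    by_cases hv : v = x
    · subst hv
      simp only [hXL, if_true]
      exact line_zero _ _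
    · simp only [hXL, if_neg hv]
      ext a b
      simp
  -- the generic point
  obtain ⟨P, Q, t, hPQ, hQP, hT⟩ := exists_diag ((line (X x) lam).map φ)
    (line_separable (X x) lam hlam φ hφinj)
  have hgen : ∃ c, FreeAlgebra.lift K (fun v => φa.mapMatrix (XL v)) f =
      Matrix.scalar (Fin n) c := by
    set W : σ → Matrix (Fin n) (Fin n) A := fun v =>
      if v = x then Matrix.diagonal t else
        if v ∈ J then Q * φa.mapMatrix (XL v) * P else 0 with hW
    by_cases hxJ : x ∈ J
    · obtain ⟨c, hc⟩ := hval A (fun v => if v ∈ J then φa.mapMatrix (XL v) else 0)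
        (fun v hv => by simp only [if_neg hv]; exact Matrix.isDiag_zero)
      refine ⟨c, ?_⟩
      rw [← hc]
      refine lift_congr hfx _ _ (fun v hv => ?_)
      have : v ∈ J := by
        rcases hv with rfl | hv
        · exact hxJ
        · exact hv
      simp only [if_pos this]
    · obtain ⟨c, hc⟩ := hval A W (fun v hv => by
        simp only [hW]
        by_cases h : v = x
        · rw [if_pos h]; exact Matrix.isDiag_diagonal _
        · rw [if_neg h, if_neg hv]; exact Matrix.isDiag_zero)
      refine ⟨c, ?_⟩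
      have e1 : FreeAlgebra.lift K (fun v => φa.mapMatrix (XL v)) f =
          FreeAlgebra.lift K (fun v => P * W v * Q) f := by
        refine lift_congr hfx _ _ (fun v hv => ?_)
        by_cases h : v = x
        · subst h
          simp only [hW, if_true]
          rw [← hT]
          simp only [hXL, if_true]
          rfl
        · have hvJ : v ∈ J := by
            rcases hv with rfl | hv
            · exact absurd rfl h
            · exact hv
          simp only [hW, if_neg h, if_pos hvJ]
          have : P * (Q * φa.mapMatrix (XL v) * P) * Q =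
            (P * Q) * φa.mapMatrix (XL v) * (P * Q) := by noncomm_ring
          rw [this, hPQ, one_mul, mul_one]
      rw [e1, lift_conj P Q hPQ hQP, hc, mul_assoc,
        (Matrix.scalar_commute c (fun _ => Commute.all _ _) Q).eq, ← mul_assoc, hPQ, one_mul]
  obtain ⟨c, hc⟩ := hgen
  have hc' : φa.mapMatrix V = Matrix.scalar (Fin n) c := by
    rw [hV, lift_map, hc]
  have hφa : Function.Injective φa := hφinj
  have hV1 : ∀ p q, p ≠ q → V p q = 0 := by
    intro p q hpq
    apply hφa
    have e := congrFun (congrFun hc' p) q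
    rw [Matrix.scalar_apply, Matrix.diagonal_apply_ne _ hpq] at e
    rw [map_zero]
    exact e
  have hV2 : ∀ p, V p p = V 0 0 := by
    intro p
    apply hφa
    have e := congrFun (congrFun hc' p) p
    have e' := congrFun (congrFun hc' 0) 0
    rw [Matrix.scalar_apply, Matrix.diagonal_apply_eq] at e e'
    exact e.trans e'.symm
  refine ⟨Polynomial.aeval (0 : K) (V 0 0), ?_⟩
  rw [← hsp]
  ext1 p q
  rw [AlgHom.mapMatrix_apply, Matrix.map_apply]
  by_cases e : p = q
  · subst e
    rw [hV2, Matrix.scalar_apply, Matrix.diagonal_apply_eq]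
  · rw [hV1 p q e, map_zero, Matrix.scalar_apply, Matrix.diagonal_apply_ne _ e]

end Pool.Agent.TH46.NC
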