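import Mathlib
import Pool.Agent.TH46.NC.Main

/-!
Polynomials of degree at most one in all but one variable.
-/

namespace Pool.Agent.TH46.NC

open Matrix Pool.Agent.H552R3.PC

universe u

variable {K : Type u} [Field K] {σ : Type*} [DecidableEq σ] {n : ℕ}

/-- Words whose letters other than `x` form the set `T` and occur once. -/
def WT (K : Type u) [Field K] {σ : Type*} [DecidableEq σ] (x : σ) (T : Finset σ) :
    Set (FreeAlgebra K σ) :=
  {w | ∃ l : List σ, l.toFinset.erase x = T ∧ (∀ v ∈ T, l.count v = 1) ∧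
    w = (l.map (FreeAlgebra.ι K)).prod}

theorem decomp (x : σ) (f : FreeAlgebra K σ)
    (hf : f ∈ Submodule.span K {w : FreeAlgebra K σ | ∃ l : List σ,
      (∀ v, v ≠ x → l.count v ≤ 1) ∧ w = (l.map (FreeAlgebra.ι K)).prod}) :
    ∃ g : Finset σ →₀ FreeAlgebra K σ, (∀ T, g T ∈ Submodule.span K (WT K x T)) ∧
      ∑ T ∈ g.support, g T = f := by
  have h1 : f ∈ Submodule.span K (⋃ T : Finset σ, WT K x T) := by
    refine Submodule.span_mono ?_ hf
    rintro w ⟨l, hl, rfl⟩
    refine Set.mem_iUnion.mpr ⟨l.toFinset.erase x, l, rfl, fun v hv => ?_, rfl⟩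
    rw [Finset.mem_erase, List.mem_toFinset] at hv
    have a1 := hl v hv.1
    have a2 := List.count_pos_iff.mpr hv.2
    omega
  rw [Submodule.span_iUnion, Submodule.mem_iSup_iff_exists_finsupp] at h1
  obtain ⟨g, hg, hs⟩ := h1
  exact ⟨g, hg, hs⟩

theorem WT_lin {x : σ} {T : Finset σ} {f : FreeAlgebra K σ}
    (hf : f ∈ Submodule.span K (WT K x T)) : LinIn T f := by
  refine Submodule.span_mono ?_ hf
  rintro w ⟨l, _, hl, rfl⟩
  exact ⟨l, hl, rfl⟩

theorem WT_adjoin {x : σ} {T : Finset σ} {f : FreeAlgebra K σ}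
    (hf : f ∈ Submodule.span K (WT K x T)) :
    f ∈ Algebra.adjoin K (FreeAlgebra.ι K '' (insert x (T : Set σ))) := by
  rw [← Subalgebra.mem_toSubmodule]
  refine Submodule.span_le.mpr ?_ hf
  rintro w ⟨l, hT, _, rfl⟩
  rw [SetLike.mem_coe, Subalgebra.mem_toSubmodule]
  refine Subalgebra.list_prod_mem _ fun a ha => ?_
  obtain ⟨v, hv, rfl⟩ := List.mem_map.mp ha
  refine Algebra.subset_adjoin ⟨v, ?_, rfl⟩
  by_cases h : v = x
  · exact Or.inl h
  · right
    rw [← hT]
    simp [h, hv]

/-- A component involving a variable outside `T` vanishes when that variable is zero. -/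
theorem WT_zero {A : Type*} [Ring A] [Algebra K A] {x : σ} {T' : Finset σ} {f : FreeAlgebra K σ}
    (hf : f ∈ Submodule.span K (WT K x T')) (W : σ → A) {v : σ} (hv : v ∈ T') (hW : W v = 0) :
    FreeAlgebra.lift K W f = 0 := by
  refine Submodule.span_induction (p := fun f _ => FreeAlgebra.lift K W f = 0) ?_ ?_ ?_ ?_ hf
  · rintro w ⟨l, hT, _, rfl⟩
    rw [lift_word]
    apply List.prod_eq_zero
    refine List.mem_map.mpr ⟨v, ?_, hW⟩
    rw [← hT] at hv
    simpa using (Finset.mem_erase.mp hv).2
  · exact map_zero _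
  · intro a b _ _ ha hb; rw [map_add, ha, hb, add_zero]
  · intro c a _ ha; rw [map_smul, ha, smul_zero]

/-- Restriction of the variables to `T ∪ {x}`. -/
def res {A : Type*} [Zero A] (x : σ) (T : Finset σ) (W : σ → A) : σ → A :=
  fun v => if v ∈ insert x T then W v else 0

theorem lift_res {A : Type*} [Ring A] [Algebra K A] {x : σ} {f : FreeAlgebra K σ}
    {g : Finset σ →₀ FreeAlgebra K σ} (hg : ∀ T, g T ∈ Submodule.span K (WT K x T))
    (hs : ∑ T ∈ g.support, g T = f) (T : Finset σ) (W : σ → A) (S : A →+ A)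
    (ih : ∀ T', T' ⊂ T → S (FreeAlgebra.lift K W (g T')) = 0) :
    S (FreeAlgebra.lift K (res x T W) f) = S (FreeAlgebra.lift K W (g T)) := by
  have hres : ∀ T', T' ⊆ T → FreeAlgebra.lift K (res x T W) (g T') =
      FreeAlgebra.lift K W (g T') := by
    intro T' hT'
    refine lift_congr (WT_adjoin (hg T')) _ _ fun v hv => ?_
    rw [res, if_pos]
    rcases hv with rfl | hv
    · exact Finset.mem_insert_self _ _
    · exact Finset.mem_insert_of_mem (hT' hv)
  have hx : ∀ T', g T' ≠ 0 → x ∉ T' := by
    intro T' h0 hx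
    apply h0
    have : WT K x T' = ∅ := by
      rw [Set.eq_empty_iff_forall_notMem]
      rintro w ⟨l, hT, _, _⟩
      rw [← hT] at hx
      simp at hx
    have h1 := hg T'
    rw [this, Submodule.span_empty] at h1
    exact (Submodule.mem_bot K).mp h1
  have hterm : ∀ T', T' ≠ T → S (FreeAlgebra.lift K (res x T W) (g T')) = 0 := by
    intro T' hne
    by_cases h0 : g T' = 0
    · rw [h0, map_zero, map_zero]
    by_cases hsub : T' ⊆ T
    · rw [hres T' hsub]
      exact ih T' (Finset.ssubset_iff_subset_ne.mpr ⟨hsub, hne⟩)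
    · obtain ⟨v, hv, hvT⟩ := Finset.not_subset.mp hsub
      rw [WT_zero (hg T') _ hv, map_zero]
      rw [res, if_neg]
      rw [Finset.mem_insert, not_or]
      refine ⟨?_, hvT⟩
      rintro rfl
      exact hx T' h0 hv
  rw [← hs, map_sum, map_sum]
  by_cases hT : T ∈ g.support
  · rw [Finset.sum_eq_single T (fun T' _ h => hterm T' h) (fun h => absurd hT h), hres T subset_rfl]
  · rw [Finset.sum_eq_zero (fun T' h => hterm T' (by rintro rfl; exact hT h))]
    rw [Finsupp.notMem_support_iff.mp hT, map_zero, map_zero]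

/-- Characteristic prime to `n`. -/
theorem comp_zero [Infinite K] (hn4 : 4 ≤ n) (hodd : Odd n) (hnK : (n : K) ≠ 0)
    {f : FreeAlgebra K σ}
    (hpow : ∀ X : σ → Matrix (Fin n) (Fin n) K, ∀ Z : Matrix (Fin n) (Fin n) K,
      FreeAlgebra.lift K X (f ^ n) * Z = Z * FreeAlgebra.lift K X (f ^ n))
    (hchp : ∀ X : σ → Matrix (Fin n) (Fin n) K, ∀ i, 0 < i → i < n →
      (FreeAlgebra.lift K X f).charpoly.coeff i = 0)
    {x : σ} {g : Finset σ →₀ FreeAlgebra K σ} (hg : ∀ T, g T ∈ Submodule.span K (WT K x T))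
    (hs : ∑ T ∈ g.support, g T = f) (T : Finset σ) :
    ∀ X : σ → Matrix (Fin n) (Fin n) K, FreeAlgebra.lift K X (g T) = 0 := by
  induction T using Finset.strongInduction with
  | H T ih =>
    have hval : ∀ {R : Type _} [CommRing R] [Algebra K R] (W : σ → Matrix (Fin n) (Fin n) R),
        FreeAlgebra.lift K W (g T) = FreeAlgebra.lift K (res x T W) f := by
      intro R _ _ W
      exact (lift_res hg hs T W (AddMonoidHom.id _)
        (fun T' hT' => transfer (g T') (ih T' hT') W)).symm
    have hP : Pow n T (g T) := by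
      intro W _
      rw [hval W]
      exact pow_scalar f n hpow _
    have hC : Chp n T (g T) := by
      intro W _ i hi hin
      rw [hval W]
      exact transfer_charpoly f i (fun X => hchp X i hi hin) _
    intro X
    obtain ⟨c, hc⟩ := scalar_of_diag (n := n) (WT_adjoin (hg T)) (fun R _ _ W hW =>
      ⟨0, by rw [value_zero hn4 hodd hnK (WT_lin (hg T)) hP hC W hW, map_zero]⟩) X
    have h1 := transfer_charpoly f (n - 1) (fun X => hchp X _ (by omega) (by omega))
      (res x T X)
    have e : FreeAlgebra.lift K (res x T X) f = FreeAlgebra.lift K X (g T) :=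
      (lift_res hg hs T X (AddMonoidHom.id _)
        (fun T' hT' => ih T' hT' X))
    rw [e, hc] at h1
    have : Nonempty (Fin n) := ⟨⟨0, by omega⟩⟩
    have h2 := Matrix.trace_eq_neg_charpoly_coeff (Matrix.scalar (Fin n) c)
    rw [Fintype.card_fin, h1, neg_zero] at h2
    have h3 : (n : K) * c = 0 := by
      rw [← h2]
      simp [Matrix.trace]
    rcases mul_eq_zero.mp h3 with h4 | h4
    · exact absurd h4 hnK
    · rw [hc, h4, map_zero]

/-- Characteristic `n`. -/
theorem comp_scalar [Infinite K] (hn : n.Prime) (hodd : Odd n) [CharP K n]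
    {f : FreeAlgebra K σ}
    (hpow : ∀ X : σ → Matrix (Fin n) (Fin n) K, ∀ Z : Matrix (Fin n) (Fin n) K,
      FreeAlgebra.lift K X (f ^ n) * Z = Z * FreeAlgebra.lift K X (f ^ n))
    {x : σ} {g : Finset σ →₀ FreeAlgebra K σ} (hg : ∀ T, g T ∈ Submodule.span K (WT K x T))
    (hs : ∑ T ∈ g.support, g T = f) (T : Finset σ) :
    ∀ X : σ → Matrix (Fin n) (Fin n) K, ∃ c, FreeAlgebra.lift K X (g T) =
      Matrix.scalar (Fin n) c := by
  have : Fact n.Prime := ⟨hn⟩
  have : NeZero n := ⟨hn.ne_zero⟩
  induction T using Finset.strongInduction with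
  | H T ih =>
    have hP : Pow n T (g T) := by
      intro W _
      -- the value of `g T` is the value of `f` minus a scalar
      have hsc : ∀ T', T' ⊂ T → ∃ c, FreeAlgebra.lift K W (g T') = Matrix.scalar (Fin n) c := by
        intro T' hT'
        have := pow_scalar (g T') 1 (fun X Z => by
          obtain ⟨c, hc⟩ := ih T' hT' X
          rw [pow_one, hc]
          exact (Matrix.scalar_commute c (fun _ => Commute.all _ _) Z).eq) W
        simpa using this
      have hcomm : ∃ c, FreeAlgebra.lift K (res x T W) f - FreeAlgebra.lift K W (g T) =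
          Matrix.scalar (Fin n) c := by
        have hcc : ∀ i j : Fin n, Commute (Matrix.single i j (1 : BB K σ n))
            (FreeAlgebra.lift K (res x T W) f - FreeAlgebra.lift K W (g T)) := by
          intro i j
          set S : Matrix (Fin n) (Fin n) (BB K σ n) →+ Matrix (Fin n) (Fin n) (BB K σ n) :=
            AddMonoidHom.mulLeft (Matrix.single i j (1 : BB K σ n)) -
              AddMonoidHom.mulRight (Matrix.single i j (1 : BB K σ n)) with hS
          have hSv : ∀ M, S M = Matrix.single i j (1 : BB K σ n) * M -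
              M * Matrix.single i j (1 : BB K σ n) := fun M => rfl
          have h1 := lift_res hg hs T W S (fun T' hT' => by
            obtain ⟨c, hc⟩ := hsc T' hT'
            rw [hSv, hc, sub_eq_zero]
            exact ((Matrix.scalar_commute c (fun _ => Commute.all _ _) _).eq).symm)
          have h2 : S (FreeAlgebra.lift K (res x T W) f - FreeAlgebra.lift K W (g T)) = 0 := by
            rw [map_sub, h1, sub_self]
          rw [hSv] at h2
          exact sub_eq_zero.mp h2
        obtain ⟨c, hc⟩ := Matrix.mem_range_scalar_iff_commute_single'.mpr hcc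
        exact ⟨c, hc.symm⟩
      obtain ⟨c, hc⟩ := hcomm
      obtain ⟨c', hc'⟩ := pow_scalar f n hpow (res x T W)
      have e : FreeAlgebra.lift K W (g T) = FreeAlgebra.lift K (res x T W) f -
          Matrix.scalar (Fin n) c := by rw [← hc, sub_sub_cancel]
      refine ⟨c' - c ^ n, ?_⟩
      rw [e, sub_pow_char_of_commute, hc', map_sub, map_pow]
      exact (Matrix.scalar_commute _ (fun _ => Commute.all _ _) _).symm
    intro X
    exact scalar_of_diag (n := n) (WT_adjoin (hg T)) (fun R _ _ W hW =>
      value_scalar hn hodd (WT_lin (hg T)) hP W hW) X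

end Pool.Agent.TH46.NC
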