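import Mathlib
import Pool.Agent.TH46.NC.Final

/-!
Values of `n`-central polynomials on homogeneous elements of total degree zero.
-/

namespace Pool.Agent.TH46.NC

open Matrix Pool.Agent.H552R3.PC MvPolynomial

variable {K : Type*} [Field K] {σ : Type*} {n : ℕ}

/-- Generic homogeneous matrices. -/
noncomputable def gh (K : Type*) [Field K] {σ : Type*} {n : ℕ} [NeZero n] (g : σ → Fin n) (v : σ) :
    Matrix (Fin n) (Fin n) (MvPolynomial (σ × Fin n) K) :=
  Matrix.of fun i j => if j - i = g v then X (v, i) else 0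

/-- Rotation of the coordinates. -/
noncomputable def rot (K : Type*) [Field K] (σ : Type*) (n : ℕ) [NeZero n] :
    MvPolynomial (σ × Fin n) K →ₐ[K] MvPolynomial (σ × Fin n) K :=
  rename (Prod.map id fun i => i + 1)

theorem gh_rot [NeZero n] (g : σ → Fin n) (v : σ) :
    (gh K g v).submatrix (Equiv.addRight (1 : Fin n)) (Equiv.addRight (1 : Fin n)) =
      (rot K σ n).mapMatrix (gh K g v) := by
  ext1 i j
  simp only [gh, rot, Matrix.submatrix_apply, Matrix.of_apply, AlgHom.mapMatrix_apply,
    Matrix.map_apply, Equiv.coe_addRight, add_sub_add_right_eq_sub]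
  split_ifs
  · simp
  · simp

variable [DecidableEq σ]

/-- The generic value. -/
theorem gh_value [NeZero n] {J : Finset σ} {k : σ → ℕ} {f : FreeAlgebra K σ}
    (hf : HomogIn J k f) (g : σ → Fin n) (hg : ∀ v, v ∉ J → g v = 0)
    (hsum : ∑ v ∈ J, k v • g v = 0)
    (hpow : ∃ c, FreeAlgebra.lift K (gh K g) f ^ n = Matrix.scalar (Fin n) c)
    (hchp : ∀ i, 0 < i → i < n → (FreeAlgebra.lift K (gh K g) f).charpoly.coeff i = 0)
    (hn : 1 < n) (hnK : (n : K) ≠ 0) :
    FreeAlgebra.lift K (gh K g) f = 0 ∨ ∃ (ω : K) (a : MvPolynomial (σ × Fin n) K),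
      ω ^ n = 1 ∧ ω ≠ 1 ∧ FreeAlgebra.lift K (gh K g) f =
        Matrix.diagonal fun i : Fin n => C (ω ^ (i : ℕ)) * a := by
  classical
  set M := FreeAlgebra.lift K (gh K g) f with hM
  have hhom : Hom (id : Fin n → Fin n) 0 M := by
    have h1 := hom_lift hf (h := (id : Fin n → Fin n)) (gh K g) (fun v => -g v)
      (fun v => by
        intro p q hpq
        simp only [gh, Matrix.of_apply] at hpq
        split_ifs at hpq with h
        · rw [← h]; simp
        · exact absurd rfl hpq)
      (fun v hv => by rw [hg v hv, neg_zero])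
    have h2 : ∑ v ∈ J, k v • (-g v) = 0 := by
      simp only [smul_neg, Finset.sum_neg_distrib, hsum, neg_zero]
    rw [h2] at h1
    exact h1
  have hd := diag_of_hom Function.injective_id hhom
  -- rotation
  have hrot : ∀ i : Fin n, M (i + 1) (i + 1) = rot K σ n (M i i) := by
    intro i
    have h1 : M.submatrix (Equiv.addRight (1 : Fin n)) (Equiv.addRight (1 : Fin n)) =
        (rot K σ n).mapMatrix M := by
      rw [hM, ← lift_perm, lift_map]
      congr 2
      funext v
      exact gh_rot g v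
    exact congrFun (congrFun h1 i) i
  obtain ⟨c, hc⟩ := hpow
  have hpn : ∀ p, M p p ^ n = c := by
    intro p
    have e := congrFun (congrFun hc p) p
    rw [hd, Matrix.diagonal_pow] at e
    simpa using e
  have hn0 : 0 < n := by omega
  by_cases h0 : M 0 0 = 0
  · left
    rw [hd]
    ext1 p q
    by_cases e : p = q
    · subst e
      have : M p p ^ n = 0 := by rw [hpn, ← hpn 0, h0, zero_pow hn0.ne']
      rw [Matrix.diagonal_apply_eq, Matrix.zero_apply]
      exact pow_eq_zero_iff hn0.ne' |>.mp this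
    · rw [Matrix.diagonal_apply_ne _ e, Matrix.zero_apply]
  · right
    obtain ⟨ω, hω, hω'⟩ := smul_of_pow_eq hn0 (M 0 0) (M (0 + 1) (0 + 1)) h0 (by rw [hpn, hpn])
    have hall : ∀ m : ℕ, M (Fin.ofNat n m) (Fin.ofNat n m) = C (ω ^ m) * M 0 0 := by
      intro m
      induction m with
      | zero => simp
      | succ m ih =>
        have e1 : Fin.ofNat n (m + 1) = Fin.ofNat n m + 1 := by
          apply Fin.ext
          simp [Fin.val_add]
        rw [e1, hrot, ih, map_mul, ← hrot, hω']
        have e2 : rot K σ n (C (ω ^ m)) = C (ω ^ m) := by simp [rot]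
        rw [e2, ← mul_assoc, ← C_mul, pow_succ]
    refine ⟨ω, M 0 0, hω, ?_, ?_⟩
    · rintro rfl
      have hnB : (n : MvPolynomial (σ × Fin n) K) ≠ 0 := by
        have e : (n : MvPolynomial (σ × Fin n) K) = C (n : K) := by simp
        rw [e]
        intro h
        exact hnK (C_injective _ _ (by rw [h, map_zero]))
      apply h0
      have h01 : (0 : Fin n) ≠ 0 + 1 := by
        rw [zero_add]
        intro h
        have h1 : ((1 : Fin n) : ℕ) = 1 := by
          rw [Fin.val_one', Nat.mod_eq_of_lt hn]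
        rw [← h] at h1
        simp at h1
      refine distinct_of_charpoly hnB (fun p => M p p) ?_ 0 (0 + 1) h01 ?_
      · intro i hi hin
        rw [← hd]
        exact hchp i hi hin
      · show M 0 0 = M (0 + 1) (0 + 1)
        rw [hω', C_1, one_mul]
    · rw [hd]
      congr 1
      funext p
      have := hall p.val
      rwa [Fin.ofNat_val_eq_self] at this

/-- Values on homogeneous elements over a commutative algebra. -/
theorem graded_value [NeZero n] {J : Finset σ} {k : σ → ℕ} {f : FreeAlgebra K σ}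
    (hf : HomogIn J k f) (g : σ → Fin n) (hg : ∀ v, v ∉ J → g v = 0)
    (hsum : ∑ v ∈ J, k v • g v = 0)
    (hpow : ∃ c, FreeAlgebra.lift K (gh K g) f ^ n = Matrix.scalar (Fin n) c)
    (hchp : ∀ i, 0 < i → i < n → (FreeAlgebra.lift K (gh K g) f).charpoly.coeff i = 0)
    (hn : 1 < n) (hnK : (n : K) ≠ 0) :
    (∀ W : σ → Matrix (Fin n) (Fin n) K, (∀ v i j, W v i j ≠ 0 → j - i = g v) →
      FreeAlgebra.lift K W f = 0) ∨
    ∃ ω : K, ω ^ n = 1 ∧ ω ≠ 1 ∧ ∀ W : σ → Matrix (Fin n) (Fin n) K,
      (∀ v i j, W v i j ≠ 0 → j - i = g v) →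
      ∃ a : K, FreeAlgebra.lift K W f = a • Matrix.diagonal fun i : Fin n => ω ^ (i : ℕ) := by
  have hspec : ∀ W : σ → Matrix (Fin n) (Fin n) K, (∀ v i j, W v i j ≠ 0 → j - i = g v) →
      FreeAlgebra.lift K W f = (aeval (fun p : σ × Fin n => W p.1 p.2 (p.2 + g p.1)) :
        MvPolynomial (σ × Fin n) K →ₐ[K] K).mapMatrix (FreeAlgebra.lift K (gh K g) f) := by
    intro W hW
    rw [lift_map]
    congr 2
    funext v
    ext1 i j
    simp only [gh, AlgHom.mapMatrix_apply, Matrix.map_apply, Matrix.of_apply]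
    split_ifs with h
    · rw [aeval_X, ← h]
      simp
    · rw [map_zero]
      by_contra hne
      exact h (hW v i j hne)
  rcases gh_value hf g hg hsum hpow hchp hn hnK with h | ⟨ω, a, h1, h2, h3⟩
  · left
    intro W hW
    rw [hspec W hW, h, map_zero]
  · right
    refine ⟨ω, h1, h2, fun W hW => ⟨aeval (fun p : σ × Fin n => W p.1 p.2 (p.2 + g p.1)) a, ?_⟩⟩
    rw [hspec W hW, h3]
    ext1 i j
    by_cases e : i = j
    · subst e
      simp [mul_comm]
    · simp [e]

end Pool.Agent.TH46.NC
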