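import Mathlib
import Pool.Agent.TH46.NC.Main

/-!
Second order vanishing.
-/

namespace Pool.Agent.TH46.NC

open Matrix Pool.Agent.H552R3.PC

section Partial

variable {K : Type*} [Field K] {σ : Type*} [DecidableEq σ]

/-- The homomorphism whose corner entry is the partial linearization in `v`. -/
noncomputable def dhom (K : Type*) [Field K] {σ : Type*} [DecidableEq σ] (v : σ) :
    FreeAlgebra K σ →ₐ[K] Matrix (Fin 2) (Fin 2) (FreeAlgebra K (Option σ)) :=
  FreeAlgebra.lift K fun u => !![FreeAlgebra.ι K (some u),
    if u = v then FreeAlgebra.ι K none else 0; 0, FreeAlgebra.ι K (some u)]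

/-- The partial linearization in `v`. -/
noncomputable def dpart (v : σ) (f : FreeAlgebra K σ) : FreeAlgebra K (Option σ) :=
  dhom K v f 0 1

theorem dhom_10 (v : σ) (f : FreeAlgebra K σ) : dhom K v f 1 0 = 0 := by
  induction f using FreeAlgebra.induction with
  | grade0 c => rw [AlgHom.commutes]; simp [Matrix.algebraMap_matrix_apply]
  | grade1 i => simp [dhom]
  | mul a b ha hb => rw [map_mul, Matrix.mul_apply, Fin.sum_univ_two, ha, hb]; simp
  | add a b ha hb => rw [map_add, Matrix.add_apply, ha, hb, add_zero]

theorem dhom_diag (v : σ) (f : FreeAlgebra K σ) :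
    dhom K v f 0 0 = FreeAlgebra.lift K (fun u => FreeAlgebra.ι K (some u)) f ∧
    dhom K v f 1 1 = FreeAlgebra.lift K (fun u => FreeAlgebra.ι K (some u)) f := by
  induction f using FreeAlgebra.induction with
  | grade0 c =>
    rw [AlgHom.commutes, AlgHom.commutes]
    simp [Matrix.algebraMap_matrix_apply]
  | grade1 i => simp [dhom]
  | mul a b ha hb =>
    rw [map_mul, map_mul, Matrix.mul_apply, Matrix.mul_apply, Fin.sum_univ_two, Fin.sum_univ_two,
      ha.1, hb.1, ha.2, hb.2, dhom_10, dhom_10]
    simp
  | add a b ha hb =>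
    rw [map_add, map_add, Matrix.add_apply, Matrix.add_apply, ha.1, hb.1, ha.2, hb.2]
    simp

/-- The value of the partial linearization. -/
noncomputable def dv {A : Type*} [Ring A] [Algebra K A] (W : σ → A) (v : σ) (N : A)
    (f : FreeAlgebra K σ) : A :=
  FreeAlgebra.lift K (fun o : Option σ => o.elim N W) (dpart v f)

theorem lift_some {A : Type*} [Ring A] [Algebra K A] (W : σ → A) (N : A) (f : FreeAlgebra K σ) :
    FreeAlgebra.lift K (fun o : Option σ => o.elim N W)
      (FreeAlgebra.lift K (fun u => FreeAlgebra.ι K (some u)) f) = FreeAlgebra.lift K W f := by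
  rw [lift_map]
  congr 2
  funext u
  simp

theorem dv_const {A : Type*} [Ring A] [Algebra K A] (W : σ → A) (v : σ) (N : A) (c : K) :
    dv W v N (algebraMap K (FreeAlgebra K σ) c) = 0 := by
  rw [dv, dpart, AlgHom.commutes]
  simp [Matrix.algebraMap_matrix_apply]

theorem dv_ι {A : Type*} [Ring A] [Algebra K A] (W : σ → A) (v : σ) (N : A) (u : σ) :
    dv W v N (FreeAlgebra.ι K u) = if u = v then N else 0 := by
  rw [dv, dpart, dhom]
  by_cases h : u = v
  · simp [h]
  · simp [h]

theorem dv_mul {A : Type*} [Ring A] [Algebra K A] (W : σ → A) (v : σ) (N : A)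
    (a b : FreeAlgebra K σ) :
    dv W v N (a * b) = FreeAlgebra.lift K W a * dv W v N b + dv W v N a * FreeAlgebra.lift K W b := by
  rw [dv, dpart, map_mul, Matrix.mul_apply, Fin.sum_univ_two, map_add, map_mul, map_mul,
    (dhom_diag v a).1, (dhom_diag v b).2, lift_some, lift_some]
  rfl

theorem dv_add {A : Type*} [Ring A] [Algebra K A] (W : σ → A) (v : σ) (N : A)
    (a b : FreeAlgebra K σ) : dv W v N (a + b) = dv W v N a + dv W v N b := by
  rw [dv, dpart, map_add, Matrix.add_apply, map_add]
  rfl

/-- Matrices with entries in an ideal. -/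
def InI {R : Type*} [CommRing R] {n : ℕ} (I : Ideal R) (M : Matrix (Fin n) (Fin n) R) : Prop :=
  ∀ i j, M i j ∈ I

theorem InI.mul_left {R : Type*} [CommRing R] {n : ℕ} {I : Ideal R} {M : Matrix (Fin n) (Fin n) R}
    (A : Matrix (Fin n) (Fin n) R) (hM : InI I M) : InI I (A * M) := by
  intro i j
  rw [Matrix.mul_apply]
  exact I.sum_mem fun k _ => I.mul_mem_left _ (hM k j)

theorem InI.mul_right {R : Type*} [CommRing R] {n : ℕ} {I : Ideal R} {M : Matrix (Fin n) (Fin n) R}
    (A : Matrix (Fin n) (Fin n) R) (hM : InI I M) : InI I (M * A) := by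
  intro i j
  rw [Matrix.mul_apply]
  exact I.sum_mem fun k _ => I.mul_mem_right _ (hM i k)

theorem InI.mul {R : Type*} [CommRing R] {n : ℕ} {I : Ideal R} {M N : Matrix (Fin n) (Fin n) R}
    (hM : InI I M) (hN : InI I N) : InI (I ^ 2) (M * N) := by
  intro i j
  rw [Matrix.mul_apply, pow_two]
  exact (I * I).sum_mem fun k _ => Ideal.mul_mem_mul (hM i k) (hN k j)

theorem InI.add {R : Type*} [CommRing R] {n : ℕ} {I : Ideal R} {M N : Matrix (Fin n) (Fin n) R}
    (hM : InI I M) (hN : InI I N) : InI I (M + N) := fun i j => I.add_mem (hM i j) (hN i j)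

theorem InI.zero {R : Type*} [CommRing R] {n : ℕ} {I : Ideal R} :
    InI I (0 : Matrix (Fin n) (Fin n) R) := fun _ _ => I.zero_mem

theorem InI.sum {R : Type*} [CommRing R] {n : ℕ} {I : Ideal R} {ι : Type*} (s : Finset ι)
    (M : ι → Matrix (Fin n) (Fin n) R) (hM : ∀ i ∈ s, InI I (M i)) : InI I (∑ i ∈ s, M i) := by
  intro i j
  rw [Matrix.sum_apply]
  exact I.sum_mem fun k hk => hM k hk i j

/-- First order expansion. -/
theorem expansion [Fintype σ] {R : Type*} [CommRing R] [Algebra K R] {n : ℕ} (I : Ideal R)
    (W N : σ → Matrix (Fin n) (Fin n) R) (hN : ∀ v, InI I (N v)) (f : FreeAlgebra K σ) :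
    InI I (∑ v, dv W v (N v) f) ∧
    InI (I ^ 2) (FreeAlgebra.lift K (fun v => W v + N v) f -
      (FreeAlgebra.lift K W f + ∑ v, dv W v (N v) f)) := by
  have hI : I ^ 2 ≤ I := Ideal.pow_le_self two_ne_zero
  induction f using FreeAlgebra.induction with
  | grade0 c =>
    simp only [dv_const, AlgHom.commutes, Finset.sum_const_zero, add_zero, sub_self]
    exact ⟨InI.zero, InI.zero⟩
  | grade1 u =>
    have e : ∑ v, dv W v (N v) (FreeAlgebra.ι K u) = N u := by
      simp only [dv_ι]
      rw [Finset.sum_ite_eq Finset.univ u N]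
      simp
    rw [e]
    refine ⟨hN u, ?_⟩
    simp only [FreeAlgebra.lift_ι_apply, sub_self]
    exact InI.zero
  | mul a b ha hb =>
    obtain ⟨ha1, ha2⟩ := ha
    obtain ⟨hb1, hb2⟩ := hb
    have e : ∑ v, dv W v (N v) (a * b) = FreeAlgebra.lift K W a * (∑ v, dv W v (N v) b) +
        (∑ v, dv W v (N v) a) * FreeAlgebra.lift K W b := by
      simp only [dv_mul]
      rw [Finset.sum_add_distrib, Finset.mul_sum, Finset.sum_mul]
    rw [e]
    refine ⟨(hb1.mul_left _).add (ha1.mul_right _), ?_⟩
    rw [map_mul, map_mul]
    set A := FreeAlgebra.lift K W a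
    set B := FreeAlgebra.lift K W b
    set A' := FreeAlgebra.lift K (fun v => W v + N v) a
    set B' := FreeAlgebra.lift K (fun v => W v + N v) b
    set dA := ∑ v, dv W v (N v) a
    set dB := ∑ v, dv W v (N v) b
    have e2 : A' * B' - (A * B + (A * dB + dA * B)) =
        (A' - (A + dA)) * B' + (A + dA) * (B' - (B + dB)) + dA * dB := by noncomm_ring
    rw [e2]
    exact ((ha2.mul_right _).add (hb2.mul_left _)).add (ha1.mul hb1)
  | add a b ha hb =>
    obtain ⟨ha1, ha2⟩ := ha
    obtain ⟨hb1, hb2⟩ := hb
    have e : ∑ v, dv W v (N v) (a + b) = (∑ v, dv W v (N v) a) + ∑ v, dv W v (N v) b := by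
      simp only [dv_add]
      rw [Finset.sum_add_distrib]
    rw [e]
    refine ⟨ha1.add hb1, ?_⟩
    rw [map_add, map_add]
    set A := FreeAlgebra.lift K W a
    set B := FreeAlgebra.lift K W b
    set A' := FreeAlgebra.lift K (fun v => W v + N v) a
    set B' := FreeAlgebra.lift K (fun v => W v + N v) b
    set dA := ∑ v, dv W v (N v) a
    set dB := ∑ v, dv W v (N v) b
    have e2 : A' + B' - (A + B + (dA + dB)) = (A' - (A + dA)) + (B' - (B + dB)) := by
      noncomm_ring
    rw [e2]
    exact ha2.add hb2

/-- The partial linearization is linear in the new variable and in `J`. -/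
theorem dpart_lin {J : Finset σ} {v : σ} (hv : v ∉ J) {f : FreeAlgebra K σ} (hf : LinIn J f) :
    LinIn (Finset.insertNone J) (dpart v f) := by
  have key : ∀ l : List σ, dhom K v ((l.map (FreeAlgebra.ι K)).prod) 0 1 ∈
      Submodule.span K {w : FreeAlgebra K (Option σ) | ∃ l' : List (Option σ),
        l'.count none = 1 ∧ (∀ j ∈ J, l'.count (some j) = l.count j) ∧
        w = (l'.map (FreeAlgebra.ι K)).prod} := by
    intro l
    induction l with
    | nil => simp
    | cons u l ih =>
      rw [List.map_cons, List.prod_cons, map_mul, Matrix.mul_apply, Fin.sum_univ_two,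
        (dhom_diag v _).1, (dhom_diag v _).2, FreeAlgebra.lift_ι_apply, lift_word]
      refine Submodule.add_mem _ ?_ ?_
      · -- the letter stays
        have hmap : ∀ w ∈ Submodule.span K {w : FreeAlgebra K (Option σ) | ∃ l' : List (Option σ),
            l'.count none = 1 ∧ (∀ j ∈ J, l'.count (some j) = l.count j) ∧
            w = (l'.map (FreeAlgebra.ι K)).prod},
            FreeAlgebra.ι K (some u) * w ∈ Submodule.span K {w : FreeAlgebra K (Option σ) |
              ∃ l' : List (Option σ), l'.count none = 1 ∧
              (∀ j ∈ J, l'.count (some j) = (u :: l).count j) ∧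
              w = (l'.map (FreeAlgebra.ι K)).prod} := by
          intro w hw
          induction hw using Submodule.span_induction with
          | mem w hw =>
            obtain ⟨l', h1, h2, rfl⟩ := hw
            refine Submodule.subset_span ⟨some u :: l', ?_, ?_, ?_⟩
            · rw [List.count_cons_of_ne (by simp), h1]
            · intro j hj
              rw [List.count_cons, List.count_cons, h2 j hj]
              simp
            · rw [List.map_cons, List.prod_cons]
          | zero => rw [mul_zero]; exact Submodule.zero_mem _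
          | add a b _ _ ha hb => rw [mul_add]; exact Submodule.add_mem _ ha hb
          | smul c a _ ha => rw [mul_smul_comm]; exact Submodule.smul_mem _ c ha
        exact hmap _ ih
      · -- the letter is replaced
        have e : dhom K v (FreeAlgebra.ι K u) 0 1 = if u = v then FreeAlgebra.ι K none else 0 := by
          simp [dhom]
        rw [e]
        split_ifs with h
        · subst h
          refine Submodule.subset_span ⟨none :: l.map some, ?_, ?_, ?_⟩
          · rw [List.count_cons_self, List.count_eq_zero_of_not_mem (by simp)]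
          · intro j hj
            rw [List.count_cons_of_ne (by simp), List.count_cons_of_ne
              (by rintro rfl; exact hv hj)]
            exact List.count_map_of_injective l some (Option.some_injective σ) j
          · rw [List.map_cons, List.prod_cons, List.map_map]
            rfl
        · rw [zero_mul]; exact Submodule.zero_mem _
  refine Submodule.span_induction (p := fun f _ => LinIn (Finset.insertNone J) (dpart v f))
    ?_ ?_ ?_ ?_ hf
  · rintro w ⟨l, hl, rfl⟩
    refine Submodule.span_mono ?_ (key l)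
    rintro w ⟨l', h1, h2, rfl⟩
    have hb : (instBEqOfDecidableEq : BEq (Option σ)) = Option.instBEq :=
      lawful_beq_subsingleton _ _
    refine ⟨l', fun o ho => ?_, rfl⟩
    rw [hb]
    cases o with
    | none => exact h1
    | some j =>
      rw [Finset.some_mem_insertNone] at ho
      rw [h2 j ho]; exact hl j ho
  · have : dpart v (0 : FreeAlgebra K σ) = 0 := by simp [dpart]
    rw [this]; exact Submodule.zero_mem _
  · intro a b _ _ ha hb
    have : dpart v (a + b) = dpart v a + dpart v b := by simp [dpart]
    rw [this]; exact Submodule.add_mem _ ha hb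
  · intro c a _ ha
    have : dpart v (c • a) = c • dpart v a := by simp [dpart]
    rw [this]; exact Submodule.smul_mem _ c ha

end Partial

section Scale

variable {R : Type*} [CommRing R] [IsDomain R] {n : ℕ}

theorem coeff_charpoly_smul (c : R) (hc : c ≠ 0) (A : Matrix (Fin n) (Fin n) R) (i : ℕ)
    (h : (c • A).charpoly.coeff i = 0) : A.charpoly.coeff i = 0 := by
  have h1 : (c • A).charpoly.comp (Polynomial.C c * Polynomial.X) =
      Polynomial.C (c ^ n) * A.charpoly := by
    have e1 : (c • A).charpoly.comp (Polynomial.C c * Polynomial.X) =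
        Polynomial.compRingHom (Polynomial.C c * Polynomial.X) (c • A).charpoly := rfl
    rw [e1, Matrix.charpoly, RingHom.map_det, Matrix.charpoly]
    have e2 : (Polynomial.compRingHom (Polynomial.C c * Polynomial.X)).mapMatrix
        (c • A).charmatrix = Polynomial.C c • A.charmatrix := by
      ext1 a b
      rw [RingHom.mapMatrix_apply, Matrix.map_apply, Matrix.smul_apply]
      by_cases hab : a = b
      · subst hab
        simp [Matrix.charmatrix_apply_eq, mul_sub]
      · simp [Matrix.charmatrix_apply_ne _ _ _ hab]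
    rw [e2, Matrix.det_smul, Fintype.card_fin, ← map_pow]
  have h2 := congrArg (fun p => Polynomial.coeff p i) h1
  simp only [Polynomial.coeff_C_mul] at h2
  rw [Polynomial.comp_C_mul_X_coeff, h, zero_mul] at h2
  rcases mul_eq_zero.mp h2.symm with h3 | h3
  · exact absurd h3 (pow_ne_zero _ hc)
  · exact h3

theorem pow_scalar_smul (c : R) (hc : c ≠ 0) (A : Matrix (Fin n) (Fin n) R) (ν : ℕ)
    (h : ∃ d, (c • A) ^ ν = Matrix.scalar (Fin n) d) : ∃ d, A ^ ν = Matrix.scalar (Fin n) d := by
  obtain ⟨d, hd⟩ := h
  have hcomm : ∀ i j : Fin n, Commute (Matrix.single i j (1 : R)) (A ^ ν) := by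
    intro i j
    have h1 : Matrix.single i j (1 : R) * (c • A) ^ ν = (c • A) ^ ν * Matrix.single i j 1 := by
      rw [hd]
      exact ((Matrix.scalar_commute d (fun _ => Commute.all _ _) _).eq).symm
    rw [smul_pow, Matrix.mul_smul, Matrix.smul_mul] at h1
    exact smul_right_injective _ (pow_ne_zero ν hc) h1
  obtain ⟨e, he⟩ := Matrix.mem_range_scalar_iff_commute_single'.mpr hcomm
  exact ⟨e, he.symm⟩

end Scale

end Pool.Agent.TH46.NC
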