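import Mathlib
import Pool.Agent.TH46.NC.Second

/-!
Second order vanishing: the theorem.
-/

namespace Pool.Agent.TH46.NC

open Matrix Pool.Agent.H552R3.PC

universe u

variable {K : Type u} [Field K] {σ : Type*} [DecidableEq σ] {n : ℕ}

theorem dv_zero {A : Type*} [Ring A] [Algebra K A] (W : σ → A) (v : σ) (f : FreeAlgebra K σ) :
    dv W v 0 f = 0 := by
  induction f using FreeAlgebra.induction with
  | grade0 c => exact dv_const _ _ _ _
  | grade1 i => rw [dv_ι]; split_ifs <;> rfl
  | mul a b ha hb => rw [dv_mul, ha, hb, mul_zero, zero_mul, add_zero]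
  | add a b ha hb => rw [dv_add, ha, hb, add_zero]

theorem dv_map {R S : Type*} [CommRing R] [Algebra K R] [CommRing S] [Algebra K S]
    (φ : R →ₐ[K] S) (W : σ → Matrix (Fin n) (Fin n) R) (v : σ) (N : Matrix (Fin n) (Fin n) R)
    (f : FreeAlgebra K σ) :
    φ.mapMatrix (dv W v N f) = dv (fun v => φ.mapMatrix (W v)) v (φ.mapMatrix N) f := by
  rw [dv, lift_map, dv]
  congr 2
  funext o
  cases o <;> rfl

theorem dv_smul {R : Type*} [CommRing R] [Algebra K R] (W : σ → Matrix (Fin n) (Fin n) R)
    (v : σ) (c : R) (N : Matrix (Fin n) (Fin n) R) (f : FreeAlgebra K σ) :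
    dv W v (c • N) f = c • dv W v N f := by
  induction f using FreeAlgebra.induction with
  | grade0 a => rw [dv_const, dv_const, smul_zero]
  | grade1 i => rw [dv_ι, dv_ι]; split_ifs <;> simp
  | mul a b ha hb =>
    rw [dv_mul, dv_mul, ha, hb, smul_add, Matrix.mul_smul, Matrix.smul_mul]
  | add a b ha hb => rw [dv_add, dv_add, ha, hb, smul_add]

/-- The value of `f` at `W + X N_v` when `f` vanishes at `W`. -/
theorem dual_value [Fintype σ] {R : Type*} [CommRing R] [Algebra K R] (f : FreeAlgebra K σ)
    (W : σ → Matrix (Fin n) (Fin n) R) (v : σ) (N : Matrix (Fin n) (Fin n) R)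
    (h0 : FreeAlgebra.lift K (fun u => (Algebra.ofId R (Polynomial R)).mapMatrix (W u)) f = 0) :
    ∃ H : Matrix (Fin n) (Fin n) (Polynomial R),
      FreeAlgebra.lift K (fun u => (Algebra.ofId R (Polynomial R)).mapMatrix (W u) +
        if u = v then (Polynomial.X : Polynomial R) • (Algebra.ofId R (Polynomial R)).mapMatrix N
        else 0) f =
      (Polynomial.X : Polynomial R) • ((Algebra.ofId R (Polynomial R)).mapMatrix (dv W v N f) +
        (Polynomial.X : Polynomial R) • H) := by
  set I : Ideal (Polynomial R) := Ideal.span {Polynomial.X} with hI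
  set Φ := Algebra.ofId R (Polynomial R) with hΦ
  set WW : σ → Matrix (Fin n) (Fin n) (Polynomial R) := fun u => Φ.mapMatrix (W u) with hWW
  set NN : σ → Matrix (Fin n) (Fin n) (Polynomial R) := fun u =>
    if u = v then (Polynomial.X : Polynomial R) • Φ.mapMatrix N else 0 with hNN
  have hNI : ∀ u, InI I (NN u) := by
    intro u i j
    simp only [hNN]
    split_ifs
    · rw [Matrix.smul_apply, smul_eq_mul]
      exact I.mul_mem_right _ (Ideal.subset_span rfl)
    · exact I.zero_mem
  obtain ⟨-, h2⟩ := expansion I WW NN hNI f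
  have hsum : ∑ u, dv WW u (NN u) f = (Polynomial.X : Polynomial R) •
      Φ.mapMatrix (dv W v N f) := by
    rw [Finset.sum_eq_single v]
    · simp only [hNN, if_true]
      rw [dv_smul]
      congr 1
      exact (dv_map ((Φ.restrictScalars K)) W v N f).symm
    · intro u _ hu
      simp only [hNN, if_neg hu]
      exact dv_zero _ _ _
    · intro h; exact absurd (Finset.mem_univ v) h
  rw [hsum, h0, zero_add] at h2
  have hdiv : ∀ i j, ∃ c, (FreeAlgebra.lift K (fun u => WW u + NN u) f -
      (Polynomial.X : Polynomial R) • Φ.mapMatrix (dv W v N f)) i j = Polynomial.X ^ 2 * c := by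
    intro i j
    have := h2 i j
    rw [hI, Ideal.span_singleton_pow, Ideal.mem_span_singleton] at this
    exact this
  choose H hH using hdiv
  refine ⟨Matrix.of H, ?_⟩
  ext1 i j
  have e := hH i j
  rw [Matrix.sub_apply, sub_eq_iff_eq_add] at e
  rw [e]
  simp only [Matrix.smul_apply, Matrix.add_apply, Matrix.of_apply, smul_eq_mul]
  ring

/-- The hypotheses on `f` over all commutative algebras. -/
structure AllR (n : ℕ) (f : FreeAlgebra K σ) : Prop where
  pow : ∀ X : σ → Matrix (Fin n) (Fin n) K, ∀ Z : Matrix (Fin n) (Fin n) K,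
      FreeAlgebra.lift K X (f ^ n) * Z = Z * FreeAlgebra.lift K X (f ^ n)
  chp : ∀ X : σ → Matrix (Fin n) (Fin n) K, ∀ i, 0 < i → i < n →
      (FreeAlgebra.lift K X f).charpoly.coeff i = 0

omit [DecidableEq σ] in
theorem AllR.Pow [DecidableEq σ] [Infinite K] {f : FreeAlgebra K σ} (h : AllR n f)
    (J : Finset σ) : Pow n J f := fun W _ => pow_scalar f n h.pow W

omit [DecidableEq σ] in
theorem AllR.Chp [DecidableEq σ] [Infinite K] {f : FreeAlgebra K σ} (h : AllR n f)
    (J : Finset σ) : Chp n J f := fun W _ i hi hin =>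
      transfer_charpoly f i (fun X => h.chp X i hi hin) W

theorem partial_hyp [Infinite K] [Fintype σ] (hn4 : 4 ≤ n) (hodd : Odd n) (hnK : (n : K) ≠ 0)
    {J : Finset σ} {f : FreeAlgebra K σ} (hf : LinIn J f) (hall : AllR n f) {v : σ}
    {B : Type*} [CommRing B] [IsDomain B] [Algebra K B]
    (V : Option σ → Matrix (Fin n) (Fin n) B)
    (hV : ∀ o, o ∉ Finset.insertNone J → (V o).IsDiag) :
      (∃ c, FreeAlgebra.lift K V (dpart v f) ^ n = Matrix.scalar (Fin n) c) ∧
      ∀ i, 0 < i → i < n → (FreeAlgebra.lift K V (dpart v f)).charpoly.coeff i = 0 := by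
  classical
  have hdvV : FreeAlgebra.lift K V (dpart v f) = dv (fun u => V (some u)) v (V none) f := by
    rw [dv]
    congr 2
    funext o
    cases o <;> rfl
  have hVd : ∀ u, u ∉ J → (V (some u)).IsDiag := by
    intro u hu
    refine hV (some u) ?_
    rw [Finset.some_mem_insertNone]
    exact hu
  obtain ⟨H, hH⟩ := dual_value f (fun u => V (some u)) v (V none) (by
    refine value_zero hn4 hodd hnK hf (hall.Pow J) (hall.Chp J) _ (fun u hu => ?_)
    intro i j hij
    rw [AlgHom.mapMatrix_apply, Matrix.map_apply, hVd u hu hij, map_zero])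
  set Y := FreeAlgebra.lift K (fun u => (Algebra.ofId B (Polynomial B)).mapMatrix (V (some u)) +
      if u = v then (Polynomial.X : Polynomial B) •
        (Algebra.ofId B (Polynomial B)).mapMatrix (V none)
      else 0) f with hY
  set A := (Algebra.ofId B (Polynomial B)).mapMatrix (dv (fun u => V (some u)) v (V none) f) +
      (Polynomial.X : Polynomial B) • H with hA
  have hA0 : A.map (Polynomial.evalRingHom (0 : B)) = FreeAlgebra.lift K V (dpart v f) := by
    rw [hdvV]
    ext1 i j
    rw [hA]
    simp only [Matrix.map_apply, Matrix.add_apply, Matrix.smul_apply, smul_eq_mul,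
      AlgHom.mapMatrix_apply, Polynomial.coe_evalRingHom, Polynomial.eval_add,
      Polynomial.eval_mul, Polynomial.eval_X, zero_mul, add_zero, Algebra.ofId_apply,
      Polynomial.algebraMap_eq, Polynomial.eval_C]
  constructor
  · obtain ⟨c, hc⟩ := pow_scalar f n hall.pow
      (fun u => (Algebra.ofId B (Polynomial B)).mapMatrix (V (some u)) +
        if u = v then (Polynomial.X : Polynomial B) •
          (Algebra.ofId B (Polynomial B)).mapMatrix (V none)
        else 0)
    rw [← hY, hH] at hc
    obtain ⟨d, hd⟩ := pow_scalar_smul (Polynomial.X : Polynomial B) Polynomial.X_ne_zero A n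
      ⟨c, hc⟩
    refine ⟨Polynomial.eval 0 d, ?_⟩
    rw [← hA0]
    have e1 : (A.map (Polynomial.evalRingHom (0 : B))) ^ n =
        (Polynomial.evalRingHom (0 : B)).mapMatrix (A ^ n) := by
      rw [map_pow]; rfl
    rw [e1, hd]
    ext1 i j
    by_cases hij : i = j
    · subst hij; simp
    · simp [hij]
  · intro i hi hin
    have h1 := transfer_charpoly f i (fun X => hall.chp X i hi hin)
      (fun u => (Algebra.ofId B (Polynomial B)).mapMatrix (V (some u)) +
        if u = v then (Polynomial.X : Polynomial B) •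
          (Algebra.ofId B (Polynomial B)).mapMatrix (V none)
        else 0)
    rw [← hY, hH] at h1
    have h2 := coeff_charpoly_smul (Polynomial.X : Polynomial B) Polynomial.X_ne_zero A i h1
    rw [← hA0, Matrix.charpoly_map, Polynomial.coeff_map, h2, map_zero]

theorem partial_zero [Infinite K] [Fintype σ] (hn4 : 4 ≤ n) (hodd : Odd n) (hnK : (n : K) ≠ 0)
    {J : Finset σ} {f : FreeAlgebra K σ} (hf : LinIn J f) (hall : AllR n f) {v : σ} (hv : v ∉ J)
    {R : Type*} [CommRing R] [Algebra K R] (W : σ → Matrix (Fin n) (Fin n) R)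
    (hW : ∀ u, u ∉ J → (W u).IsDiag) (N : Matrix (Fin n) (Fin n) R) :
    dv W v N f = 0 := by
  have hg := dpart_lin hv hf
  have h := value_zero hn4 hodd hnK hg
    (fun V hV => (partial_hyp hn4 hodd hnK hf hall V hV).1)
    (fun V hV => (partial_hyp hn4 hodd hnK hf hall V hV).2)
    (fun o : Option σ => o.elim N W) (fun o ho => by
      cases o with
      | none => exact absurd (Finset.none_mem_insertNone) ho
      | some u =>
        rw [Finset.some_mem_insertNone] at ho
        exact hW u ho)
  exact h

/-- Second order vanishing. -/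
theorem second_order [Infinite K] [Fintype σ] (hn4 : 4 ≤ n) (hodd : Odd n) (hnK : (n : K) ≠ 0)
    {J : Finset σ} {f : FreeAlgebra K σ} (hf : LinIn J f) (hall : AllR n f)
    {R : Type*} [CommRing R] [Algebra K R] (I : Ideal R) (X : σ → Matrix (Fin n) (Fin n) R)
    (hX : ∀ v, v ∉ J → ∀ i j, i ≠ j → X v i j ∈ I) (i j : Fin n) :
    FreeAlgebra.lift K X f i j ∈ I ^ 2 := by
  set W : σ → Matrix (Fin n) (Fin n) R := fun v =>
    if v ∈ J then X v else Matrix.diagonal fun i => X v i i with hW
  set N : σ → Matrix (Fin n) (Fin n) R := fun v => X v - W v with hN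
  have hWN : X = fun v => W v + N v := by
    funext v
    simp only [hN, add_sub_cancel]
  have hNI : ∀ v, InI I (N v) := by
    intro v a b
    simp only [hN, hW]
    split_ifs with h
    · simp
    · by_cases e : a = b
      · subst e; simp
      · rw [Matrix.sub_apply, Matrix.diagonal_apply_ne _ e, sub_zero]
        exact hX v h a b e
  have hWd : ∀ u, u ∉ J → (W u).IsDiag := by
    intro u hu
    simp only [hW, if_neg hu]
    exact Matrix.isDiag_diagonal _
  have h1 := (expansion I W N hNI f).2 i j
  rw [value_zero hn4 hodd hnK hf (hall.Pow J) (hall.Chp J) W hWd, zero_add, ← hWN] at h1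
  have h2 : ∑ v, dv W v (N v) f = 0 := by
    refine Finset.sum_eq_zero fun v _ => ?_
    by_cases hv : v ∈ J
    · have : N v = 0 := by simp only [hN, hW, if_pos hv, sub_self]
      rw [this, dv_zero]
    · exact partial_zero hn4 hodd hnK hf hall hv W hWd (N v)
  rw [h2, sub_zero] at h1
  exact h1

end Pool.Agent.TH46.NC
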