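import Mathlib
import Pool.Agent.TH46.NC.Second2

/-!
Quadratic dependence on a variable; first order vanishing without finiteness of the set of
variables.
-/

namespace Pool.Agent.TH46.NC

open Matrix Pool.Agent.H552R3.PC

universe u

variable {K : Type u} [Field K] {σ : Type*} [DecidableEq σ] {n : ℕ}

section Words

variable {R : Type*} [CommRing R] [Algebra K R]

/-- The word of a list of letters. -/
noncomputable abbrev wd (K : Type u) [Field K] {σ : Type*} (l : List σ) : FreeAlgebra K σ :=
  (l.map (FreeAlgebra.ι K)).prod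

theorem wd_cons (u : σ) (l : List σ) : wd K (u :: l) = FreeAlgebra.ι K u * wd K l := by
  rw [wd, List.map_cons, List.prod_cons]

theorem lift_cons {A : Type*} [Ring A] [Algebra K A] (W : σ → A) (u : σ) (l : List σ) :
    FreeAlgebra.lift K W (wd K (u :: l)) = W u * FreeAlgebra.lift K W (wd K l) := by
  rw [wd_cons, map_mul, FreeAlgebra.lift_ι_apply]

theorem dv_cons {A : Type*} [Ring A] [Algebra K A] (W : σ → A) (v : σ) (N : A) (u : σ)
    (l : List σ) :
    dv W v N (wd K (u :: l)) = W u * dv W v N (wd K l) +
      (if u = v then N else 0) * FreeAlgebra.lift K W (wd K l) := by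
  rw [wd_cons, dv_mul, dv_ι, FreeAlgebra.lift_ι_apply]

theorem dv_nil {A : Type*} [Ring A] [Algebra K A] (W : σ → A) (v : σ) (N : A) :
    dv W v N (wd K ([] : List σ)) = 0 := by
  have : wd K ([] : List σ) = algebraMap K (FreeAlgebra K σ) 1 := by simp [wd]
  rw [this]; exact dv_const _ _ _ _

theorem dv_word_zero {A : Type*} [Ring A] [Algebra K A] (W : σ → A) (v : σ) (N : A)
    (l : List σ) (hl : l.count v = 0) : dv W v N (wd K l) = 0 := by
  induction l with
  | nil => exact dv_nil _ _ _
  | cons u l ih =>
    have hu : u ≠ v := by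
      rintro rfl; rw [List.count_cons_self] at hl; omega
    rw [List.count_cons_of_ne hu] at hl
    rw [dv_cons, ih hl, if_neg hu, mul_zero, zero_mul, add_zero]

theorem lift_word_update {A : Type*} [Ring A] [Algebra K A] (W : σ → A) (v : σ) (M : A)
    (l : List σ) (hl : l.count v = 0) :
    FreeAlgebra.lift K (Function.update W v M) (wd K l) = FreeAlgebra.lift K W (wd K l) := by
  induction l with
  | nil => simp [wd]
  | cons u l ih =>
    have hu : u ≠ v := by
      rintro rfl; rw [List.count_cons_self] at hl; omega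
    rw [List.count_cons_of_ne hu] at hl
    rw [lift_cons, lift_cons, ih hl, Function.update_of_ne hu]

/-- Words in which `v` occurs once. -/
theorem lin_word {A : Type*} [Ring A] [Algebra R A] [Algebra K A] [IsScalarTower K R A]
    (W : σ → A) (v : σ) (l : List σ) (hl : l.count v = 1) :
    ∃ ℓ : A →ₗ[R] A, (∀ M, FreeAlgebra.lift K (Function.update W v M) (wd K l) = ℓ M) ∧
      ∀ M N, dv (Function.update W v M) v N (wd K l) = ℓ N := by
  induction l with
  | nil => simp at hl
  | cons u l ih =>
    by_cases hu : u = v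
    · subst hu
      rw [List.count_cons_self] at hl
      have h0 : l.count u = 0 := by omega
      refine ⟨LinearMap.mulRight R (FreeAlgebra.lift K W (wd K l)), fun M => ?_, fun M N => ?_⟩
      · rw [lift_cons, Function.update_self, lift_word_update _ _ _ _ h0]
        rfl
      · rw [dv_cons, dv_word_zero _ _ _ _ h0, mul_zero, zero_add, if_pos rfl,
          lift_word_update _ _ _ _ h0]
        rfl
    · rw [List.count_cons_of_ne hu] at hl
      obtain ⟨ℓ, h1, h2⟩ := ih hl
      refine ⟨(LinearMap.mulLeft R (W u)).comp ℓ, fun M => ?_, fun M N => ?_⟩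
      · rw [lift_cons, Function.update_of_ne hu, h1]
        rfl
      · rw [dv_cons, Function.update_of_ne hu, h2, if_neg hu, zero_mul, add_zero]
        rfl

/-- Words in which `v` occurs twice. -/
theorem quad_word {A : Type*} [Ring A] [Algebra R A] [Algebra K A] [IsScalarTower K R A]
    (W : σ → A) (v : σ) (l : List σ) (hl : l.count v = 2) :
    ∃ β : A →ₗ[R] A →ₗ[R] A,
      (∀ M, FreeAlgebra.lift K (Function.update W v M) (wd K l) = β M M) ∧
      ∀ M N, dv (Function.update W v M) v N (wd K l) = β M N + β N M := by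
  induction l with
  | nil => simp at hl
  | cons u l ih =>
    by_cases hu : u = v
    · subst hu
      rw [List.count_cons_self] at hl
      obtain ⟨ℓ, h1, h2⟩ := lin_word (K := K) (R := R) (A := A) W u l (by omega)
      refine ⟨(LinearMap.mul R A).compl₂ ℓ, fun M => ?_, fun M N => ?_⟩
      · rw [lift_cons, Function.update_self, h1]
        rfl
      · rw [dv_cons, h2, if_pos rfl, h1, Function.update_self]
        rfl
    · rw [List.count_cons_of_ne hu] at hl
      obtain ⟨β, h1, h2⟩ := ih hl
      refine ⟨β.compr₂ (LinearMap.mulLeft R (W u)), fun M => ?_, fun M N => ?_⟩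
      · rw [lift_cons, Function.update_of_ne hu, h1]
        rfl
      · rw [dv_cons, Function.update_of_ne hu, h2, if_neg hu, zero_mul, add_zero, mul_add]
        rfl

/-- Polynomials quadratic in `v`. -/
theorem quad_lift {A : Type*} [Ring A] [Algebra R A] [Algebra K A] [IsScalarTower K R A]
    {J : Finset σ} {k : σ → ℕ} {f : FreeAlgebra K σ} (hf : HomogIn J k f) {v : σ} (hv : v ∈ J)
    (hk : k v = 2) (W : σ → A) :
    ∃ β : A →ₗ[R] A →ₗ[R] A,
      (∀ M, FreeAlgebra.lift K (Function.update W v M) f = β M M) ∧
      ∀ M N, dv (Function.update W v M) v N f = β M N + β N M := by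
  refine Submodule.span_induction (p := fun f _ => ∃ β : A →ₗ[R] A →ₗ[R] A,
      (∀ M, FreeAlgebra.lift K (Function.update W v M) f = β M M) ∧
      ∀ M N, dv (Function.update W v M) v N f = β M N + β N M) ?_ ?_ ?_ ?_ hf
  · rintro w ⟨l, hl, rfl⟩
    exact quad_word W v l (by rw [hl v hv, hk])
  · refine ⟨0, fun M => by simp, fun M N => ?_⟩
    have h0 : (0 : FreeAlgebra K σ) = algebraMap K (FreeAlgebra K σ) 0 := by simp
    rw [h0, dv_const]
    simp
  · rintro a b _ _ ⟨βa, ha, ha'⟩ ⟨βb, hb, hb'⟩
    refine ⟨βa + βb, fun M => by rw [map_add, ha, hb]; rfl, fun M N => ?_⟩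
    rw [dv_add, ha', hb']
    simp only [LinearMap.add_apply]
    abel
  · rintro c a _ ⟨βa, ha, ha'⟩
    refine ⟨(algebraMap K R c) • βa, fun M => ?_, fun M N => ?_⟩
    · rw [map_smul, ha, LinearMap.smul_apply, LinearMap.smul_apply, algebraMap_smul]
    · have e : c • a = algebraMap K (FreeAlgebra K σ) c * a := by rw [Algebra.smul_def]
      rw [e, dv_mul, dv_const, zero_mul, add_zero, AlgHom.commutes, ← Algebra.smul_def, ha']
      simp only [LinearMap.smul_apply, algebraMap_smul, smul_add]

/-- The quadratic map given by a polynomial quadratic in `v`. -/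
theorem quadratic {A : Type*} [Ring A] [Algebra R A] [Algebra K A] [IsScalarTower K R A]
    {J : Finset σ} {k : σ → ℕ} {f : FreeAlgebra K σ} (hf : HomogIn J k f) {v : σ} (hv : v ∈ J)
    (hk : k v = 2) (W : σ → A) :
    ∃ Q : QuadraticMap R A A, (∀ M, FreeAlgebra.lift K (Function.update W v M) f = Q M) ∧
      ∀ M N, dv (Function.update W v M) v N f = QuadraticMap.polar Q M N := by
  obtain ⟨β, h1, h2⟩ := quad_lift (K := K) (R := R) (A := A) hf hv hk W
  refine ⟨LinearMap.BilinMap.toQuadraticMap β, fun M => h1 M, fun M N => ?_⟩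
  rw [h2, LinearMap.BilinMap.polar_toQuadraticMap]

end Words

section First

/-- First order expansion in one variable. -/
theorem expansion1 {R : Type*} [CommRing R] [Algebra K R] (I : Ideal R)
    (W : σ → Matrix (Fin n) (Fin n) R) (v : σ) (N : Matrix (Fin n) (Fin n) R) (hN : InI I N)
    (f : FreeAlgebra K σ) :
    InI I (dv W v N f) ∧
    InI (I ^ 2) (FreeAlgebra.lift K (fun u => W u + if u = v then N else 0) f -
      (FreeAlgebra.lift K W f + dv W v N f)) := by
  induction f using FreeAlgebra.induction with
  | grade0 c =>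
    simp only [dv_const, AlgHom.commutes, add_zero, sub_self]
    exact ⟨InI.zero, InI.zero⟩
  | grade1 u =>
    rw [dv_ι]
    refine ⟨?_, ?_⟩
    · split_ifs
      · exact hN
      · exact InI.zero
    · simp only [FreeAlgebra.lift_ι_apply, sub_self]
      exact InI.zero
  | mul a b ha hb =>
    obtain ⟨ha1, ha2⟩ := ha
    obtain ⟨hb1, hb2⟩ := hb
    rw [dv_mul]
    refine ⟨(hb1.mul_left _).add (ha1.mul_right _), ?_⟩
    rw [map_mul, map_mul]
    set A := FreeAlgebra.lift K W a
    set B := FreeAlgebra.lift K W b
    set A' := FreeAlgebra.lift K (fun u => W u + if u = v then N else 0) a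
    set B' := FreeAlgebra.lift K (fun u => W u + if u = v then N else 0) b
    set dA := dv W v N a
    set dB := dv W v N b
    have e2 : A' * B' - (A * B + (A * dB + dA * B)) =
        (A' - (A + dA)) * B' + (A + dA) * (B' - (B + dB)) + dA * dB := by noncomm_ring
    rw [e2]
    exact ((ha2.mul_right _).add (hb2.mul_left _)).add (ha1.mul hb1)
  | add a b ha hb =>
    obtain ⟨ha1, ha2⟩ := ha
    obtain ⟨hb1, hb2⟩ := hb
    rw [dv_add]
    refine ⟨ha1.add hb1, ?_⟩
    rw [map_add, map_add]
    set A := FreeAlgebra.lift K W a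
    set B := FreeAlgebra.lift K W b
    set A' := FreeAlgebra.lift K (fun u => W u + if u = v then N else 0) a
    set B' := FreeAlgebra.lift K (fun u => W u + if u = v then N else 0) b
    set dA := dv W v N a
    set dB := dv W v N b
    have e2 : A' + B' - (A + B + (dA + dB)) = (A' - (A + dA)) + (B' - (B + dB)) := by
      noncomm_ring
    rw [e2]
    exact ha2.add hb2

theorem dual_value1 {R : Type*} [CommRing R] [Algebra K R] (f : FreeAlgebra K σ)
    (W : σ → Matrix (Fin n) (Fin n) R) (v : σ) (N : Matrix (Fin n) (Fin n) R)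
    (h0 : FreeAlgebra.lift K (fun u => (Algebra.ofId R (Polynomial R)).mapMatrix (W u)) f = 0) :
    ∃ H : Matrix (Fin n) (Fin n) (Polynomial R),
      FreeAlgebra.lift K (fun u => (Algebra.ofId R (Polynomial R)).mapMatrix (W u) +
        if u = v then (Polynomial.X : Polynomial R) • (Algebra.ofId R (Polynomial R)).mapMatrix N
        else 0) f =
      (Polynomial.X : Polynomial R) • ((Algebra.ofId R (Polynomial R)).mapMatrix (dv W v N f) +
        (Polynomial.X : Polynomial R) • H) := by
  set I : Ideal (Polynomial R) := Ideal.span {Polynomial.X} with hI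
  set Φ := Algebra.ofId R (Polynomial R) with hΦ
  set WW : σ → Matrix (Fin n) (Fin n) (Polynomial R) := fun u => Φ.mapMatrix (W u) with hWW
  have hNI : InI I ((Polynomial.X : Polynomial R) • Φ.mapMatrix N) := by
    intro i j
    rw [Matrix.smul_apply, smul_eq_mul]
    exact I.mul_mem_right _ (Ideal.subset_span rfl)
  obtain ⟨-, h2⟩ := expansion1 I WW v ((Polynomial.X : Polynomial R) • Φ.mapMatrix N) hNI f
  have hsum : dv WW v ((Polynomial.X : Polynomial R) • Φ.mapMatrix N) f =
      (Polynomial.X : Polynomial R) • Φ.mapMatrix (dv W v N f) := by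
    rw [dv_smul]
    congr 1
    exact (dv_map ((Φ.restrictScalars K)) W v N f).symm
  rw [hsum, h0, zero_add] at h2
  have hdiv : ∀ i j, ∃ c, (FreeAlgebra.lift K
      (fun u => WW u + if u = v then (Polynomial.X : Polynomial R) • Φ.mapMatrix N else 0) f -
      (Polynomial.X : Polynomial R) • Φ.mapMatrix (dv W v N f)) i j = Polynomial.X ^ 2 * c := by
    intro i j
    have := h2 i j
    rw [hI, Ideal.span_singleton_pow, Ideal.mem_span_singleton] at this
    exact this
  choose H hH using hdiv
  refine ⟨Matrix.of H, ?_⟩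
  ext1 i j
  have e := hH i j
  rw [Matrix.sub_apply, sub_eq_iff_eq_add] at e
  rw [e]
  simp only [Matrix.smul_apply, Matrix.add_apply, Matrix.of_apply, smul_eq_mul]
  ring

theorem partial_hyp1 [Infinite K] (hn4 : 4 ≤ n) (hodd : Odd n) (hnK : (n : K) ≠ 0)
    {J : Finset σ} {f : FreeAlgebra K σ} (hf : LinIn J f) (hall : AllR n f) {v : σ}
    {B : Type*} [CommRing B] [IsDomain B] [Algebra K B]
    (V : Option σ → Matrix (Fin n) (Fin n) B)
    (hV : ∀ o, o ∉ Finset.insertNone J → (V o).IsDiag) :
      (∃ c, FreeAlgebra.lift K V (dpart v f) ^ n = Matrix.scalar (Fin n) c) ∧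
      ∀ i, 0 < i → i < n → (FreeAlgebra.lift K V (dpart v f)).charpoly.coeff i = 0 := by
  classical
  have hdvV : FreeAlgebra.lift K V (dpart v f) = dv (fun u => V (some u)) v (V none) f := by
    rw [dv]
    congr 2
    funext o
    cases o <;> rfl
  have hVd : ∀ u, u ∉ J → (V (some u)).IsDiag := by
    intro u hu
    refine hV (some u) ?_
    rw [Finset.some_mem_insertNone]
    exact hu
  obtain ⟨H, hH⟩ := dual_value1 f (fun u => V (some u)) v (V none) (by
    refine value_zero hn4 hodd hnK hf (hall.Pow J) (hall.Chp J) _ (fun u hu => ?_)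
    intro i j hij
    rw [AlgHom.mapMatrix_apply, Matrix.map_apply, hVd u hu hij, map_zero])
  set Y := FreeAlgebra.lift K (fun u => (Algebra.ofId B (Polynomial B)).mapMatrix (V (some u)) +
      if u = v then (Polynomial.X : Polynomial B) •
        (Algebra.ofId B (Polynomial B)).mapMatrix (V none)
      else 0) f with hY
  set A := (Algebra.ofId B (Polynomial B)).mapMatrix (dv (fun u => V (some u)) v (V none) f) +
      (Polynomial.X : Polynomial B) • H with hA
  have hA0 : A.map (Polynomial.evalRingHom (0 : B)) = FreeAlgebra.lift K V (dpart v f) := by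
    rw [hdvV]
    ext1 i j
    rw [hA]
    simp only [Matrix.map_apply, Matrix.add_apply, Matrix.smul_apply, smul_eq_mul,
      AlgHom.mapMatrix_apply, Polynomial.coe_evalRingHom, Polynomial.eval_add,
      Polynomial.eval_mul, Polynomial.eval_X, zero_mul, add_zero, Algebra.ofId_apply,
      Polynomial.algebraMap_eq, Polynomial.eval_C]
  constructor
  · obtain ⟨c, hc⟩ := pow_scalar f n hall.pow
      (fun u => (Algebra.ofId B (Polynomial B)).mapMatrix (V (some u)) +
        if u = v then (Polynomial.X : Polynomial B) •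
          (Algebra.ofId B (Polynomial B)).mapMatrix (V none)
        else 0)
    rw [← hY, hH] at hc
    obtain ⟨d, hd⟩ := pow_scalar_smul (Polynomial.X : Polynomial B) Polynomial.X_ne_zero A n
      ⟨c, hc⟩
    refine ⟨Polynomial.eval 0 d, ?_⟩
    rw [← hA0]
    have e1 : (A.map (Polynomial.evalRingHom (0 : B))) ^ n =
        (Polynomial.evalRingHom (0 : B)).mapMatrix (A ^ n) := by
      rw [map_pow]; rfl
    rw [e1, hd]
    ext1 i j
    by_cases hij : i = j
    · subst hij; simp
    · simp [hij]
  · intro i hi hin
    have h1 := transfer_charpoly f i (fun X => hall.chp X i hi hin)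
      (fun u => (Algebra.ofId B (Polynomial B)).mapMatrix (V (some u)) +
        if u = v then (Polynomial.X : Polynomial B) •
          (Algebra.ofId B (Polynomial B)).mapMatrix (V none)
        else 0)
    rw [← hY, hH] at h1
    have h2 := coeff_charpoly_smul (Polynomial.X : Polynomial B) Polynomial.X_ne_zero A i h1
    rw [← hA0, Matrix.charpoly_map, Polynomial.coeff_map, h2, map_zero]

theorem partial_zero1 [Infinite K] (hn4 : 4 ≤ n) (hodd : Odd n) (hnK : (n : K) ≠ 0)
    {J : Finset σ} {f : FreeAlgebra K σ} (hf : LinIn J f) (hall : AllR n f) {v : σ} (hv : v ∉ J)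
    {R : Type*} [CommRing R] [Algebra K R] (W : σ → Matrix (Fin n) (Fin n) R)
    (hW : ∀ u, u ∉ J → (W u).IsDiag) (N : Matrix (Fin n) (Fin n) R) :
    dv W v N f = 0 := by
  have hg := dpart_lin hv hf
  have h := value_zero hn4 hodd hnK hg
    (fun V hV => (partial_hyp1 hn4 hodd hnK hf hall V hV).1)
    (fun V hV => (partial_hyp1 hn4 hodd hnK hf hall V hV).2)
    (fun o : Option σ => o.elim N W) (fun o ho => by
      cases o with
      | none => exact absurd (Finset.none_mem_insertNone) ho
      | some u =>
        rw [Finset.some_mem_insertNone] at ho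
        exact hW u ho)
  exact h

end First

end Pool.Agent.TH46.NC
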