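import Mathlib

/-!
Abstract symmetric pairs of quadratic maps on matrices, equivariant under conjugation.
-/

set_option linter.all false

namespace Pool.Agent.TH46.NC

open Matrix QuadraticMap

/-- The matrix algebra. -/
abbrev MM (n : ℕ) (R : Type*) := Matrix (Fin n) (Fin n) R

/-- The matrix units. -/
def EE {n : ℕ} (R : Type*) [CommRing R] (a b : Fin n) : MM n R := Matrix.single a b 1

theorem EE_mul {n : ℕ} {R : Type*} [CommRing R] (a b c d : Fin n) :
    EE R a b * EE R c d = if b = c then EE R a d else 0 := by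
  split_ifs with h
  · subst h; simp [EE]
  · exact Matrix.single_mul_single_of_ne _ _ _ _ h _

theorem diag_EE {n : ℕ} {R : Type*} [CommRing R] {D : MM n R} (hD : D.IsDiag) (a b : Fin n) :
    D * EE R a b = D a a • EE R a b := by
  obtain ⟨d, rfl⟩ : ∃ d, D = Matrix.diagonal d := ⟨_, hD.diagonal_diag.symm⟩
  ext i j
  simp only [EE, Matrix.diagonal_mul, Matrix.smul_apply, Matrix.single_apply, smul_eq_mul,
    Matrix.diagonal_apply_eq]
  split_ifs with h
  · rw [h.1]
  · simp

theorem EE_diag {n : ℕ} {R : Type*} [CommRing R] {D : MM n R} (hD : D.IsDiag) (a b : Fin n) :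
    EE R a b * D = D b b • EE R a b := by
  obtain ⟨d, rfl⟩ : ∃ d, D = Matrix.diagonal d := ⟨_, hD.diagonal_diag.symm⟩
  ext i j
  simp only [EE, Matrix.mul_diagonal, Matrix.smul_apply, Matrix.single_apply, smul_eq_mul,
    Matrix.diagonal_apply_eq]
  split_ifs with h
  · rw [h.2]; ring
  · simp

theorem EE_isDiag {n : ℕ} {R : Type*} [CommRing R] (a : Fin n) : (EE R a a).IsDiag := by
  intro i j hij
  exact Matrix.single_apply_of_ne _ _ _ _ _ (by rintro ⟨rfl, rfl⟩; exact hij rfl)

/-- Conjugation by a transvection. -/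
def tvc {n : ℕ} {R : Type*} [CommRing R] (a b : Fin n) (t : R) (M : MM n R) : MM n R :=
  (1 + t • EE R a b) * M * (1 - t • EE R a b)

theorem tvc_add {n : ℕ} {R : Type*} [CommRing R] (a b : Fin n) (t : R) (M N : MM n R) :
    tvc a b t (M + N) = tvc a b t M + tvc a b t N := by
  rw [tvc, mul_add, add_mul]; rfl

theorem tvc_sub {n : ℕ} {R : Type*} [CommRing R] (a b : Fin n) (t : R) (M N : MM n R) :
    tvc a b t (M - N) = tvc a b t M - tvc a b t N := by
  rw [tvc, tvc, tvc, mul_sub (1 + t • EE R a b), sub_mul _ _ (1 - t • EE R a b)]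

theorem tvc_smul {n : ℕ} {R : Type*} [CommRing R] (a b : Fin n) (t r : R) (M : MM n R) :
    tvc a b t (r • M) = r • tvc a b t M := by
  rw [tvc, mul_smul_comm, smul_mul_assoc]; rfl

theorem tvc_E {n : ℕ} {R : Type*} [CommRing R] (a b c d : Fin n) (t : R) :
    tvc a b t (EE R c d) = EE R c d + (if b = c then t • EE R a d else 0) -
      (if d = a then t • EE R c b else 0) -
      (if b = c then (if d = a then (t * t) • EE R a b else 0) else 0) := by
  rw [tvc]
  simp only [add_mul, mul_sub, one_mul, mul_one, smul_mul_assoc, mul_smul_comm, EE_mul]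
  by_cases h1 : b = c
  · by_cases h2 : d = a
    · simp only [h1, h2, if_true, EE_mul]; module
    · simp only [h1, h2, if_true, if_false, EE_mul]; module
  · by_cases h2 : d = a
    · simp only [h1, h2, if_true, if_false, zero_mul]; module
    · simp only [h1, h2, if_false, zero_mul]; module

theorem tvc_diag {n : ℕ} {R : Type*} [CommRing R] {a b : Fin n} (hab : a ≠ b) (t : R)
    {D : MM n R} (hD : D.IsDiag) :
    tvc a b t D = D + (t * (D b b - D a a)) • EE R a b := by
  rw [tvc]
  simp only [add_mul, mul_sub, one_mul, mul_one, smul_mul_assoc, mul_smul_comm, EE_diag hD,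
    diag_EE hD, EE_mul, if_neg hab.symm]
  module

/-- Abstract evaluation. -/
structure Sys {Ω R : Type*} [CommRing R] {n : ℕ} (e : Ω → MM n R → MM n R → MM n R) : Prop where
  quad : ∀ Z A, ∃ Q : QuadraticMap R (MM n R) (MM n R), ∀ B, e Z A B = Q B
  symm : ∀ Z A B, e Z A B = e Z B A
  conj : ∀ P Q : MM n R, P * Q = 1 → Q * P = 1 → ∀ Z, ∃ Z', ∀ A B,
    e Z' (P * A * Q) (P * B * Q) = P * e Z A B * Q
  self : ∀ Z A B, e Z A (B + A) = e Z A B
  dia : ∀ Z D D' B, D.IsDiag → D'.IsDiag → e Z D (B + D') = e Z D B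

/-- `V` is a period of the evaluation at `A`. -/
def Per {Ω R : Type*} [CommRing R] {n : ℕ} (e : Ω → MM n R → MM n R → MM n R) (A V : MM n R) :
    Prop := ∀ Z B, e Z A (B + V) = e Z A B

section

variable {Ω R : Type*} [CommRing R] {n : ℕ} {e : Ω → MM n R → MM n R → MM n R}

theorem Per.add {A V W : MM n R} (h : Per e A V) (h' : Per e A W) : Per e A (V + W) := by
  intro Z B
  rw [← add_assoc, h', h]

theorem Per.neg {A V : MM n R} (h : Per e A V) : Per e A (-V) := by
  intro Z B
  have := h Z (B + -V)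
  rw [neg_add_cancel_right] at this
  exact this.symm

theorem Per.sub {A V W : MM n R} (h : Per e A V) (h' : Per e A W) : Per e A (V - W) := by
  rw [sub_eq_add_neg]
  exact h.add h'.neg

theorem Per.congr {A A' V V' : MM n R} (h : Per e A V) (hA : A = A') (hV : V = V') :
    Per e A' V' := by
  subst hA hV; exact h

theorem Per.at_zero {A V : MM n R} (h : Per e A V) (Z : Ω) : e Z A V = e Z A 0 := by
  rw [← h Z 0, zero_add]

namespace Sys

variable (he : Sys e)

include he

theorem zero_right (Z : Ω) (A : MM n R) : e Z A 0 = 0 := by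
  obtain ⟨Q, hQ⟩ := he.quad Z A
  rw [hQ, QuadraticMap.map_zero]

theorem per_smul {A V : MM n R} (h : Per e A V) (r : R) : Per e A (r • V) := by
  intro Z B
  obtain ⟨Q, hQ⟩ := he.quad Z A
  have h0 : Q V = 0 := by
    rw [← hQ, h.at_zero, he.zero_right]
  have h1 : polar Q B V = 0 := by
    rw [polar, ← hQ, ← hQ, ← hQ, h Z B, hQ V, h0, sub_zero, sub_self]
  rw [hQ, hQ, QuadraticMap.map_add (⇑Q), QuadraticMap.map_smul, h0, smul_zero, add_zero,
    QuadraticMap.polar_smul_right, h1, smul_zero, add_zero]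

theorem smul_right (Z : Ω) (A B : MM n R) (r : R) : e Z A (r • B) = (r * r) • e Z A B := by
  obtain ⟨Q, hQ⟩ := he.quad Z A
  rw [hQ, hQ, QuadraticMap.map_smul]

theorem smul_left (Z : Ω) (A B : MM n R) (r : R) : e Z (r • A) B = (r * r) • e Z A B := by
  rw [he.symm, he.smul_right, he.symm]

theorem par_right (Z : Ω) (A B B' : MM n R) :
    e Z A (B + B') + e Z A (B - B') = (2 : R) • e Z A B + (2 : R) • e Z A B' := by
  obtain ⟨Q, hQ⟩ := he.quad Z A
  rw [hQ, hQ, hQ, hQ, sub_eq_add_neg, QuadraticMap.map_add (⇑Q) B B', QuadraticMap.map_add (⇑Q) B (-B'),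
    QuadraticMap.map_neg, QuadraticMap.polar_neg_right]
  module

theorem par_left (Z : Ω) (A A' B : MM n R) :
    e Z (A + A') B + e Z (A - A') B = (2 : R) • e Z A B + (2 : R) • e Z A' B := by
  rw [he.symm, he.symm Z (A - A'), he.par_right, he.symm Z B A, he.symm Z B A']

theorem conj_eq {P Q : MM n R} (hPQ : P * Q = 1) (hQP : Q * P = 1) {A B A' B' : MM n R}
    (h : ∀ Z, e Z A B = e Z A' B') (Z : Ω) :
    e Z (P * A * Q) (P * B * Q) = e Z (P * A' * Q) (P * B' * Q) := by
  obtain ⟨Z', hZ'⟩ := he.conj Q P hQP hPQ Z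
  have key : ∀ A B, e Z (P * A * Q) (P * B * Q) = P * e Z' A B * Q := by
    intro A B
    have h1 := hZ' (P * A * Q) (P * B * Q)
    have c : ∀ M : MM n R, Q * (P * M * Q) * P = M := by
      intro M
      have : Q * (P * M * Q) * P = (Q * P) * M * (Q * P) := by noncomm_ring
      rw [this, hQP, one_mul, mul_one]
    rw [c, c] at h1
    rw [h1]
    have : P * (Q * e Z (P * A * Q) (P * B * Q) * P) * Q =
      (P * Q) * e Z (P * A * Q) (P * B * Q) * (P * Q) := by noncomm_ring
    rw [this, hPQ, one_mul, mul_one]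
  rw [key, key, h]

theorem conj_zero {P Q : MM n R} (hPQ : P * Q = 1) (hQP : Q * P = 1) {A B : MM n R}
    (h : ∀ Z, e Z A B = 0) (Z : Ω) : e Z (P * A * Q) (P * B * Q) = 0 := by
  have := he.conj_eq hPQ hQP (A := A) (B := B) (A' := A) (B' := 0)
    (fun Z => by rw [h, he.zero_right]) Z
  rw [this, mul_zero, zero_mul, he.zero_right]

theorem per_conj {P Q : MM n R} (hPQ : P * Q = 1) (hQP : Q * P = 1) {A V : MM n R}
    (h : Per e A V) : Per e (P * A * Q) (P * V * Q) := by
  intro Z B
  have h1 := he.conj_eq hPQ hQP (A := A) (B := Q * B * P + V) (A' := A) (B' := Q * B * P)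
    (fun Z => h Z _) Z
  have c : P * (Q * B * P) * Q = B := by
    have : P * (Q * B * P) * Q = (P * Q) * B * (P * Q) := by noncomm_ring
    rw [this, hPQ, one_mul, mul_one]
  rw [mul_add, add_mul, c] at h1
  exact h1

theorem per_par (h2 : ∀ M : MM n R, (2 : R) • M = 0 → M = 0) {A A' V : MM n R}
    (h0 : Per e A V) (h1 : Per e (A + A') V) (h3 : Per e (A - A') V) : Per e A' V := by
  intro Z B
  have e1 := he.par_left Z A A' (B + V)
  have e2 := he.par_left Z A A' B
  rw [h1 Z B, h3 Z B, e2, h0 Z B] at e1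
  have e3 := add_left_cancel e1
  have e4 := h2 (e Z A' (B + V) - e Z A' B) (by rw [smul_sub, e3, sub_self])
  exact sub_eq_zero.mp e4

omit he in
/-- Transvections are invertible. -/
theorem tv {a b : Fin n} (hab : a ≠ b) (t : R) :
    (1 + t • EE R a b) * (1 - t • EE R a b) = 1 ∧ (1 - t • EE R a b) * (1 + t • EE R a b) = 1 := by
  have h : EE R a b * EE R a b = 0 := by rw [EE_mul, if_neg hab.symm]
  constructor
  · simp only [add_mul, mul_sub, one_mul, mul_one, smul_mul_assoc, mul_smul_comm, h, smul_zero]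
    module
  · simp only [sub_mul, mul_add, one_mul, mul_one, smul_mul_assoc, mul_smul_comm, h, smul_zero]
    module

theorem per_tv {a b : Fin n} (hab : a ≠ b) (t : R) {A V : MM n R} (h : Per e A V) :
    Per e (tvc a b t A) (tvc a b t V) :=
  he.per_conj (tv hab t).1 (tv hab t).2 h

theorem zero_tv {a b : Fin n} (hab : a ≠ b) (t : R) {A B : MM n R} (h : ∀ Z, e Z A B = 0)
    (Z : Ω) : e Z (tvc a b t A) (tvc a b t B) = 0 :=
  he.conj_zero (tv hab t).1 (tv hab t).2 h Z

theorem per_dd {D D' : MM n R} (hD : D.IsDiag) (hD' : D'.IsDiag) : Per e D D' :=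
  fun Z B => he.dia Z D D' B hD hD'

theorem per_unit {D : MM n R} (hD : D.IsDiag) {a b : Fin n} (hab : a ≠ b)
    (h : D a a = D b b) : Per e D (EE R a b) := by
  have h1 := he.per_dd hD (EE_isDiag (R := R) a)
  have h2 := he.per_tv hab (-1) h1
  rw [tvc_diag hab _ hD, h, sub_self, mul_zero, zero_smul, add_zero, tvc_E] at h2
  have h3 := h2.sub h1
  refine h3.congr rfl ?_
  simp only [if_neg hab.symm, if_true]
  module

theorem per_diag (h2 : ∀ M : MM n R, (2 : R) • M = 0 → M = 0) {D : MM n R} (hD : D.IsDiag)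
    {a b : Fin n} (hab : a ≠ b) (h : D a a = D b b) : Per e (EE R a b) D := by
  have h1 := he.per_dd (EE_isDiag (R := R) a) hD
  have key : ∀ t : R, Per e (EE R a a - t • EE R a b) D := by
    intro t
    have h2 := he.per_tv hab t h1
    rw [tvc_diag hab _ hD, h, sub_self, mul_zero, zero_smul, add_zero, tvc_E] at h2
    refine h2.congr ?_ rfl
    simp only [if_neg hab.symm, if_true]
    module
  refine he.per_par h2 h1 ((key (-1)).congr ?_ rfl) ((key 1).congr ?_ rfl)
  · module
  · module

theorem per_cofork (h2 : ∀ M : MM n R, (2 : R) • M = 0 → M = 0) {a b c : Fin n} (hab : a ≠ b)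
    (hac : a ≠ c) (hbc : b ≠ c) : Per e (EE R a c) (EE R b c) := by
  have h1 := he.per_dd (EE_isDiag (R := R) a) (EE_isDiag (R := R) b)
  have key : ∀ t : R, Per e (EE R a a - t • EE R a c) (EE R b b - EE R b c) := by
    intro t
    have h2 := he.per_tv hbc 1 (he.per_tv hac t h1)
    refine h2.congr ?_ ?_
    · simp only [tvc_E, tvc_sub, tvc_smul, tvc_add, if_neg hab, if_neg hab.symm, if_neg hac,
        if_neg hac.symm, if_neg hbc, if_neg hbc.symm, if_true, add_zero, sub_zero]
    · simp only [tvc_E, tvc_sub, tvc_smul, tvc_add, if_neg hab, if_neg hab.symm, if_neg hac,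
        if_neg hac.symm, if_neg hbc, if_neg hbc.symm, if_true, add_zero, sub_zero]
      module
  have key0 : ∀ t : R, Per e (EE R a a - t • EE R a c) (EE R b b) := by
    intro t
    have h2 := he.per_tv hac t h1
    refine h2.congr ?_ ?_
    · simp only [tvc_E, tvc_sub, tvc_smul, tvc_add, if_neg hab, if_neg hab.symm, if_neg hac,
        if_neg hac.symm, if_neg hbc, if_neg hbc.symm, if_true, add_zero, sub_zero]
    · simp only [tvc_E, tvc_sub, tvc_smul, tvc_add, if_neg hab, if_neg hab.symm, if_neg hac,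
        if_neg hac.symm, if_neg hbc, if_neg hbc.symm, if_true, add_zero, sub_zero]
  have key1 : ∀ t : R, Per e (EE R a a - t • EE R a c) (EE R b c) := fun t =>
    ((key0 t).sub (key t)).congr rfl (by module)
  refine he.per_par h2 (A := EE R a a) ((key1 0).congr (by module) rfl)
    ((key1 (-1)).congr (by module) rfl) ((key1 1).congr (by module) rfl)

theorem per_fork (h2 : ∀ M : MM n R, (2 : R) • M = 0 → M = 0) {a b c : Fin n} (hab : a ≠ b)
    (hac : a ≠ c) (hbc : b ≠ c) : Per e (EE R c a) (EE R c b) := by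
  have h1 := he.per_dd (EE_isDiag (R := R) a) (EE_isDiag (R := R) b)
  have key : ∀ t : R, Per e (EE R a a + t • EE R c a) (EE R b b + EE R c b) := by
    intro t
    have h2 := he.per_tv hbc.symm 1 (he.per_tv hac.symm t h1)
    refine h2.congr ?_ ?_
    · simp only [tvc_E, tvc_sub, tvc_smul, tvc_add, if_neg hab, if_neg hab.symm, if_neg hac,
        if_neg hac.symm, if_neg hbc, if_neg hbc.symm, if_true, add_zero, sub_zero]
    · simp only [tvc_E, tvc_sub, tvc_smul, tvc_add, if_neg hab, if_neg hab.symm, if_neg hac,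
        if_neg hac.symm, if_neg hbc, if_neg hbc.symm, if_true, add_zero, sub_zero]
      module
  have key0 : ∀ t : R, Per e (EE R a a + t • EE R c a) (EE R b b) := by
    intro t
    have h2 := he.per_tv hac.symm t h1
    refine h2.congr ?_ ?_
    · simp only [tvc_E, tvc_sub, tvc_smul, tvc_add, if_neg hab, if_neg hab.symm, if_neg hac,
        if_neg hac.symm, if_neg hbc, if_neg hbc.symm, if_true, add_zero, sub_zero]
    · simp only [tvc_E, tvc_sub, tvc_smul, tvc_add, if_neg hab, if_neg hab.symm, if_neg hac,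
        if_neg hac.symm, if_neg hbc, if_neg hbc.symm, if_true, add_zero, sub_zero]
  have key1 : ∀ t : R, Per e (EE R a a + t • EE R c a) (EE R c b) := fun t =>
    ((key t).sub (key0 t)).congr rfl (by module)
  refine he.per_par h2 (A := EE R a a) ((key1 0).congr (by module) rfl)
    ((key1 1).congr (by module) rfl) ((key1 (-1)).congr (by module) rfl)

end Sys

end

end Pool.Agent.TH46.NC
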