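import Mathlib
import Pool.Agent.TH46.NC.Q3

/-!
Vanishing of abstract pairs of quadratic maps.
-/

set_option linter.all false

namespace Pool.Agent.TH46.NC

open Matrix QuadraticMap

theorem EE_apply {n : ℕ} {R : Type*} [CommRing R] (a b i j : Fin n) :
    EE R a b i j = if a = i ∧ b = j then 1 else 0 := by
  rw [EE, Matrix.single_apply]

section Hyp

variable {R : Type*} [CommRing R] {n : ℕ}

theorem isDiag_smul_EE (r : R) (a : Fin n) : (r • EE R a a).IsDiag :=
  (EE_isDiag a).smul r

theorem hyp3 (H : QuadraticMap R (MM n R) (MM n R)) {a b c : Fin n} (hab : a ≠ b) (hac : a ≠ c)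
    (hbc : b ≠ c) (h1 : ∀ D : MM n R, D.IsDiag → D a a = D b b → H D = 0)
    (h2 : ∀ D : MM n R, D.IsDiag → D a a = D c c → H D = 0)
    (h3 : ∀ D : MM n R, D.IsDiag → D b b = D c c → H D = 0) (D : MM n R) (hD : D.IsDiag) :
    H D = 0 := by
  set p := D a a - D c c with hp
  set r := D b b - D c c with hr
  set y := p • EE R a a with hy
  set z := r • EE R b b with hz
  set x := D - y - z with hx
  have dy : y.IsDiag := isDiag_smul_EE _ _
  have dz : z.IsDiag := isDiag_smul_EE _ _
  have dx : x.IsDiag := (hD.sub dy).sub dz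
  have e := QuadraticMap.map_add_add_add_map H x y z
  have exyz : x + y + z = D := by rw [hx]; abel
  have xa : x a a = D c c := by
    simp [hx, hy, hz, hp, EE_apply, hab.symm]
  have xb : x b b = D c c := by
    simp [hx, hy, hz, hr, EE_apply, hab]
  have xc : x c c = D c c := by
    simp [hx, hy, hz, EE_apply, hac, hbc]
  have ya : y a a = p := by simp [hy, EE_apply]
  have yb : y b b = 0 := by simp [hy, EE_apply, hab]
  have yc : y c c = 0 := by simp [hy, EE_apply, hac]
  have za : z a a = 0 := by simp [hz, EE_apply, hab.symm]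
  have zb : z b b = r := by simp [hz, EE_apply]
  have zc : z c c = 0 := by simp [hz, EE_apply, hbc]
  have qx : H x = 0 := h1 x dx (by rw [xa, xb])
  have qy : H y = 0 := h3 y dy (by rw [yb, yc])
  have qz : H z = 0 := h2 z dz (by rw [za, zc])
  have qxy : H (x + y) = 0 := h3 _ (dx.add dy) (by rw [Matrix.add_apply, Matrix.add_apply, xb, yb, xc, yc])
  have qzx : H (z + x) = 0 := h2 _ (dz.add dx) (by rw [Matrix.add_apply, Matrix.add_apply, xa, za, xc, zc])
  have qyz : H (y + z) = 0 := by
    have f1 : polar H (EE R a a) (EE R b b) = 0 := by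
      rw [polar, h1 _ ((EE_isDiag a).add (EE_isDiag b)) (by simp [EE_apply, hab, hab.symm]),
        h3 _ (EE_isDiag a) (by simp [EE_apply, hab, hac]),
        h2 _ (EE_isDiag b) (by simp [EE_apply, hab.symm, hbc]), sub_zero, sub_zero]
    rw [QuadraticMap.map_add (⇑H), qy, qz, hy, hz, QuadraticMap.polar_smul_left,
      QuadraticMap.polar_smul_right, f1]
    simp
  rw [exyz, qx, qy, qz, qxy, qzx, qyz] at e
  simpa using e

theorem hyp4 (H : QuadraticMap R (MM n R) (MM n R)) {a b c d : Fin n} (hab : a ≠ b) (hac : a ≠ c)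
    (had : a ≠ d) (hbc : b ≠ c) (hbd : b ≠ d) (hcd : c ≠ d)
    (h1 : ∀ D : MM n R, D.IsDiag → D a a = D b b → H D = 0)
    (h2 : ∀ D : MM n R, D.IsDiag → D c c = D d d → H D = 0)
    (h3 : ∀ D : MM n R, D.IsDiag → D b b = D c c → H D = 0) (D : MM n R) (hD : D.IsDiag) :
    H D = 0 := by
  set s := D c c - D b b with hs
  set r := D d d - D c c with hr
  set y := r • EE R d d with hy
  set z := s • (EE R c c + EE R d d) with hz
  set x := D - y - z with hx
  have dy : y.IsDiag := isDiag_smul_EE _ _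
  have dz : z.IsDiag := ((EE_isDiag c).add (EE_isDiag d)).smul s
  have dx : x.IsDiag := (hD.sub dy).sub dz
  have e := QuadraticMap.map_add_add_add_map H x y z
  have exyz : x + y + z = D := by rw [hx]; abel
  have xb : x b b = D b b := by
    simp [hx, hy, hz, EE_apply, hbc.symm, hbd.symm]
  have xc : x c c = D b b := by
    simp [hx, hy, hz, hs, EE_apply, hcd.symm]
  have xd : x d d = D b b := by
    simp [hx, hy, hz, hs, hr, EE_apply, hcd]
  have ya : y a a = 0 := by simp [hy, EE_apply, had.symm]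
  have yb : y b b = 0 := by simp [hy, EE_apply, hbd.symm]
  have yc : y c c = 0 := by simp [hy, EE_apply, hcd.symm]
  have za : z a a = 0 := by simp [hz, EE_apply, hac.symm, had.symm]
  have zb : z b b = 0 := by simp [hz, EE_apply, hbc.symm, hbd.symm]
  have zc : z c c = s := by simp [hz, EE_apply, hcd.symm]
  have zd : z d d = s := by simp [hz, EE_apply, hcd]
  have qx : H x = 0 := h2 x dx (by rw [xc, xd])
  have qy : H y = 0 := h1 y dy (by rw [ya, yb])
  have qz : H z = 0 := h2 z dz (by rw [zc, zd])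
  have qxy : H (x + y) = 0 := h3 _ (dx.add dy) (by rw [Matrix.add_apply, Matrix.add_apply, xb, yb, xc, yc])
  have qzx : H (z + x) = 0 := h2 _ (dz.add dx) (by rw [Matrix.add_apply, Matrix.add_apply, xc, zc, xd, zd])
  have qyz : H (y + z) = 0 := h1 _ (dy.add dz) (by rw [Matrix.add_apply, Matrix.add_apply, ya, za, yb, zb])
  rw [exyz, qx, qy, qz, qxy, qzx, qyz] at e
  simpa using e

end Hyp

section

variable {Ω R : Type*} [CommRing R] {n : ℕ} {e : Ω → MM n R → MM n R → MM n R}

namespace Sys

variable (he : Sys e) (h2 : ∀ M : MM n R, (2 : R) • M = 0 → M = 0)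
  (opp : ∀ a b : Fin n, a ≠ b → ∀ Z, e Z (EE R a b) (EE R b a) = 0)

include he h2 opp

theorem ab_aa {a b : Fin n} (hab : a ≠ b) (Z : Ω) : e Z (EE R a b) (EE R a a) = 0 := by
  have key : ∀ t : R, e Z (EE R a b) (EE R b a + (2 * t) • EE R a a) = 0 := by
    intro t
    have h1 := he.zero_tv hab t (opp a b hab) Z
    have hp1 : Per e (EE R a b) ((t * t) • EE R a b) := he.per_smul (fun Z B => he.self Z _ B) _
    have hp2 : Per e (EE R a b) (t • (EE R a a + EE R b b)) :=
      he.per_smul (he.per_diag h2 ((EE_isDiag a).add (EE_isDiag b)) hab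
        (by simp [EE_apply, hab, hab.symm])) _
    rw [tvc_E, tvc_E] at h1
    simp only [if_neg hab, if_neg hab.symm, if_true, add_zero, sub_zero] at h1
    have e1 : EE R b a + (2 * t) • EE R a a = (EE R b a + t • EE R a a - t • EE R b b -
        (t * t) • EE R a b) + (t * t) • EE R a b + t • (EE R a a + EE R b b) := by module
    rw [e1, hp2, hp1, h1]
  have h3 := he.par_right Z (EE R a b) (EE R b a) ((2 : R) • EE R a a)
  have k1 : e Z (EE R a b) (EE R b a + (2 : R) • EE R a a) = 0 := by
    have := key 1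
    rwa [mul_one] at this
  have k2 : e Z (EE R a b) (EE R b a - (2 : R) • EE R a a) = 0 := by
    have := key (-1)
    have e2 : EE R b a - (2 : R) • EE R a a = EE R b a + (2 * (-1 : R)) • EE R a a := by module
    rw [e2]; exact this
  rw [k1, k2, opp a b hab, smul_zero, zero_add, zero_add, he.smul_right] at h3
  have h4 := h2 _ h3.symm
  rw [mul_smul] at h4
  exact h2 _ (h2 _ h4)

theorem d_ab {D : MM n R} (hD : D.IsDiag) {a b : Fin n} (hab : a ≠ b) (Z : Ω) :
    e Z D (EE R a b) = 0 := by
  set c := D a a - D b b with hc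
  have hD' : (D - c • EE R a a).IsDiag := hD.sub (isDiag_smul_EE _ _)
  have hp : Per e (EE R a b) (D - c • EE R a a) :=
    he.per_diag h2 hD' hab (by simp [EE_apply, hab, hc])
  have e1 : D = c • EE R a a + (D - c • EE R a a) := by abel
  rw [he.symm, e1, hp, he.smul_right, he.ab_aa h2 opp hab, smul_zero]

theorem d_opp1 {D : MM n R} (hD : D.IsDiag) {a b : Fin n} (hab : a ≠ b) (h1 : D a a = D b b + 1)
    (Z : Ω) : e Z D (EE R a b + EE R b a) = 0 := by
  have hself : ∀ A : MM n R, Per e A A := fun A Z B => he.self Z A B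
  have key : ∀ t : R, t * t = 1 → e Z (D + t • EE R b a) (EE R a b + EE R b a) = 0 := by
    intro t ht
    have h3 := he.zero_tv hab.symm t (fun Z => he.d_ab h2 opp hD hab Z) Z
    rw [tvc_diag hab.symm _ hD, tvc_E] at h3
    simp only [if_neg hab, if_neg hab.symm, if_true, add_zero, sub_zero, ht] at h3
    have e0 : t * (D a a - D b b) = t := by rw [h1]; ring
    rw [e0] at h3
    have hDD : (D - EE R a a).IsDiag := hD.sub (EE_isDiag a)
    have hp1 : Per e (D + t • EE R b a) ((2 * t) • (D + t • EE R b a)) := he.per_smul (hself _) _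
    have hp2 : Per e (D + t • EE R b a) ((2 * t) • (D - EE R a a) + t • (EE R a a + EE R b b)) := by
      have hd : ((2 * t) • (D - EE R a a) + t • (EE R a a + EE R b b)).IsDiag :=
        (hDD.smul _).add (((EE_isDiag a).add (EE_isDiag b)).smul _)
      have h4 := he.per_tv hab.symm t (he.per_dd hD hd)
      rw [tvc_diag hab.symm _ hD, e0, tvc_diag hab.symm _ hd] at h4
      refine h4.congr rfl ?_
      have : ((2 * t) • (D - EE R a a) + t • (EE R a a + EE R b b)) a a -
        ((2 * t) • (D - EE R a a) + t • (EE R a a + EE R b b)) b b = 0 := by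
        simp [EE_apply, hab, hab.symm, h1]
      rw [this, mul_zero, zero_smul, add_zero]
    have e1 : EE R a b + EE R b a = (EE R a b + t • EE R b b - t • EE R a a - (1 : R) • EE R b a) +
        (2 * t) • (D + t • EE R b a) - ((2 * t) • (D - EE R a a) + t • (EE R a a + EE R b b)) := by
      have e2 : (2 * t) • (D + t • EE R b a) = (2 * t) • D + (2 : R) • EE R b a := by
        rw [smul_add, smul_smul, mul_assoc, ht, mul_one]
      rw [e2]
      module
    rw [e1, sub_eq_add_neg, hp2.neg, hp1, h3]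
  have h3 := he.par_left Z D (EE R b a) (EE R a b + EE R b a)
  have k1 := key 1 (one_mul 1)
  have k2 := key (-1) (by ring)
  rw [one_smul] at k1
  rw [neg_smul, one_smul, ← sub_eq_add_neg] at k2
  rw [k1, k2, hself (EE R b a), opp b a hab.symm, smul_zero, add_zero, add_zero] at h3
  exact h2 _ h3.symm

theorem d_opp {D : MM n R} (hD : D.IsDiag) {a b : Fin n} (hab : a ≠ b)
    (Z : Ω) : e Z D (EE R a b + EE R b a) = 0 := by
  obtain ⟨H, hH⟩ := he.quad Z (EE R a b + EE R b a)
  have hH' : ∀ D, e Z D (EE R a b + EE R b a) = H D := fun D => by rw [he.symm, hH]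
  set c := D a a - D b b with hc
  set D' := D - c • EE R a a with hD'
  have dD' : D'.IsDiag := hD.sub (isDiag_smul_EE _ _)
  have ha : D' a a = D b b := by simp [hD', EE_apply, hc]
  have hb : D' b b = D b b := by simp [hD', EE_apply, hab]
  have q1 : H D' = 0 := by
    rw [← hH', he.per_unit dD' hab.symm (by rw [ha, hb]) Z, he.d_ab h2 opp dD' hab]
  have q2 : H (EE R a a) = 0 := by
    rw [← hH']
    exact he.d_opp1 h2 opp (EE_isDiag a) hab (by simp [EE_apply, hab]) Z
  have q3 : H (D' + EE R a a) = 0 := by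
    rw [← hH']
    exact he.d_opp1 h2 opp (dD'.add (EE_isDiag a)) hab
      (by rw [Matrix.add_apply, Matrix.add_apply, ha, hb]; simp [EE_apply, hab]) Z
  have q4 : polar H D' (EE R a a) = 0 := by
    rw [polar, q1, q2, q3]; simp
  have e1 : D = D' + c • EE R a a := by rw [hD']; abel
  rw [hH', e1, QuadraticMap.map_add (⇑H), q1, QuadraticMap.map_smul, q2,
    QuadraticMap.polar_smul_right, q4]
  simp

omit h2 opp in
theorem three {D x y z : MM n R} (Z : Ω) (hx : e Z D x = 0) (hy : e Z D y = 0) (hz : e Z D z = 0)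
    (hxy : e Z D (x + y) = 0) (hyz : e Z D (y + z) = 0) (h : e Z D (x + y + z) = 0) :
    e Z D (z + x) = 0 := by
  obtain ⟨Q, hQ⟩ := he.quad Z D
  rw [hQ] at *
  have e := QuadraticMap.map_add_add_add_map Q x y z
  rw [hx, hy, hz, hxy, hyz, h] at e
  simpa using e.symm

theorem d_fork {D : MM n R} (hD : D.IsDiag) {a b d : Fin n} (hab : a ≠ b) (had : a ≠ d)
    (hbd : b ≠ d) (Z : Ω) : e Z D (EE R a b + EE R a d) = 0 := by
  obtain ⟨H, hH⟩ := he.quad Z (EE R a b + EE R a d)
  have hH' : ∀ D, e Z D (EE R a b + EE R a d) = H D := fun D => by rw [he.symm, hH]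
  rw [hH']
  refine hyp3 H hab had hbd ?_ ?_ ?_ D hD
  · intro D hD h
    rw [← hH', add_comm, he.per_unit hD hab h Z, he.d_ab h2 opp hD had]
  · intro D hD h
    rw [← hH', he.per_unit hD had h Z, he.d_ab h2 opp hD hab]
  · intro D hD h
    have h3 := he.zero_tv hbd (-1) (fun Z => he.d_ab h2 opp hD hab Z) Z
    rw [tvc_diag hbd _ hD, h, sub_self, mul_zero, zero_smul, add_zero, tvc_E] at h3
    simp only [if_neg hab, if_neg hab.symm, if_neg had, if_neg had.symm, if_neg hbd,
      if_neg hbd.symm, if_true, add_zero, sub_zero] at h3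
    rw [← hH']
    have e1 : EE R a b + EE R a d = EE R a b - (-1 : R) • EE R a d := by module
    rw [e1]; exact h3

theorem d_cofork {D : MM n R} (hD : D.IsDiag) {a b c : Fin n} (hab : a ≠ b) (hac : a ≠ c)
    (hbc : b ≠ c) (Z : Ω) : e Z D (EE R a b + EE R c b) = 0 := by
  obtain ⟨H, hH⟩ := he.quad Z (EE R a b + EE R c b)
  have hH' : ∀ D, e Z D (EE R a b + EE R c b) = H D := fun D => by rw [he.symm, hH]
  rw [hH']
  refine hyp3 H hab hac hbc ?_ ?_ ?_ D hD
  · intro D hD h
    rw [← hH', add_comm, he.per_unit hD hab h Z, he.d_ab h2 opp hD hbc.symm]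
  · intro D hD h
    have h3 := he.zero_tv hac.symm 1 (fun Z => he.d_ab h2 opp hD hab Z) Z
    rw [tvc_diag hac.symm _ hD, h, sub_self, mul_zero, zero_smul, add_zero, tvc_E] at h3
    simp only [if_neg hab, if_neg hab.symm, if_neg hac, if_neg hac.symm, if_neg hbc,
      if_neg hbc.symm, if_true, add_zero, sub_zero, one_smul] at h3
    rw [← hH']
    exact h3
  · intro D hD h
    rw [← hH', he.per_unit hD hbc.symm h.symm Z, he.d_ab h2 opp hD hab]

theorem d_path {D : MM n R} (hD : D.IsDiag) {a b d : Fin n} (hab : a ≠ b) (had : a ≠ d)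
    (hbd : b ≠ d) (Z : Ω) : e Z D (EE R b d + EE R a b) = 0 := by
  obtain ⟨H, hH⟩ := he.quad Z (EE R b d + EE R a b)
  have hH' : ∀ D, e Z D (EE R b d + EE R a b) = H D := fun D => by rw [he.symm, hH]
  rw [hH']
  refine hyp3 H hab had hbd ?_ ?_ ?_ D hD
  · intro D hD h
    rw [← hH', he.per_unit hD hab h Z, he.d_ab h2 opp hD hbd]
  · intro D hD h
    have h3 := he.zero_tv had (-1) (fun Z => he.d_opp h2 opp hD hab Z) Z
    rw [tvc_diag had _ hD, h, sub_self, mul_zero, zero_smul, add_zero, tvc_add, tvc_E, tvc_E] at h3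
    simp only [if_neg hab, if_neg hab.symm, if_neg had, if_neg had.symm, if_neg hbd,
      if_neg hbd.symm, if_true, add_zero, sub_zero] at h3
    rw [← hH']
    refine he.three Z (x := EE R a b) (y := EE R b a) (z := EE R b d)
      (he.d_ab h2 opp hD hab Z) (he.d_ab h2 opp hD hab.symm Z) (he.d_ab h2 opp hD hbd Z)
      (he.d_opp h2 opp hD hab Z) (he.d_fork h2 opp hD hab.symm hbd had Z) ?_
    have e1 : EE R a b + EE R b a + EE R b d = EE R a b + (EE R b a - (-1 : R) • EE R b d) := by
      module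
    rw [e1]; exact h3
  · intro D hD h
    rw [← hH', add_comm, he.per_unit hD hbd h Z, he.d_ab h2 opp hD hab]

theorem d_disj {D : MM n R} (hD : D.IsDiag) {a b c d : Fin n} (hab : a ≠ b) (hac : a ≠ c)
    (had : a ≠ d) (hbc : b ≠ c) (hbd : b ≠ d) (hcd : c ≠ d) (Z : Ω) :
    e Z D (EE R c d + EE R a b) = 0 := by
  obtain ⟨H, hH⟩ := he.quad Z (EE R c d + EE R a b)
  have hH' : ∀ D, e Z D (EE R c d + EE R a b) = H D := fun D => by rw [he.symm, hH]
  rw [hH']
  refine hyp4 H hab hac had hbc hbd hcd ?_ ?_ ?_ D hD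
  · intro D hD h
    rw [← hH', he.per_unit hD hab h Z, he.d_ab h2 opp hD hcd]
  · intro D hD h
    rw [← hH', add_comm, he.per_unit hD hcd h Z, he.d_ab h2 opp hD hab]
  · intro D hD h
    have h3 := he.zero_tv hbc.symm 1 (fun Z => he.d_path h2 opp hD hab had hbd Z) Z
    rw [tvc_diag hbc.symm _ hD, h, sub_self, mul_zero, zero_smul, add_zero, tvc_add, tvc_E,
      tvc_E] at h3
    simp only [if_neg hab, if_neg hab.symm, if_neg had, if_neg had.symm, if_neg hbd,
      if_neg hbd.symm, if_neg hac, if_neg hac.symm, if_neg hbc, if_neg hbc.symm, if_neg hcd,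
      if_neg hcd.symm, if_true, add_zero, sub_zero, one_smul] at h3
    rw [← hH']
    refine he.three Z (x := EE R a b) (y := EE R b d) (z := EE R c d)
      (he.d_ab h2 opp hD hab Z) (he.d_ab h2 opp hD hbd Z) (he.d_ab h2 opp hD hcd Z)
      (by rw [add_comm]; exact he.d_path h2 opp hD hab had hbd Z)
      (he.d_cofork h2 opp hD hbd hbc hcd.symm Z) ?_
    have e1 : EE R a b + EE R b d + EE R c d = EE R b d + EE R c d + EE R a b := by abel
    rw [e1]; exact h3

theorem d_all {D : MM n R} (hD : D.IsDiag) (Z : Ω) (B : MM n R) : e Z D B = 0 := by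
  obtain ⟨Q, hQ⟩ := he.quad Z D
  have q1 : ∀ a b, Q (EE R a b) = 0 := by
    intro a b
    rw [← hQ]
    by_cases hab : a = b
    · subst hab
      rw [(he.per_dd hD (EE_isDiag a)).at_zero Z, he.zero_right]
    · exact he.d_ab h2 opp hD hab Z
  have q2 : ∀ a b c d, Q (EE R a b + EE R c d) = 0 := by
    intro a b c d
    rw [← hQ]
    by_cases hab : a = b
    · subst hab
      rw [add_comm, he.per_dd hD (EE_isDiag a) Z, hQ, q1]
    by_cases hcd : c = d
    · subst hcd
      rw [he.per_dd hD (EE_isDiag c) Z, hQ, q1]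
    by_cases hac : a = c
    · subst hac
      by_cases hbd : b = d
      · subst hbd
        rw [← two_smul R (EE R a b), he.smul_right, hQ, q1, smul_zero]
      · exact he.d_fork h2 opp hD hab hcd hbd Z
    by_cases hbd : b = d
    · subst hbd
      exact he.d_cofork h2 opp hD hab hac (fun h => hcd h.symm) Z
    by_cases hbc : b = c
    · subst hbc
      by_cases had : a = d
      · subst had
        exact he.d_opp h2 opp hD hab Z
      · rw [add_comm]
        exact he.d_path h2 opp hD hab had hbd Z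
    by_cases had : a = d
    · subst had
      exact he.d_path h2 opp hD hcd (fun h => hbc h.symm) hab Z
    · rw [add_comm]
      exact he.d_disj h2 opp hD hab hac had hbc hbd hcd Z
  have q3 : ∀ a b c d, polar Q (EE R a b) (EE R c d) = 0 := by
    intro a b c d
    rw [polar, q2, q1, q1]; simp
  have lin : ∀ L : MM n R →ₗ[R] MM n R, (∀ a b, L (EE R a b) = 0) → ∀ M, L M = 0 := by
    intro L hL M
    rw [Matrix.matrix_eq_sum_single M, map_sum]
    refine Finset.sum_eq_zero fun a _ => ?_
    rw [map_sum]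
    refine Finset.sum_eq_zero fun b _ => ?_
    have e2 : Matrix.single a b (M a b) = (M a b) • EE R a b := by
      rw [EE, Matrix.smul_single, smul_eq_mul, mul_one]
    rw [e2, map_smul, hL, smul_zero]
  have q4 : ∀ a b M, polar Q (EE R a b) M = 0 := by
    intro a b M
    exact lin (QuadraticMap.polarBilin Q (EE R a b)) (fun c d => q3 a b c d) M
  have q5 : polar Q B B = 0 := by
    rw [QuadraticMap.polar_comm]
    have := lin ((QuadraticMap.polarBilin Q).flip B) (fun c d => q4 c d B) B
    exact this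
  rw [QuadraticMap.polar_self] at q5
  rw [hQ]
  refine h2 _ ?_
  rw [← q5, ← Nat.cast_smul_eq_nsmul R]
  norm_num

end Sys

end

end Pool.Agent.TH46.NC
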