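import Mathlib
import Pool.Agent.TH46.NC.Q1
import Pool.Agent.TH46.NC.Q4

/-!
Polynomials quadratic in two variables and linear in the others.
-/

set_option linter.all false

namespace Pool.Agent.TH46.NC

open Matrix Pool.Agent.H552R3.PC

universe u

variable {K : Type u} [Field K] {σ : Type*} [DecidableEq σ] {n : ℕ}

omit [DecidableEq σ] in
theorem zero_of_diag [Infinite K] {J : Finset σ} {x : σ} {f : FreeAlgebra K σ}
    (hfx : f ∈ Algebra.adjoin K (FreeAlgebra.ι K '' (insert x (J : Set σ))))
    (hval : ∀ (R : Type u) [Field R] [Algebra K R] (W : σ → Matrix (Fin n) (Fin n) R),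
      (∀ v, v ∉ J → (W v).IsDiag) → FreeAlgebra.lift K W f = 0)
    (X : σ → Matrix (Fin n) (Fin n) K) : FreeAlgebra.lift K X f = 0 := by
  classical
  obtain ⟨c, hc⟩ := scalar_of_diag hfx (fun R _ _ W hW => ⟨0, by rw [hval R W hW, map_zero]⟩) X
  by_cases h0 : c = 0
  · rw [hc, h0, map_zero]
  have hx1 : f * FreeAlgebra.ι K x ∈
      Algebra.adjoin K (FreeAlgebra.ι K '' (insert x (J : Set σ))) :=
    mul_mem hfx (Algebra.subset_adjoin ⟨x, Or.inl rfl, rfl⟩)
  obtain ⟨c', hc'⟩ := scalar_of_diag hx1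
    (fun R _ _ W hW => ⟨0, by rw [map_mul, hval R W hW, zero_mul, map_zero]⟩) X
  rw [map_mul, hc, FreeAlgebra.lift_ι_apply] at hc'
  have hX : (X x).IsDiag := by
    intro i j hij
    have e := congrFun (congrFun hc' i) j
    rw [Matrix.scalar_apply, Matrix.diagonal_mul, Matrix.scalar_apply,
      Matrix.diagonal_apply_ne _ hij] at e
    exact (mul_eq_zero.mp e).resolve_left h0
  have h1 := hval K (fun v => if v = x ∨ v ∈ J then X v else 0) (fun v hv => by
    by_cases e : v = x
    · subst e
      simp only [true_or, if_true]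
      exact hX
    · rw [if_neg (by rintro (h | h); exacts [e h, hv h])]
      exact Matrix.isDiag_zero)
  rw [← h1]
  refine lift_congr hfx _ _ (fun v hv => ?_)
  rw [if_pos]
  rcases hv with h | h
  · exact Or.inl h
  · exact Or.inr h

/-- The substitution. -/
def tup {R : Type*} [CommRing R] (J : Finset σ) (x y : σ) (Z : σ → MM n R) (A B : MM n R) :
    σ → MM n R :=
  fun v => if v = x then A else if v = y then B else if v ∈ J then Z v else 0

/-- The evaluation. -/
noncomputable def ev (J : Finset σ) (x y : σ) (f : FreeAlgebra K σ) {R : Type*} [CommRing R]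
    [Algebra K R] (Z : σ → MM n R) (A B : MM n R) : MM n R :=
  FreeAlgebra.lift K (tup J x y Z A B) f

theorem tup_swap {R : Type*} [CommRing R] {J : Finset σ} {x y : σ} (hxy : x ≠ y)
    (Z : σ → MM n R) (A B : MM n R) : tup J x y Z A B = tup J y x Z B A := by
  funext v
  simp only [tup]
  by_cases h1 : v = x
  · subst h1; simp [hxy]
  · by_cases h2 : v = y
    · subst h2; simp [h1]
    · simp [h1, h2]

theorem ev_swap {J : Finset σ} {x y : σ} (hxy : x ≠ y) (f : FreeAlgebra K σ) {R : Type*}
    [CommRing R] [Algebra K R] (Z : σ → MM n R) (A B : MM n R) :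
    ev J x y f Z A B = ev J y x f Z B A := by
  rw [ev, tup_swap hxy]; rfl

theorem ev_map {J : Finset σ} {x y : σ} (f : FreeAlgebra K σ) {R S : Type*}
    [CommRing R] [Algebra K R] [CommRing S] [Algebra K S] (φ : R →ₐ[K] S)
    (Z : σ → MM n R) (A B : MM n R) :
    φ.mapMatrix (ev J x y f Z A B) =
      ev J x y f (fun v => φ.mapMatrix (Z v)) (φ.mapMatrix A) (φ.mapMatrix B) := by
  rw [ev, lift_map, ev]
  congr 2
  funext v
  simp only [tup]
  split_ifs
  · rfl
  · rfl
  · rfl
  · exact map_zero _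

theorem ev_perm {J : Finset σ} {x y : σ} (f : FreeAlgebra K σ) {R : Type*}
    [CommRing R] [Algebra K R] (π : Equiv.Perm (Fin n))
    (Z : σ → MM n R) (A B : MM n R) :
    ev J x y f (fun v => (Z v).submatrix π π) (A.submatrix π π) (B.submatrix π π) =
      (ev J x y f Z A B).submatrix π π := by
  rw [ev, ev, ← lift_perm]
  congr 2
  funext v
  simp only [tup]
  split_ifs
  · rfl
  · rfl
  · rfl
  · rfl

theorem ev_conj {J : Finset σ} {x y : σ} (f : FreeAlgebra K σ) {R : Type*}
    [CommRing R] [Algebra K R] (P Q : MM n R) (hPQ : P * Q = 1) (hQP : Q * P = 1)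
    (Z : σ → MM n R) (A B : MM n R) :
    ev J x y f (fun v => P * Z v * Q) (P * A * Q) (P * B * Q) = P * ev J x y f Z A B * Q := by
  rw [ev, ev, ← lift_conj P Q hPQ hQP]
  congr 2
  funext v
  simp only [tup]
  split_ifs
  · rfl
  · rfl
  · rfl
  · rw [mul_zero, zero_mul]

/-- The degrees. -/
def dg (x y : σ) : σ → ℕ := fun v => if v = x ∨ v = y then 2 else 1

/-- The hypotheses. -/
structure Quad2 (n : ℕ) (J : Finset σ) (x y : σ) (f : FreeAlgebra K σ) : Prop where
  ne : x ≠ y
  hx : x ∉ J
  hy : y ∉ J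
  hom : HomogIn (insert x (insert y J)) (dg x y) f
  adj : f ∈ Algebra.adjoin K (FreeAlgebra.ι K '' (insert x (insert y (J : Set σ))))
  all : AllR n f

theorem Quad2.swap {J : Finset σ} {x y : σ} {f : FreeAlgebra K σ} (h : Quad2 n J x y f) :
    Quad2 n J y x f where
  ne := h.ne.symm
  hx := h.hy
  hy := h.hx
  hom := by
    have e1 : insert y (insert x J) = insert x (insert y J) := Finset.insert_comm _ _ _
    have e2 : dg y x = dg x y := by
      funext v; simp only [dg, or_comm]
    rw [e1, e2]; exact h.hom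
  adj := by
    have e1 : insert y (insert x (J : Set σ)) = insert x (insert y (J : Set σ)) :=
      Set.insert_comm _ _ _
    rw [e1]; exact h.adj
  all := h.all

theorem Quad2.lin {J : Finset σ} {x y : σ} {f : FreeAlgebra K σ} (h : Quad2 n J x y f) :
    LinIn J f := by
  refine Submodule.span_mono ?_ h.hom
  rintro w ⟨l, hl, rfl⟩
  refine ⟨l, fun v hv => ?_, rfl⟩
  rw [hl v (Finset.mem_insert_of_mem (Finset.mem_insert_of_mem hv)), dg, if_neg]
  rintro (rfl | rfl)
  · exact h.hx hv
  · exact h.hy hv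

theorem tup_update {R : Type*} [CommRing R] {J : Finset σ} {x y : σ} (hxy : x ≠ y)
    (Z : σ → MM n R) (A B C : MM n R) :
    Function.update (tup J x y Z A C) y B = tup J x y Z A B := by
  funext v
  by_cases h1 : v = y
  · subst h1
    rw [Function.update_self]
    simp [tup, hxy.symm]
  · rw [Function.update_of_ne h1]
    simp [tup, h1]

theorem Quad2.quad {J : Finset σ} {x y : σ} {f : FreeAlgebra K σ} (h : Quad2 n J x y f)
    {R : Type*} [CommRing R] [Algebra K R] (Z : σ → MM n R) (A : MM n R) :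
    ∃ Q : QuadraticMap R (MM n R) (MM n R), (∀ B, ev J x y f Z A B = Q B) ∧
      ∀ B N, dv (tup J x y Z A B) y N f = QuadraticMap.polar Q B N := by
  obtain ⟨Q, h1, h2⟩ := quadratic (K := K) (R := R) (A := MM n R) h.hom (v := y)
    (Finset.mem_insert_of_mem (Finset.mem_insert_self _ _)) (by simp [dg]) (tup J x y Z A 0)
  refine ⟨Q, fun B => ?_, fun B N => ?_⟩
  · rw [← h1, tup_update h.ne]; rfl
  · rw [← h2, tup_update h.ne]

theorem tup_isDiag {R : Type*} [CommRing R] {J : Finset σ} {x y : σ}
    (Z : σ → MM n R) {A B : MM n R} (hA : A.IsDiag) (hB : B.IsDiag) (v : σ) (hv : v ∉ J) :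
    (tup J x y Z A B v).IsDiag := by
  simp only [tup, if_neg hv]
  split_ifs
  · exact hA
  · exact hB
  · exact Matrix.isDiag_zero

theorem Quad2.dia [Infinite K] (hn4 : 4 ≤ n) (hodd : Odd n) (hnK : (n : K) ≠ 0)
    {J : Finset σ} {x y : σ} {f : FreeAlgebra K σ} (h : Quad2 n J x y f)
    {R : Type*} [CommRing R] [Algebra K R] (Z : σ → MM n R) (D D' B : MM n R)
    (hD : D.IsDiag) (hD' : D'.IsDiag) :
    ev J x y f Z D (B + D') = ev J x y f Z D B := by
  obtain ⟨Q, h1, h2⟩ := h.quad Z D
  have h3 : Q D' = 0 := by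
    rw [← h1]
    exact value_zero hn4 hodd hnK h.lin (h.all.Pow J) (h.all.Chp J) _
      (tup_isDiag Z hD hD')
  have h4 : QuadraticMap.polar Q B D' = 0 := by
    rw [QuadraticMap.polar_comm, ← h2]
    exact partial_zero1 hn4 hodd hnK h.lin h.all h.hy _ (tup_isDiag Z hD hD') B
  rw [h1, h1, QuadraticMap.map_add (⇑Q), h3, h4, add_zero, add_zero]

/-- The difference of the values at `y + x` and at `y`. -/
noncomputable def gself (x y : σ) (f : FreeAlgebra K σ) : FreeAlgebra K σ :=
  FreeAlgebra.lift K (fun v => if v = y then FreeAlgebra.ι K y + FreeAlgebra.ι K x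
    else FreeAlgebra.ι K v) f - f

theorem gself_mem {J : Finset σ} {x y : σ} {f : FreeAlgebra K σ} (h : Quad2 n J x y f) :
    gself x y f ∈ Algebra.adjoin K (FreeAlgebra.ι K '' (insert x (insert y (J : Set σ)))) := by
  refine sub_mem ?_ h.adj
  have h1 : Algebra.adjoin K (FreeAlgebra.ι K '' (insert x (insert y (J : Set σ)))) ≤
      (Algebra.adjoin K (FreeAlgebra.ι K '' (insert x (insert y (J : Set σ))))).comap
        (FreeAlgebra.lift K (fun v => if v = y then FreeAlgebra.ι K y + FreeAlgebra.ι K x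
          else FreeAlgebra.ι K v)) := by
    refine Algebra.adjoin_le ?_
    rintro _ ⟨v, hv, rfl⟩
    rw [SetLike.mem_coe, Subalgebra.mem_comap, FreeAlgebra.lift_ι_apply]
    split_ifs with e
    · exact add_mem (Algebra.subset_adjoin ⟨y, Or.inr (Or.inl rfl), rfl⟩)
        (Algebra.subset_adjoin ⟨x, Or.inl rfl, rfl⟩)
    · exact Algebra.subset_adjoin ⟨v, hv, rfl⟩
  exact h1 h.adj

theorem gself_val {J : Finset σ} {x y : σ} {f : FreeAlgebra K σ} (h : Quad2 n J x y f)
    {R : Type*} [CommRing R] [Algebra K R] (W : σ → MM n R) :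
    FreeAlgebra.lift K W (gself x y f) =
      ev J x y f W (W x) (W y + W x) - ev J x y f W (W x) (W y) := by
  rw [gself, map_sub, lift_map]
  congr 1
  · rw [ev]
    refine lift_congr h.adj _ _ (fun v hv => ?_)
    simp only [tup]
    by_cases h1 : v = x
    · subst h1
      simp [h.ne]
    · by_cases h2 : v = y
      · subst h2
        simp [h1]
      · have h3 : v ∈ J := by
          rcases hv with h' | h' | h'
          · exact absurd h' h1
          · exact absurd h' h2
          · exact h'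
        simp [h1, h2, h3]
  · rw [ev]
    refine lift_congr h.adj _ _ (fun v hv => ?_)
    simp only [tup]
    by_cases h1 : v = x
    · subst h1
      simp
    · by_cases h2 : v = y
      · subst h2
        simp [h1]
      · have h3 : v ∈ J := by
          rcases hv with h' | h' | h'
          · exact absurd h' h1
          · exact absurd h' h2
          · exact h'
        simp [h1, h2, h3]

theorem ev_tup {J : Finset σ} {x y : σ} (f : FreeAlgebra K σ)
    {R : Type*} [CommRing R] [Algebra K R] (Z : σ → MM n R) (A B C D : MM n R) :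
    ev J x y f (tup J x y Z A B) C D = ev J x y f Z C D := by
  rw [ev, ev]
  congr 2
  funext v
  simp only [tup]
  by_cases e1 : v = x
  · simp [e1]
  · by_cases e2 : v = y
    · simp [e2]
    · by_cases e3 : v ∈ J
      · simp [e1, e2, e3]
      · simp [e1, e2, e3]

theorem Quad2.self [Infinite K] (hn4 : 4 ≤ n) (hodd : Odd n) (hnK : (n : K) ≠ 0)
    {J : Finset σ} {x y : σ} {f : FreeAlgebra K σ} (h : Quad2 n J x y f)
    {R : Type*} [CommRing R] [Algebra K R] (Z : σ → MM n R) (A B : MM n R) :
    ev J x y f Z A (B + A) = ev J x y f Z A B := by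
  have hg0 : ∀ X : σ → MM n K, FreeAlgebra.lift K X (gself x y f) = 0 := by
    refine zero_of_diag (J := insert y J) (x := x) ?_ ?_
    · rw [Finset.coe_insert]; exact gself_mem h
    · intro R _ _ W hW
      rw [gself_val h]
      have hWx : (W x).IsDiag := hW x (by
        rw [Finset.mem_insert, not_or]; exact ⟨h.ne, h.hx⟩)
      rw [h.dia hn4 hodd hnK W (W x) (W x) (W y) hWx hWx, sub_self]
  have h1 := transfer (gself x y f) hg0 (tup J x y Z A B)
  have h2 : tup J x y Z A B x = A := by simp [tup]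
  have h3 : tup J x y Z A B y = B := by simp [tup, h.ne.symm]
  rw [gself_val h, h2, h3, ev_tup, ev_tup] at h1
  exact sub_eq_zero.mp h1

theorem Quad2.symm' [Infinite K] (hn4 : 4 ≤ n) (hodd : Odd n) (hnK : (n : K) ≠ 0)
    {J : Finset σ} {x y : σ} {f : FreeAlgebra K σ} (h : Quad2 n J x y f)
    {R : Type*} [CommRing R] [Algebra K R] (Z : σ → MM n R) (A B : MM n R) :
    ev J x y f Z A B = ev J x y f Z B A := by
  have s1 : ∀ A B : MM n R, ev J x y f Z A (B - A) = ev J x y f Z A B := by
    intro A B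
    have := h.self hn4 hodd hnK Z A (B - A)
    rw [sub_add_cancel] at this
    exact this.symm
  have s2 : ∀ A B : MM n R, ev J x y f Z (A + B) B = ev J x y f Z A B := by
    intro A B
    rw [ev_swap h.ne, ev_swap h.ne]
    exact h.swap.self hn4 hodd hnK Z B A
  have s3 : ∀ A B : MM n R, ev J x y f Z A (-B) = ev J x y f Z A B := by
    intro A B
    obtain ⟨Q, h1, -⟩ := h.quad Z A
    rw [h1, h1, QuadraticMap.map_neg]
  have e1 := s2 A B
  have e2 := s1 (A + B) B
  have e3 : B - (A + B) = -A := by abel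
  rw [e3] at e2
  have e4 := s2 (A + B) (-A)
  have e5 : A + B + -A = B := by abel
  rw [e5, s3, e2, e1] at e4
  exact e4.symm

theorem two_smul_zero (h2K : (2 : K) ≠ 0) {R : Type*} [CommRing R] [Algebra K R] (M : MM n R)
    (h : (2 : R) • M = 0) : M = 0 := by
  have e1 : algebraMap K R (2⁻¹ : K) * 2 = 1 := by
    have : (2 : R) = algebraMap K R 2 := (map_ofNat (algebraMap K R) 2).symm
    rw [this, ← map_mul, inv_mul_cancel₀ h2K, map_one]
  have e2 := congrArg (fun M => algebraMap K R (2⁻¹ : K) • M) h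
  simp only [smul_smul, e1, one_smul, smul_zero] at e2
  exact e2

theorem Quad2.sys [Infinite K] (hn4 : 4 ≤ n) (hodd : Odd n) (hnK : (n : K) ≠ 0)
    {J : Finset σ} {x y : σ} {f : FreeAlgebra K σ} (h : Quad2 n J x y f)
    (R : Type*) [CommRing R] [Algebra K R] :
    Sys (fun (Z : σ → MM n R) A B => ev J x y f Z A B) where
  quad := fun Z A => by
    obtain ⟨Q, h1, -⟩ := h.quad Z A
    exact ⟨Q, h1⟩
  symm := fun Z A B => h.symm' hn4 hodd hnK Z A B
  conj := fun P Q hPQ hQP Z => ⟨fun v => P * Z v * Q, fun A B => ev_conj f P Q hPQ hQP Z A B⟩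
  self := fun Z A B => h.self hn4 hodd hnK Z A B
  dia := fun Z D D' B hD hD' => h.dia hn4 hodd hnK Z D D' B hD hD'

end Pool.Agent.TH46.NC
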