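import Mathlib
import Pool.Agent.TH46.NC.Q2
import Pool.Agent.TH46.NC.Graded

/-!
Values at opposite matrix units.
-/

set_option linter.all false

namespace Pool.Agent.TH46.NC

open Matrix Pool.Agent.H552R3.PC

universe u

variable {K : Type u} [Field K] {σ : Type*} [DecidableEq σ] {n : ℕ}

/-- Tuples of matrix units. -/
def uZ (R : Type*) [CommRing R] (E : σ → Fin n × Fin n) : σ → MM n R :=
  fun v => EE R (E v).1 (E v).2

omit [DecidableEq σ] in
theorem EE_map {R S : Type*} [CommRing R] [CommRing S] [Algebra K R] [Algebra K S]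
    (φ : R →ₐ[K] S) (a b : Fin n) : φ.mapMatrix (EE R a b) = EE S a b := by
  ext1 i j
  rw [AlgHom.mapMatrix_apply, Matrix.map_apply, EE_apply, EE_apply]
  split_ifs
  · exact map_one φ
  · exact map_zero φ

omit [DecidableEq σ] in
theorem EE_sub {R : Type*} [CommRing R] (π : Equiv.Perm (Fin n)) (a b : Fin n) :
    (EE R a b).submatrix π π = EE R (π.symm a) (π.symm b) := by
  ext1 i j
  simp only [Matrix.submatrix_apply, EE_apply, Equiv.symm_apply_eq]

omit [DecidableEq σ] in
theorem EE_hom {R : Type*} [CommRing R] {Γ : Type*} [AddCommGroup Γ] (g : Fin n → Γ)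
    (a b : Fin n) : Hom g (g a - g b) (EE R a b) := Hom.single a b 1

/-- Generic combinations of two matrix units. -/
noncomputable def zz (K : Type u) [Field K] {σ : Type*} (τ : Equiv.Perm (Fin n))
    (E : σ → Fin n × Fin n) (v : σ) : MM n (MvPolynomial (σ ⊕ σ) K) :=
  (MvPolynomial.X (Sum.inl v) : MvPolynomial (σ ⊕ σ) K) • EE _ (E v).1 (E v).2 +
  (MvPolynomial.X (Sum.inr v) : MvPolynomial (σ ⊕ σ) K) • EE _ (τ (E v).1) (τ (E v).2)

/-- The specialisation. -/
noncomputable def sp (K : Type u) [Field K] (σ : Type*) (s t : K) :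
    MvPolynomial (σ ⊕ σ) K →ₐ[K] K :=
  MvPolynomial.aeval (Sum.elim (fun _ => s) (fun _ => t))

omit [DecidableEq σ] in
theorem sp_zz (τ : Equiv.Perm (Fin n)) (E : σ → Fin n × Fin n) (v : σ) (s t : K) :
    (sp K σ s t).mapMatrix (zz K τ E v) =
      s • EE K (E v).1 (E v).2 + t • EE K (τ (E v).1) (τ (E v).2) := by
  ext1 i j
  simp only [zz, AlgHom.mapMatrix_apply, Matrix.map_apply, Matrix.add_apply, Matrix.smul_apply,
    smul_eq_mul, map_add, map_mul, EE_apply, sp, MvPolynomial.aeval_X, Sum.elim_inl, Sum.elim_inr]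
  congr 1
  · split_ifs <;> simp
  · split_ifs <;> simp

theorem LB [Infinite K] (hodd : Odd n) {J : Finset σ} {x y : σ} {f : FreeAlgebra K σ}
    (h : Quad2 n J x y f) {Γ : Type*} [AddCommGroup Γ]
    (g : Fin n → Γ) {i j : Fin n} (hij : i ≠ j)
    (hcol : ∀ p q, p ≠ q → g p = g q → (p = i ∧ q = j) ∨ (p = j ∧ q = i)) (hg : g i = g j)
    {A B : MM n K} {dA dB : Γ} (hA : Hom g dA A) (hB : Hom g dB B)
    (hdiag : ∀ (E : σ → Fin n × Fin n) p, ev J x y f (uZ K E) A B p p = 0)
    (E : σ → Fin n × Fin n) :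
    (ev J x y f (uZ K E) A B) i j *
      (ev J x y f (uZ K E) (A.submatrix (Equiv.swap i j) (Equiv.swap i j))
        (B.submatrix (Equiv.swap i j) (Equiv.swap i j))) i j = 0 := by
  by_contra hne
  have hne1 := left_ne_zero_of_mul hne
  have hne2 := right_ne_zero_of_mul hne
  set τ := Equiv.swap i j with hτ
  have hτg : ∀ p, g (τ p) = g p := by
    intro p
    by_cases hp : p = i
    · rw [hp, hτ, Equiv.swap_apply_left, hg]
    · by_cases hp' : p = j
      · rw [hp', hτ, Equiv.swap_apply_right, hg]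
      · rw [hτ, Equiv.swap_apply_of_ne_of_ne hp hp']
  have hττ : ∀ p, τ (τ p) = p := fun p => by rw [hτ, Equiv.swap_apply_self]
  set R := MvPolynomial (σ ⊕ σ) K with hR
  set ι := Algebra.ofId K R with hι
  set W := tup J x y (zz K τ E) (ι.mapMatrix A) (ι.mapMatrix B) with hW
  set M := ev J x y f (zz K τ E) (ι.mapMatrix A) (ι.mapMatrix B) with hM
  have hMap : ∀ s t : K, (sp K σ s t).mapMatrix M =
      ev J x y f (fun v => s • EE K (E v).1 (E v).2 + t • EE K (τ (E v).1) (τ (E v).2)) A B := by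
    intro s t
    have hc : ∀ C : MM n K, (sp K σ s t).mapMatrix (ι.mapMatrix C) = C := by
      intro C
      ext1 a b
      exact (sp K σ s t).commutes (C a b)
    rw [hM, ev_map, hc, hc]
    congr 1
    funext v
    exact sp_zz τ E v s t
  have hMij : M i j ≠ 0 := by
    intro h0
    apply hne1
    have e1 := congrFun (congrFun (hMap 1 0) i) j
    rw [AlgHom.mapMatrix_apply, Matrix.map_apply, h0, map_zero] at e1
    rw [e1]
    congr 1
    congr 1
    funext v
    rw [uZ]; simp
  have hMji : M j i ≠ 0 := by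
    intro h0
    apply hne2
    have e1 := congrFun (congrFun (hMap 0 1) j) i
    rw [AlgHom.mapMatrix_apply, Matrix.map_apply, h0, map_zero] at e1
    have e2 := congrFun (congrFun (ev_perm (J := J) (x := x) (y := y) f τ (uZ K E)
      (A.submatrix τ τ) (B.submatrix τ τ)) j) i
    have e3 : ∀ C : MM n K, (C.submatrix τ τ).submatrix τ τ = C := by
      intro C
      ext1 a b
      simp only [Matrix.submatrix_apply, hττ]
    rw [e3, e3, Matrix.submatrix_apply, hτ, Equiv.swap_apply_left, Equiv.swap_apply_right,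
      ← hτ] at e2
    rw [← e2, e1]
    congr 1
    congr 1
    funext v
    rw [uZ, EE_sub, hτ, Equiv.symm_swap]
    simp
  have hMd : ∀ p, M p p = 0 := by
    intro p
    have hN := units_lift (R := R) h.lin
      (N := LinearMap.ker (Matrix.entryLinearMap R R p p)) W (fun E' => by
        rw [LinearMap.mem_ker]
        have e1 : mix J E' W = tup J x y (uZ R E') (ι.mapMatrix A) (ι.mapMatrix B) := by
          funext v
          simp only [mix, hW, tup, uZ, EE]
          by_cases hv : v ∈ J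
          · have h1 : v ≠ x := by rintro rfl; exact h.hx hv
            have h2 : v ≠ y := by rintro rfl; exact h.hy hv
            simp [hv, h1, h2]
          · simp [hv]
        have e2 : FreeAlgebra.lift K (mix J E' W) f =
            ι.mapMatrix (ev J x y f (uZ K E') A B) := by
          rw [e1, ev_map]
          have : (fun v => ι.mapMatrix (uZ K E' v)) = uZ R E' := by
            funext v
            exact EE_map ι _ _
          rw [this]; rfl
        rw [e2]
        show ι (ev J x y f (uZ K E') A B p p) = 0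
        rw [hdiag, map_zero])
    exact hN
  have hHom := hom_lift h.hom (h := g) W
    (fun v => if v = x then dA else if v = y then dB else
      if v ∈ J then g (E v).1 - g (E v).2 else 0) (fun v => by
      simp only [hW, tup]
      by_cases h1 : v = x
      · rw [if_pos h1, if_pos h1]
        intro p q hpq
        refine hA p q fun e => hpq ?_
        rw [AlgHom.mapMatrix_apply, Matrix.map_apply, e, map_zero]
      rw [if_neg h1, if_neg h1]
      by_cases h2 : v = y
      · rw [if_pos h2, if_pos h2]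
        intro p q hpq
        refine hB p q fun e => hpq ?_
        rw [AlgHom.mapMatrix_apply, Matrix.map_apply, e, map_zero]
      rw [if_neg h2, if_neg h2]
      by_cases h3 : v ∈ J
      · rw [if_pos h3, if_pos h3, zz]
        refine ((EE_hom g _ _).smul _).add (Hom.smul _ ?_)
        have := EE_hom (R := R) g (τ (E v).1) (τ (E v).2)
        rwa [hτg, hτg] at this
      · rw [if_neg h3, if_neg h3]
        exact Hom.zero) (fun v hv => by
      rw [Finset.mem_insert, not_or, Finset.mem_insert, not_or] at hv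
      rw [if_neg hv.1, if_neg hv.2.1, if_neg hv.2.2])
  have hD := hHom i j hMij
  rw [hg, sub_self] at hD
  rw [← hD] at hHom
  have hsupp : ∀ p q, M p q ≠ 0 → (p = i ∧ q = j) ∨ (p = j ∧ q = i) := by
    intro p q hpq
    by_cases e : p = q
    · subst e; exact absurd (hMd p) hpq
    · exact hcol p q e (sub_eq_zero.mp (hHom p q hpq))
  obtain ⟨m, hm⟩ := hodd
  obtain ⟨c, hc⟩ := pow_scalar f n h.all.pow W
  apply offdiag M hij hMij hMji hsupp m
  have hc' : M ^ n = Matrix.scalar (Fin n) c := hc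
  rw [← hm, hc', Matrix.scalar_apply, Matrix.diagonal_apply_ne _ hij]

theorem grad [Infinite K] [NeZero n] (hn1 : 1 < n) (hnK : (n : K) ≠ 0) {J : Finset σ} {x y : σ}
    {f : FreeAlgebra K σ} (h : Quad2 n J x y f) (g : σ → Fin n)
    (hg : ∀ v, v ∉ insert x (insert y J) → g v = 0) (W : σ → MM n K)
    (hW : ∀ v i j, W v i j ≠ 0 → j - i = g v) (p : Fin n)
    (hp : FreeAlgebra.lift K W f p p ≠ 0) :
    ∃ ω a : K, ω ≠ 1 ∧ ω ≠ 0 ∧ a ≠ 0 ∧
      FreeAlgebra.lift K W f = a • Matrix.diagonal fun i : Fin n => ω ^ (i : ℕ) := by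
  have hHom := hom_lift h.hom (h := (id : Fin n → Fin n)) W (fun v => -g v) (fun v => by
      intro i j hij
      rw [← hW v i j hij]; simp) (fun v hv => by rw [hg v hv, neg_zero])
  have hD := hHom p p hp
  rw [sub_self] at hD
  have hsum : ∑ v ∈ insert x (insert y J), dg x y v • g v = 0 := by
    simp only [smul_neg, Finset.sum_neg_distrib] at hD
    exact neg_eq_zero.mp hD.symm
  rcases graded_value h.hom g hg hsum (pow_scalar f n h.all.pow _)
    (fun i hi hin => transfer_charpoly f i (fun X => h.all.chp X i hi hin) _) hn1 hnK with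
    h' | ⟨ω, h1, h2, h3⟩
  · exact absurd (by rw [h' W hW]; rfl) hp
  · obtain ⟨a, ha⟩ := h3 W hW
    refine ⟨ω, a, h2, ?_, ?_, ha⟩
    · rintro rfl
      rw [zero_pow (by omega)] at h1
      exact zero_ne_one h1
    · rintro rfl
      rw [ha, zero_smul] at hp
      exact hp rfl

/-- The diagonal entries vanish, special positions. -/
theorem diag00 [Infinite K] [NeZero n] (hn5 : 5 ≤ n) (hnK : (n : K) ≠ 0) {J : Finset σ} {x y : σ}
    {f : FreeAlgebra K σ} (h : Quad2 n J x y f) {i0 i1 i2 : Fin n} (h0 : (i0 : ℕ) = 0)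
    (h1 : (i1 : ℕ) = 1) (h2 : (i2 : ℕ) = 2) {A B : MM n K}
    (hA : ∀ i j, A i j ≠ 0 → (i = i0 ∧ j = i1) ∨ (i = i1 ∧ j = i2))
    (hB : ∀ i j, B i j ≠ 0 → (i = i1 ∧ j = i0) ∨ (i = i2 ∧ j = i1))
    (E : σ → Fin n × Fin n) (p : Fin n) (hp : ev J x y f (uZ K E) A B p p ≠ 0) :
    ∃ ω a : K, ω ≠ 1 ∧ ω ≠ 0 ∧ a ≠ 0 ∧
      ev J x y f (uZ K E) A B = a • Matrix.diagonal fun i : Fin n => ω ^ (i : ℕ) := by
  have e0 : i0 = 0 := Fin.ext (by rw [h0]; rfl)
  have e11 : i1 + i1 = i2 := by
    apply Fin.ext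
    rw [Fin.val_add, h1, h2]
    exact Nat.mod_eq_of_lt (by omega)
  refine grad (by omega) hnK h (fun v => if v = x then i1 else if v = y then -i1 else
    if v ∈ J then (E v).2 - (E v).1 else 0) ?_ _ ?_ p hp
  · intro v hv
    rw [Finset.mem_insert, not_or, Finset.mem_insert, not_or] at hv
    rw [if_neg hv.1, if_neg hv.2.1, if_neg hv.2.2]
  · intro v i j hij
    simp only [tup] at hij
    by_cases h1 : v = x
    · rw [if_pos h1] at hij ⊢
      rcases hA i j hij with ⟨rfl, rfl⟩ | ⟨rfl, rfl⟩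
      · rw [e0, sub_zero]
      · rw [← e11]; abel
    rw [if_neg h1] at hij ⊢
    by_cases h2 : v = y
    · rw [if_pos h2] at hij ⊢
      rcases hB i j hij with ⟨rfl, rfl⟩ | ⟨rfl, rfl⟩
      · rw [e0, zero_sub]
      · rw [← e11]; abel
    rw [if_neg h2] at hij ⊢
    by_cases h3 : v ∈ J
    · rw [if_pos h3] at hij ⊢
      rw [uZ, EE_apply] at hij
      by_cases h4 : (E v).1 = i ∧ (E v).2 = j
      · rw [h4.1, h4.2]
      · rw [if_neg h4] at hij; exact absurd rfl hij
    · rw [if_neg h3] at hij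
      exact absurd rfl hij

theorem diag01 [Infinite K] [NeZero n] (hn5 : 5 ≤ n) (hnK : (n : K) ≠ 0) {J : Finset σ} {x y : σ}
    {f : FreeAlgebra K σ} (h : Quad2 n J x y f) {i0 i1 i2 : Fin n} (h0 : (i0 : ℕ) = 0)
    (h1 : (i1 : ℕ) = 1) (h2 : (i2 : ℕ) = 2) {A B : MM n K}
    (hA : ∀ i j, A i j ≠ 0 → (i = i0 ∧ j = i1) ∨ (i = i1 ∧ j = i2))
    (hB : ∀ i j, B i j ≠ 0 → (i = i1 ∧ j = i0) ∨ (i = i2 ∧ j = i1))
    (E : σ → Fin n × Fin n) (p : Fin n) : ev J x y f (uZ K E) A B p p = 0 := by
  by_contra hp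
  set i3 : Fin n := ⟨3, by omega⟩ with hi3
  set i4 : Fin n := ⟨4, by omega⟩ with hi4
  have v3 : (i3 : ℕ) = 3 := rfl
  have v4 : (i4 : ℕ) = 4 := rfl
  set π := Equiv.swap i3 i4 with hπ
  have f0 : π i0 = i0 := Equiv.swap_apply_of_ne_of_ne
    (fun e => by rw [e, v3] at h0; omega) (fun e => by rw [e, v4] at h0; omega)
  have f1 : π i1 = i1 := Equiv.swap_apply_of_ne_of_ne
    (fun e => by rw [e, v3] at h1; omega) (fun e => by rw [e, v4] at h1; omega)
  have f2 : π i2 = i2 := Equiv.swap_apply_of_ne_of_ne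
    (fun e => by rw [e, v3] at h2; omega) (fun e => by rw [e, v4] at h2; omega)
  obtain ⟨ω, a, hω, hω0, ha, hM⟩ := diag00 hn5 hnK h h0 h1 h2 hA hB E p hp
  set A' := A.submatrix π π with hA'
  set B' := B.submatrix π π with hB'
  have hA2 : ∀ i j, A' i j ≠ 0 → (i = i0 ∧ j = i1) ∨ (i = i1 ∧ j = i2) := by
    intro i j hij
    rcases hA _ _ hij with ⟨e1, e2⟩ | ⟨e1, e2⟩
    · left
      exact ⟨π.injective (by rw [f0]; exact e1), π.injective (by rw [f1]; exact e2)⟩
    · right
      exact ⟨π.injective (by rw [f1]; exact e1), π.injective (by rw [f2]; exact e2)⟩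
  have hB2 : ∀ i j, B' i j ≠ 0 → (i = i1 ∧ j = i0) ∨ (i = i2 ∧ j = i1) := by
    intro i j hij
    rcases hB _ _ hij with ⟨e1, e2⟩ | ⟨e1, e2⟩
    · left
      exact ⟨π.injective (by rw [f1]; exact e1), π.injective (by rw [f0]; exact e2)⟩
    · right
      exact ⟨π.injective (by rw [f2]; exact e1), π.injective (by rw [f1]; exact e2)⟩
  set E' : σ → Fin n × Fin n := fun v => (π.symm (E v).1, π.symm (E v).2) with hE'
  have key : ev J x y f (uZ K E') A' B' = (ev J x y f (uZ K E) A B).submatrix π π := by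
    rw [← ev_perm]
    congr 1
    funext v
    rw [uZ, uZ, EE_sub]
  have hp' : ev J x y f (uZ K E') A' B' (π.symm p) (π.symm p) ≠ 0 := by
    rw [key, Matrix.submatrix_apply, Equiv.apply_symm_apply]
    exact hp
  obtain ⟨ω', a', hω', hω0', ha', hM'⟩ := diag00 hn5 hnK h h0 h1 h2 hA2 hB2 E' _ hp'
  rw [hM, hM'] at key
  have k0 := congrFun (congrFun key i0) i0
  have k1 := congrFun (congrFun key i1) i1
  have k3 := congrFun (congrFun key i3) i3
  have f3 : π i3 = i4 := Equiv.swap_apply_left _ _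
  rw [Matrix.submatrix_apply, f0] at k0
  rw [Matrix.submatrix_apply, f1] at k1
  rw [Matrix.submatrix_apply, f3] at k3
  simp only [Matrix.smul_apply, Matrix.diagonal_apply_eq, smul_eq_mul, h0, h1, v3, v4, pow_zero,
    mul_one, pow_one] at k0 k1 k3
  subst k0
  have k2 := mul_left_cancel₀ ha k1
  subst k2
  have k4 := mul_left_cancel₀ ha k3
  apply hω
  have : ω' ^ 3 * 1 = ω' ^ 3 * ω' := by rw [mul_one, ← pow_succ]; exact k4
  exact (mul_left_cancel₀ (pow_ne_zero 3 hω0) this).symm

end Pool.Agent.TH46.NC
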