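import Mathlib
import Pool.Agent.TH46.NC.Q5

/-!
Polynomials quadratic in two variables and linear in the others: vanishing.
-/

set_option linter.all false

namespace Pool.Agent.TH46.NC

open Matrix Pool.Agent.H552R3.PC

universe u

variable {K : Type u} [Field K] {σ : Type*} [DecidableEq σ] {n : ℕ}

omit [Field K] [DecidableEq σ] in
theorem perm3 {i0 i1 i2 a b c : Fin n} (h01 : i0 ≠ i1) (h02 : i0 ≠ i2) (h12 : i1 ≠ i2)
    (hab : a ≠ b) (hac : a ≠ c) (hbc : b ≠ c) :
    ∃ π : Equiv.Perm (Fin n), π i0 = a ∧ π i1 = b ∧ π i2 = c := by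
  set π1 := Equiv.swap i0 a with hπ1
  have p10 : π1 i0 = a := Equiv.swap_apply_left _ _
  set b' := π1.symm b with hb'
  have hb0 : b' ≠ i0 := by
    intro e
    apply hab
    rw [← p10, ← e, hb', Equiv.apply_symm_apply]
  set π2 := (Equiv.swap i1 b').trans π1 with hπ2
  have p20 : π2 i0 = a := by
    rw [hπ2, Equiv.trans_apply, Equiv.swap_apply_of_ne_of_ne h01 hb0.symm, p10]
  have p21 : π2 i1 = b := by
    rw [hπ2, Equiv.trans_apply, Equiv.swap_apply_left, hb', Equiv.apply_symm_apply]
  set c' := π2.symm c with hc'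
  have hc0 : c' ≠ i0 := by
    intro e
    apply hac
    rw [← p20, ← e, hc', Equiv.apply_symm_apply]
  have hc1 : c' ≠ i1 := by
    intro e
    apply hbc
    rw [← p21, ← e, hc', Equiv.apply_symm_apply]
  refine ⟨(Equiv.swap i2 c').trans π2, ?_, ?_, ?_⟩
  · rw [Equiv.trans_apply, Equiv.swap_apply_of_ne_of_ne h02 hc0.symm, p20]
  · rw [Equiv.trans_apply, Equiv.swap_apply_of_ne_of_ne h12 hc1.symm, p21]
  · rw [Equiv.trans_apply, Equiv.swap_apply_left, hc', Equiv.apply_symm_apply]

/-- The diagonal entries vanish. -/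
theorem diag0 [Infinite K] (hn5 : 5 ≤ n) (hnK : (n : K) ≠ 0) {J : Finset σ} {x y : σ}
    {f : FreeAlgebra K σ} (h : Quad2 n J x y f) {a b c : Fin n} (hab : a ≠ b) (hac : a ≠ c)
    (hbc : b ≠ c) {A B : MM n K}
    (hA : ∀ i j, A i j ≠ 0 → (i = a ∧ j = b) ∨ (i = b ∧ j = c))
    (hB : ∀ i j, B i j ≠ 0 → (i = b ∧ j = a) ∨ (i = c ∧ j = b))
    (E : σ → Fin n × Fin n) (p : Fin n) : ev J x y f (uZ K E) A B p p = 0 := by
  have : NeZero n := ⟨by omega⟩
  set i0 : Fin n := ⟨0, by omega⟩ with hi0
  set i1 : Fin n := ⟨1, by omega⟩ with hi1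
  set i2 : Fin n := ⟨2, by omega⟩ with hi2
  have n01 : i0 ≠ i1 := by simp [hi0, hi1, Fin.ext_iff]
  have n02 : i0 ≠ i2 := by simp [hi0, hi2, Fin.ext_iff]
  have n12 : i1 ≠ i2 := by simp [hi1, hi2, Fin.ext_iff]
  obtain ⟨π, h0, h1, h2⟩ := perm3 n01 n02 n12 hab hac hbc
  have key := diag01 hn5 hnK h (i0 := i0) (i1 := i1) (i2 := i2) rfl rfl rfl
    (A := A.submatrix π π) (B := B.submatrix π π) (fun i j hij => by
      rcases hA _ _ hij with ⟨e1, e2⟩ | ⟨e1, e2⟩
      · left
        exact ⟨π.injective (by rw [h0]; exact e1), π.injective (by rw [h1]; exact e2)⟩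
      · right
        exact ⟨π.injective (by rw [h1]; exact e1), π.injective (by rw [h2]; exact e2)⟩)
    (fun i j hij => by
      rcases hB _ _ hij with ⟨e1, e2⟩ | ⟨e1, e2⟩
      · left
        exact ⟨π.injective (by rw [h1]; exact e1), π.injective (by rw [h0]; exact e2)⟩
      · right
        exact ⟨π.injective (by rw [h2]; exact e1), π.injective (by rw [h1]; exact e2)⟩)
    (fun v => (π.symm (E v).1, π.symm (E v).2)) (π.symm p)
  have e1 : uZ K (fun v => (π.symm (E v).1, π.symm (E v).2)) =
      fun v => (uZ K E v).submatrix π π := by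
    funext v
    rw [uZ, uZ, EE_sub]
  rw [e1, ev_perm, Matrix.submatrix_apply, Equiv.apply_symm_apply] at key
  exact key

theorem exists_third (hn5 : 5 ≤ n) (a b : Fin n) : ∃ c : Fin n, a ≠ c ∧ b ≠ c := by
  have : ∃ c : Fin n, c ∉ ({a, b} : Finset (Fin n)) := by
    by_contra hcon
    push Not at hcon
    have h1 : (Finset.univ : Finset (Fin n)) ⊆ {a, b} := fun c _ => hcon c
    have h2 := Finset.card_le_card h1
    rw [Finset.card_univ, Fintype.card_fin] at h2
    have h3 := Finset.card_le_two (a := a) (b := b)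
    omega
  obtain ⟨c, hc⟩ := this
  simp only [Finset.mem_insert, Finset.mem_singleton, not_or] at hc
  exact ⟨c, fun e => hc.1 e.symm, fun e => hc.2 e.symm⟩

theorem diagE [Infinite K] (hn5 : 5 ≤ n) (hnK : (n : K) ≠ 0) {J : Finset σ} {x y : σ}
    {f : FreeAlgebra K σ} (h : Quad2 n J x y f) {a b : Fin n} (hab : a ≠ b)
    (E : σ → Fin n × Fin n) (p : Fin n) :
    ev J x y f (uZ K E) (EE K a b) (EE K b a) p p = 0 := by
  obtain ⟨c, hac, hbc⟩ := exists_third hn5 a b
  refine diag0 hn5 hnK h hab hac hbc ?_ ?_ E p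
  · intro i j hij
    left
    rw [EE_apply] at hij
    by_cases h4 : a = i ∧ b = j
    · exact ⟨h4.1.symm, h4.2.symm⟩
    · rw [if_neg h4] at hij; exact absurd rfl hij
  · intro i j hij
    left
    rw [EE_apply] at hij
    by_cases h4 : b = i ∧ a = j
    · exact ⟨h4.1.symm, h4.2.symm⟩
    · rw [if_neg h4] at hij; exact absurd rfl hij

/-- The collapse of two indices. -/
def hZ (i j : Fin n) : Fin n → ℤ := fun p => if p = j then (i.val : ℤ) else p.val

theorem hZ_col {i j : Fin n} (hij : i ≠ j) : (∀ p q, p ≠ q → hZ i j p = hZ i j q →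
    (p = i ∧ q = j) ∨ (p = j ∧ q = i)) ∧ hZ i j i = hZ i j j := by
  constructor
  · intro p q hpq he
    by_cases hp : p = j
    · by_cases hq : q = j
      · exact absurd (hp.trans hq.symm) hpq
      · right
        refine ⟨hp, ?_⟩
        simp only [hZ, if_pos hp, if_neg hq] at he
        exact Fin.ext (by exact_mod_cast he.symm)
    · by_cases hq : q = j
      · left
        refine ⟨?_, hq⟩
        simp only [hZ, if_pos hq, if_neg hp] at he
        exact Fin.ext (by exact_mod_cast he)
      · exfalso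
        simp only [hZ, if_neg hp, if_neg hq] at he
        exact hpq (Fin.ext (by exact_mod_cast he))
  · simp only [hZ, if_neg hij, if_true]

theorem opp_LB [Infinite K] (hn5 : 5 ≤ n) (hodd : Odd n) (hnK : (n : K) ≠ 0) {J : Finset σ}
    {x y : σ} {f : FreeAlgebra K σ} (h : Quad2 n J x y f) {a b : Fin n} (hab : a ≠ b)
    (E : σ → Fin n × Fin n) {i j : Fin n} (hij : i ≠ j) :
    (ev J x y f (uZ K E) (EE K a b) (EE K b a)) i j *
      (ev J x y f (uZ K E) (EE K (Equiv.swap i j a) (Equiv.swap i j b))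
        (EE K (Equiv.swap i j b) (Equiv.swap i j a))) i j = 0 := by
  have := LB hodd h (hZ i j) hij (hZ_col hij).1 (hZ_col hij).2 (EE_hom (R := K) (hZ i j) a b)
    (EE_hom (R := K) (hZ i j) b a) (fun E p => diagE hn5 hnK h hab E p) E
  rwa [EE_sub, EE_sub, Equiv.symm_swap] at this

theorem opp_same [Infinite K] (hn5 : 5 ≤ n) (hodd : Odd n) (hnK : (n : K) ≠ 0) {J : Finset σ}
    {x y : σ} {f : FreeAlgebra K σ} (h : Quad2 n J x y f) {a b : Fin n} (hab : a ≠ b)
    (E : σ → Fin n × Fin n) {i j : Fin n} (hij : i ≠ j)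
    (hc : (Equiv.swap i j a = a ∧ Equiv.swap i j b = b) ∨
      (Equiv.swap i j a = b ∧ Equiv.swap i j b = a)) :
    (ev J x y f (uZ K E) (EE K a b) (EE K b a)) i j = 0 := by
  have h1 := opp_LB hn5 hodd hnK h hab E hij
  rcases hc with ⟨e1, e2⟩ | ⟨e1, e2⟩
  · rw [e1, e2] at h1
    exact mul_self_eq_zero.mp h1
  · have hs : ev J x y f (uZ K E) (EE K b a) (EE K a b) =
        ev J x y f (uZ K E) (EE K a b) (EE K b a) := h.symm' (by omega) hodd hnK _ _ _
    rw [e1, e2, hs] at h1
    exact mul_self_eq_zero.mp h1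

/-- The second grading. -/
def hW (a b c : Fin n) : Fin n → ZMod 2 × ℤ := fun p =>
  (if p = b then 1 else 0, if p = c ∨ p = b then (a.val : ℤ) else p.val)

theorem hW_col {a b c : Fin n} (hab : a ≠ b) (hac : a ≠ c) (hbc : b ≠ c) :
    (∀ p q, p ≠ q → hW a b c p = hW a b c q → (p = a ∧ q = c) ∨ (p = c ∧ q = a)) ∧
    hW a b c a = hW a b c c ∧ hW a b c a - hW a b c b = hW a b c b - hW a b c c := by
  refine ⟨?_, ?_, ?_⟩
  · intro p q hpq he
    have e1 := congrArg Prod.fst he
    have e2 := congrArg Prod.snd he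
    simp only [hW] at e1 e2
    by_cases hp : p = b
    · by_cases hq : q = b
      · exact absurd (hp.trans hq.symm) hpq
      · rw [if_pos hp, if_neg hq] at e1
        exact absurd e1 one_ne_zero
    · by_cases hq : q = b
      · rw [if_neg hp, if_pos hq] at e1
        exact absurd e1.symm one_ne_zero
      · simp only [hp, hq, or_false] at e2
        by_cases hp' : p = c
        · by_cases hq' : q = c
          · exact absurd (hp'.trans hq'.symm) hpq
          · rw [if_pos hp', if_neg hq'] at e2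
            right
            exact ⟨hp', Fin.ext (by exact_mod_cast e2.symm)⟩
        · by_cases hq' : q = c
          · rw [if_neg hp', if_pos hq'] at e2
            left
            exact ⟨Fin.ext (by exact_mod_cast e2), hq'⟩
          · rw [if_neg hp', if_neg hq'] at e2
            exact absurd (Fin.ext (by exact_mod_cast e2)) hpq
  · simp [hW, hab, hac, hbc.symm]
  · simp only [hW, hab, hac, hbc, hbc.symm, if_false, if_true, or_false, true_or, or_true,
      Prod.mk_sub_mk, sub_self]
    rfl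

theorem opp_mixed [Infinite K] (hn5 : 5 ≤ n) (hodd : Odd n) (hnK : (n : K) ≠ 0)
    (h2K : (2 : K) ≠ 0) {J : Finset σ}
    {x y : σ} {f : FreeAlgebra K σ} (h : Quad2 n J x y f) {a b c : Fin n} (hab : a ≠ b)
    (hac : a ≠ c) (hbc : b ≠ c) (E : σ → Fin n × Fin n) {i j : Fin n}
    (hc : (i = a ∧ j = c) ∨ (i = c ∧ j = a)) :
    (ev J x y f (uZ K E) (EE K a b) (EE K b a)) i j = 0 := by
  have he := h.sys (by omega) hodd hnK K
  have h2 : ∀ M : MM n K, (2 : K) • M = 0 → M = 0 := fun M hM => two_smul_zero h2K M hM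
  have hij : i ≠ j := by
    rcases hc with ⟨rfl, rfl⟩ | ⟨rfl, rfl⟩
    · exact hac
    · exact hac.symm
  have hsw : Equiv.swap i j = Equiv.swap a c := by
    rcases hc with ⟨rfl, rfl⟩ | ⟨rfl, rfl⟩
    · rfl
    · exact Equiv.swap_comm _ _
  have sa : Equiv.swap i j a = c := by rw [hsw, Equiv.swap_apply_left]
  have sc : Equiv.swap i j c = a := by rw [hsw, Equiv.swap_apply_right]
  have sb : Equiv.swap i j b = b := by
    rw [hsw, Equiv.swap_apply_of_ne_of_ne hab.symm hbc]
  set e : (σ → MM n K) → MM n K → MM n K → MM n K := fun Z A B => ev J x y f Z A B with he'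
  have h1 := opp_LB hn5 hodd hnK h hab E hij
  rw [sa, sb] at h1
  change e (uZ K E) (EE K a b) (EE K b a) i j * e (uZ K E) (EE K c b) (EE K b c) i j = 0 at h1
  rw [he.symm _ (EE K c b)] at h1
  -- periods
  have p1 : Per e (EE K a b) (EE K c b) := he.per_cofork h2 hac hab hbc.symm
  have p2 : Per e (EE K b c) (EE K b a) := he.per_fork h2 hac.symm hbc.symm hab
  have p3 : Per e (EE K b a) (EE K b c) := he.per_fork h2 hac hab hbc.symm
  have p4 : Per e (EE K c b) (EE K a b) := he.per_cofork h2 hac.symm hbc.symm hab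
  obtain ⟨g1, g2, g3⟩ := hW_col hab hac hbc
  have g1' : ∀ p q, p ≠ q → hW a b c p = hW a b c q → (p = i ∧ q = j) ∨ (p = j ∧ q = i) := by
    intro p q hpq hh
    rcases hc with ⟨rfl, rfl⟩ | ⟨rfl, rfl⟩
    · exact g1 p q hpq hh
    · exact (g1 p q hpq hh).symm
  have g2' : hW a b c i = hW a b c j := by
    rcases hc with ⟨rfl, rfl⟩ | ⟨rfl, rfl⟩
    · exact g2
    · exact g2.symm
  have hApos : ∀ i j, (EE K a b + EE K b c) i j ≠ 0 → (i = a ∧ j = b) ∨ (i = b ∧ j = c) := by
    intro i j hij
    rw [Matrix.add_apply, EE_apply, EE_apply] at hij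
    by_cases h4 : a = i ∧ b = j
    · exact Or.inl ⟨h4.1.symm, h4.2.symm⟩
    · by_cases h5 : b = i ∧ c = j
      · exact Or.inr ⟨h5.1.symm, h5.2.symm⟩
      · rw [if_neg h4, if_neg h5, add_zero] at hij; exact absurd rfl hij
  have hBpos : ∀ t : K, ∀ i j, (EE K b a + t • EE K c b) i j ≠ 0 →
      (i = b ∧ j = a) ∨ (i = c ∧ j = b) := by
    intro t i j hij
    rw [Matrix.add_apply, Matrix.smul_apply, EE_apply, EE_apply] at hij
    by_cases h4 : b = i ∧ a = j
    · exact Or.inl ⟨h4.1.symm, h4.2.symm⟩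
    · by_cases h5 : c = i ∧ b = j
      · exact Or.inr ⟨h5.1.symm, h5.2.symm⟩
      · rw [if_neg h4, if_neg h5, smul_zero, add_zero] at hij; exact absurd rfl hij
  have hAh : Hom (hW a b c) (hW a b c a - hW a b c b) (EE K a b + EE K b c) := by
    refine (EE_hom _ a b).add ?_
    rw [g3]
    exact EE_hom _ b c
  have hBh : ∀ t : K, Hom (hW a b c) (hW a b c b - hW a b c a) (EE K b a + t • EE K c b) := by
    intro t
    refine (EE_hom _ b a).add (Hom.smul t ?_)
    have e1 : hW a b c b - hW a b c a = hW a b c c - hW a b c b := by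
      rw [← neg_sub (hW a b c a), g3, neg_sub]
    rw [e1]
    exact EE_hom _ c b
  have lb : ∀ t : K, e (uZ K E) (EE K a b + EE K b c) (EE K b a + t • EE K c b) i j *
      e (uZ K E) (EE K c b + EE K b a) (EE K b c + t • EE K a b) i j = 0 := by
    intro t
    have := LB hodd h (hW a b c) hij g1' g2' hAh (hBh t)
      (fun E p => diag0 hn5 hnK h hab hac hbc hApos (hBpos t) E p) E
    have s1 : (EE K a b + EE K b c).submatrix (Equiv.swap i j) (Equiv.swap i j) =
        EE K c b + EE K b a := by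
      have e1 := EE_sub (R := K) (Equiv.swap i j) a b
      have e2 := EE_sub (R := K) (Equiv.swap i j) b c
      rw [Equiv.symm_swap, sa, sb] at e1
      rw [Equiv.symm_swap, sb, sc] at e2
      rw [← e1, ← e2]; rfl
    have s2 : (EE K b a + t • EE K c b).submatrix (Equiv.swap i j) (Equiv.swap i j) =
        EE K b c + t • EE K a b := by
      have e1 := EE_sub (R := K) (Equiv.swap i j) b a
      have e2 := EE_sub (R := K) (Equiv.swap i j) c b
      rw [Equiv.symm_swap, sa, sb] at e1
      rw [Equiv.symm_swap, sb, sc] at e2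
      rw [← e1, ← e2]; rfl
    rw [s1, s2] at this
    exact this
  set Z := uZ K E with hZ
  set lam := e Z (EE K a b) (EE K b a) i j with hlam
  set nu := e Z (EE K b c) (EE K c b) i j with hnu
  set q := e Z (EE K a b + EE K b c) (EE K b a + EE K c b) i j with hq
  set q' := e Z (EE K a b + EE K b c) (EE K b a - EE K c b) i j with hq'
  set r := e Z (EE K b c - EE K a b) (EE K c b + EE K b a) i j with hr
  have k1 := lb 1
  have k2 := lb (-1)
  rw [one_smul, one_smul, he.symm _ (EE K c b + EE K b a), add_comm (EE K b c) (EE K a b),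
    add_comm (EE K c b) (EE K b a)] at k1
  rw [neg_smul, neg_smul, one_smul, one_smul, ← sub_eq_add_neg, ← sub_eq_add_neg,
    he.symm _ (EE K c b + EE K b a)] at k2
  have m1 := he.par_left Z (EE K b c) (EE K a b) (EE K c b + EE K b a)
  have m2 := he.par_right Z (EE K a b + EE K b c) (EE K b a) (EE K c b)
  rw [p2 Z, add_comm (EE K c b) (EE K b a), p1 Z] at m1
  rw [he.symm Z (EE K a b + EE K b c) (EE K b a), p3 Z, he.symm Z (EE K b a) (EE K a b),
    he.symm Z (EE K a b + EE K b c) (EE K c b), add_comm (EE K a b) (EE K b c), p4 Z,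
    he.symm Z (EE K c b) (EE K b c)] at m2
  have n1 := congrFun (congrFun m1 i) j
  have n2 := congrFun (congrFun m2 i) j
  simp only [Matrix.add_apply, Matrix.smul_apply, smul_eq_mul] at n1 n2
  rw [add_comm (EE K b c) (EE K a b), ← hnu, ← hlam, ← hq, add_comm (EE K b a) (EE K c b),
    ← hr] at n1
  rw [add_comm (EE K b c) (EE K a b), ← hnu, ← hlam, ← hq, ← hq'] at n2
  rw [← hq] at k1
  rw [← hq', ← hr] at k2
  have hq0 : q = 0 := mul_self_eq_zero.mp k1
  have hrq : r = q' := by
    have : q + r = q + q' := by rw [n1, n2]; ring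
    exact add_left_cancel this
  rw [hrq] at k2
  have hq0' : q' = 0 := mul_self_eq_zero.mp k2
  rw [hq0, hq0', add_zero] at n2
  have h5 : 2 * (lam + nu) = 0 := by rw [mul_add]; exact n2.symm
  have h6 : lam + nu = 0 := (mul_eq_zero.mp h5).resolve_left h2K
  have h7 : nu = -lam := by linear_combination h6
  rw [h7, mul_neg, neg_eq_zero] at h1
  exact mul_self_eq_zero.mp h1

theorem opp_K [Infinite K] (hn5 : 5 ≤ n) (hodd : Odd n) (hnK : (n : K) ≠ 0)
    (h2K : (2 : K) ≠ 0) {J : Finset σ}
    {x y : σ} {f : FreeAlgebra K σ} (h : Quad2 n J x y f) {a b : Fin n} (hab : a ≠ b)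
    (E : σ → Fin n × Fin n) : ev J x y f (uZ K E) (EE K a b) (EE K b a) = 0 := by
  have hs : ∀ a b, ev J x y f (uZ K E) (EE K b a) (EE K a b) =
    ev J x y f (uZ K E) (EE K a b) (EE K b a) := fun a b => h.symm' (by omega) hodd hnK _ _ _
  ext1 i j
  rw [Matrix.zero_apply]
  by_cases hij : i = j
  · subst hij
    exact diagE hn5 hnK h hab E i
  by_cases hia : i = a
  · subst hia
    by_cases hjb : j = b
    · subst hjb
      exact opp_same hn5 hodd hnK h hab E hij
        (Or.inr ⟨Equiv.swap_apply_left _ _, Equiv.swap_apply_right _ _⟩)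
    · exact opp_mixed hn5 hodd hnK h2K h hab hij (fun e => hjb e.symm) E (Or.inl ⟨rfl, rfl⟩)
  by_cases hib : i = b
  · subst hib
    by_cases hja : j = a
    · subst hja
      exact opp_same hn5 hodd hnK h hab E hij
        (Or.inr ⟨Equiv.swap_apply_right _ _, Equiv.swap_apply_left _ _⟩)
    · rw [← hs]
      exact opp_mixed hn5 hodd hnK h2K h hab.symm hij (fun e => hja e.symm) E (Or.inl ⟨rfl, rfl⟩)
  by_cases hja : j = a
  · subst hja
    exact opp_mixed hn5 hodd hnK h2K h hab (fun e => hia e.symm) (fun e => hib e.symm) E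
      (Or.inr ⟨rfl, rfl⟩)
  by_cases hjb : j = b
  · subst hjb
    rw [← hs]
    exact opp_mixed hn5 hodd hnK h2K h hab.symm (fun e => hib e.symm) (fun e => hia e.symm) E
      (Or.inr ⟨rfl, rfl⟩)
  exact opp_same hn5 hodd hnK h hab E hij
    (Or.inl ⟨Equiv.swap_apply_of_ne_of_ne (fun e => hia e.symm) (fun e => hja e.symm),
      Equiv.swap_apply_of_ne_of_ne (fun e => hib e.symm) (fun e => hjb e.symm)⟩)

theorem opp_R [Infinite K] (hn5 : 5 ≤ n) (hodd : Odd n) (hnK : (n : K) ≠ 0)
    (h2K : (2 : K) ≠ 0) {J : Finset σ}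
    {x y : σ} {f : FreeAlgebra K σ} (h : Quad2 n J x y f) {a b : Fin n} (hab : a ≠ b)
    {R : Type*} [CommRing R] [Algebra K R] (Z : σ → MM n R) :
    ev J x y f Z (EE R a b) (EE R b a) = 0 := by
  have hN := units_lift (R := R) h.lin (N := ⊥) (tup J x y Z (EE R a b) (EE R b a))
    (fun E' => by
      have e1 : mix J E' (tup J x y Z (EE R a b) (EE R b a)) =
          tup J x y (uZ R E') (EE R a b) (EE R b a) := by
        funext v
        simp only [mix, tup, uZ, EE]
        by_cases hv : v ∈ J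
        · have h1 : v ≠ x := by rintro rfl; exact h.hx hv
          have h2 : v ≠ y := by rintro rfl; exact h.hy hv
          simp [hv, h1, h2]
        · simp [hv]
      have e2 : FreeAlgebra.lift K (mix J E' (tup J x y Z (EE R a b) (EE R b a))) f =
          (Algebra.ofId K R).mapMatrix (ev J x y f (uZ K E') (EE K a b) (EE K b a)) := by
        rw [e1, ev_map, EE_map, EE_map]
        have : (fun v => (Algebra.ofId K R).mapMatrix (uZ K E' v)) = uZ R E' := by
          funext v
          exact EE_map _ _ _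
        rw [this]; rfl
      rw [e2, opp_K hn5 hodd hnK h2K h hab E', map_zero]
      exact Submodule.zero_mem _)
  exact (Submodule.mem_bot R).mp hN

/-- Polynomials quadratic in two variables and linear in the others vanish. -/
theorem quad2_zero [Infinite K] (hn5 : 5 ≤ n) (hodd : Odd n) (hnK : (n : K) ≠ 0)
    (h2K : (2 : K) ≠ 0) {J : Finset σ}
    {x y : σ} {f : FreeAlgebra K σ} (h : Quad2 n J x y f)
    (X : σ → MM n K) : FreeAlgebra.lift K X f = 0 := by
  refine zero_of_diag (J := insert y J) (x := x) ?_ ?_ X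
  · rw [Finset.coe_insert]; exact h.adj
  · intro R _ _ W hW
    have hWx : (W x).IsDiag := hW x (by
      rw [Finset.mem_insert, not_or]; exact ⟨h.ne, h.hx⟩)
    have h1 := (h.sys (by omega) hodd hnK R).d_all
      (fun M hM => two_smul_zero h2K M hM)
      (fun a b hab Z => opp_R hn5 hodd hnK h2K h hab Z) hWx W (W y)
    have h3 : FreeAlgebra.lift K W f = ev J x y f W (W x) (W y) := by
      rw [ev]
      refine lift_congr h.adj _ _ (fun v hv => ?_)
      simp only [tup]
      by_cases e1 : v = x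
      · subst e1
        simp
      · by_cases e2 : v = y
        · subst e2
          simp [e1]
        · have h3 : v ∈ J := by
            rcases hv with h' | h' | h'
            · exact absurd h' e1
            · exact absurd h' e2
            · exact h'
          simp [e1, e2, h3]
    rw [h3]
    exact h1

end Pool.Agent.TH46.NC
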