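import Mathlib
import Pool.Agent.TH46.NC.Q6

/-!
Reduction to homogeneous polynomials.
-/

set_option linter.all false

namespace Pool.Agent.TH46.NC

open Matrix Pool.Agent.H552R3.PC

universe u

variable {K : Type u} [Field K] {σ : Type*} [DecidableEq σ] {n : ℕ}

/-- All values on `n × n` matrices over `K` are zero. -/
def Van (n : ℕ) (f : FreeAlgebra K σ) : Prop :=
  ∀ X : σ → MM n K, FreeAlgebra.lift K X f = 0

theorem scale_word {R : Type*} [CommRing R] {A : Type*} [Ring A] [Algebra R A] [Algebra K A]
    (W : σ → A) (v : σ) (t : R) (l : List σ) :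
    (l.map (fun u => if u = v then t • W u else W u)).prod = t ^ l.count v • (l.map W).prod := by
  induction l with
  | nil => simp
  | cons u l ih =>
    rw [List.map_cons, List.prod_cons, List.map_cons, List.prod_cons, ih]
    by_cases h : u = v
    · subst h
      rw [if_pos rfl, List.count_cons_self, pow_succ', mul_smul_comm, smul_mul_assoc, smul_smul,
        mul_comm]
    · rw [if_neg h, List.count_cons_of_ne h, mul_smul_comm]

theorem scale_lift {R : Type*} [CommRing R] [Algebra K R] {J : Finset σ} {k : σ → ℕ}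
    {f : FreeAlgebra K σ} (hf : HomogIn J k f) {v : σ} (hv : v ∈ J) (W : σ → MM n R) (t : R) :
    FreeAlgebra.lift K (fun u => if u = v then t • W u else W u) f =
      t ^ k v • FreeAlgebra.lift K W f := by
  refine Submodule.span_induction (p := fun f _ =>
    FreeAlgebra.lift K (fun u => if u = v then t • W u else W u) f =
      t ^ k v • FreeAlgebra.lift K W f) ?_ ?_ ?_ ?_ hf
  · rintro w ⟨l, hl, rfl⟩
    rw [lift_word, lift_word, scale_word (K := K), hl v hv]
  · rw [map_zero, map_zero, smul_zero]
  · intro a b _ _ ha hb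
    rw [map_add, map_add, ha, hb, smul_add]
  · intro c a _ ha
    rw [map_smul, map_smul, ha, smul_comm]

/-- The lowest nonvanishing component inherits the hypotheses. -/
theorem inherit [Infinite K] {f : FreeAlgebra K σ} (hf : AllR n f) {v : σ}
    (g : ℕ →₀ FreeAlgebra K σ) (hg : ∀ k, HomogIn {v} (fun _ => k) (g k))
    (hs : ∑ k ∈ g.support, g k = f) (m : ℕ) (hlow : ∀ k, k < m → Van n (g k)) :
    AllR n (g m) := by
  have key : ∀ X : σ → MM n K, ∃ H : MM n (Polynomial K),
      FreeAlgebra.lift K (fun u => if u = v then (Polynomial.X : Polynomial K) •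
        (Algebra.ofId K (Polynomial K)).mapMatrix (X u) else
        (Algebra.ofId K (Polynomial K)).mapMatrix (X u)) f =
      (Polynomial.X : Polynomial K) ^ m •
        ((Algebra.ofId K (Polynomial K)).mapMatrix (FreeAlgebra.lift K X (g m)) +
        (Polynomial.X : Polynomial K) • H) := by
    intro X
    set W : σ → MM n (Polynomial K) := fun u =>
      (Algebra.ofId K (Polynomial K)).mapMatrix (X u) with hW
    have e1 : ∀ k, FreeAlgebra.lift K (fun u => if u = v then (Polynomial.X : Polynomial K) • W u
        else W u) (g k) = (Polynomial.X : Polynomial K) ^ k •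
          (Algebra.ofId K (Polynomial K)).mapMatrix (FreeAlgebra.lift K X (g k)) := by
      intro k
      rw [scale_lift (hg k) (Finset.mem_singleton_self v), lift_map]
    refine ⟨∑ k ∈ g.support, if m < k then (Polynomial.X : Polynomial K) ^ (k - m - 1) •
      (Algebra.ofId K (Polynomial K)).mapMatrix (FreeAlgebra.lift K X (g k)) else 0, ?_⟩
    have e2 : FreeAlgebra.lift K (fun u => if u = v then (Polynomial.X : Polynomial K) • W u
        else W u) f = ∑ k ∈ insert m g.support, (Polynomial.X : Polynomial K) ^ k •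
          (Algebra.ofId K (Polynomial K)).mapMatrix (FreeAlgebra.lift K X (g k)) := by
      rw [← hs, map_sum]
      rw [Finset.sum_congr rfl (fun k _ => e1 k)]
      refine Finset.sum_subset (Finset.subset_insert _ _) (fun k _ hk => ?_)
      rw [Finsupp.notMem_support_iff.mp hk, map_zero, map_zero, smul_zero]
    have e3 : ∑ k ∈ g.support, (if m < k then (Polynomial.X : Polynomial K) ^ (k - m - 1) •
      (Algebra.ofId K (Polynomial K)).mapMatrix (FreeAlgebra.lift K X (g k)) else 0) =
      ∑ k ∈ insert m g.support, (if m < k then (Polynomial.X : Polynomial K) ^ (k - m - 1) •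
      (Algebra.ofId K (Polynomial K)).mapMatrix (FreeAlgebra.lift K X (g k)) else 0) := by
      refine Finset.sum_subset (Finset.subset_insert _ _) (fun k _ hk => ?_)
      rw [Finsupp.notMem_support_iff.mp hk, map_zero, map_zero, smul_zero, ite_self]
    rw [e2, e3, smul_add, smul_smul, ← pow_succ, Finset.smul_sum]
    have e4 : (Polynomial.X : Polynomial K) ^ m •
        (Algebra.ofId K (Polynomial K)).mapMatrix (FreeAlgebra.lift K X (g m)) =
        ∑ k ∈ insert m g.support, (if k = m then (Polynomial.X : Polynomial K) ^ k •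
        (Algebra.ofId K (Polynomial K)).mapMatrix (FreeAlgebra.lift K X (g k)) else 0) := by
      rw [Finset.sum_ite_eq' (insert m g.support) m, if_pos (Finset.mem_insert_self _ _)]
    rw [e4, ← Finset.sum_add_distrib]
    refine Finset.sum_congr rfl fun k _ => ?_
    rcases lt_trichotomy k m with h | h | h
    · rw [hlow k h X, map_zero, smul_zero, smul_zero, if_neg h.ne, if_neg (by omega), smul_zero,
        add_zero]
    · subst h
      rw [if_pos rfl, if_neg (lt_irrefl _), smul_zero, add_zero]
    · rw [if_neg h.ne', if_pos h, zero_add, smul_smul, ← pow_add]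
      congr 2
      omega
  refine ⟨fun X Z => ?_, fun X i hi hin => ?_⟩
  · obtain ⟨H, hH⟩ := key X
    obtain ⟨c, hc⟩ := pow_scalar f n hf.pow (fun u => if u = v then (Polynomial.X : Polynomial K) •
        (Algebra.ofId K (Polynomial K)).mapMatrix (X u) else
        (Algebra.ofId K (Polynomial K)).mapMatrix (X u))
    rw [hH] at hc
    obtain ⟨d, hd⟩ := pow_scalar_smul ((Polynomial.X : Polynomial K) ^ m)
      (pow_ne_zero _ Polynomial.X_ne_zero) _ n ⟨c, hc⟩
    have hA0 : ((Algebra.ofId K (Polynomial K)).mapMatrix (FreeAlgebra.lift K X (g m)) +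
        (Polynomial.X : Polynomial K) • H).map (Polynomial.evalRingHom (0 : K)) =
        FreeAlgebra.lift K X (g m) := by
      ext1 i j
      simp only [Matrix.map_apply, Matrix.add_apply, Matrix.smul_apply, smul_eq_mul,
        AlgHom.mapMatrix_apply, Polynomial.coe_evalRingHom, Polynomial.eval_add,
        Polynomial.eval_mul, Polynomial.eval_X, zero_mul, add_zero, Algebra.ofId_apply,
        Polynomial.algebraMap_eq, Polynomial.eval_C]
    have e1 : FreeAlgebra.lift K X (g m) ^ n = Matrix.scalar (Fin n) (Polynomial.eval 0 d) := by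
      rw [← hA0]
      have e1 : ∀ M : MM n (Polynomial K), (M.map (Polynomial.evalRingHom (0 : K))) ^ n =
          (Polynomial.evalRingHom (0 : K)).mapMatrix (M ^ n) := by
        intro M
        rw [map_pow]; rfl
      rw [e1, hd]
      ext1 i j
      by_cases hij : i = j
      · subst hij; simp
      · simp [hij]
    rw [map_pow, e1]
    exact (Matrix.scalar_commute _ (fun _ => Commute.all _ _) Z).eq
  · obtain ⟨H, hH⟩ := key X
    have h1 := transfer_charpoly f i (fun X => hf.chp X i hi hin)
      (fun u => if u = v then (Polynomial.X : Polynomial K) •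
        (Algebra.ofId K (Polynomial K)).mapMatrix (X u) else
        (Algebra.ofId K (Polynomial K)).mapMatrix (X u))
    rw [hH] at h1
    have h2 := coeff_charpoly_smul ((Polynomial.X : Polynomial K) ^ m)
      (pow_ne_zero _ Polynomial.X_ne_zero) _ i h1
    have hA0 : ((Algebra.ofId K (Polynomial K)).mapMatrix (FreeAlgebra.lift K X (g m)) +
        (Polynomial.X : Polynomial K) • H).map (Polynomial.evalRingHom (0 : K)) =
        FreeAlgebra.lift K X (g m) := by
      ext1 i j
      simp only [Matrix.map_apply, Matrix.add_apply, Matrix.smul_apply, smul_eq_mul,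
        AlgHom.mapMatrix_apply, Polynomial.coe_evalRingHom, Polynomial.eval_add,
        Polynomial.eval_mul, Polynomial.eval_X, zero_mul, add_zero, Algebra.ofId_apply,
        Polynomial.algebraMap_eq, Polynomial.eval_C]
    rw [← hA0, Matrix.charpoly_map, Polynomial.coeff_map, h2, map_zero]

/-- Words in the letters of `L` satisfying `G`, with prescribed numbers of occurrences on `V`. -/
def GW (K : Type u) [Field K] {σ : Type*} [DecidableEq σ] (G : List σ → Prop) (L V : Finset σ)
    (c : σ → ℕ) : Set (FreeAlgebra K σ) :=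
  {w | ∃ l : List σ, G l ∧ (∀ v ∈ l, v ∈ L) ∧ (∀ v ∈ V, l.count v = c v) ∧
    w = (l.map (FreeAlgebra.ι K)).prod}

theorem GW_split {G : List σ → Prop} {L V : Finset σ} {c : σ → ℕ} {f : FreeAlgebra K σ}
    (hf : f ∈ Submodule.span K (GW K G L V c)) {v : σ} (hv : v ∉ V) :
    ∃ g : ℕ →₀ FreeAlgebra K σ,
      (∀ k, g k ∈ Submodule.span K (GW K G L (insert v V) (Function.update c v k))) ∧
      ∑ k ∈ g.support, g k = f := by
  have h1 : f ∈ Submodule.span K (⋃ k : ℕ, GW K G L (insert v V) (Function.update c v k)) := by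
    refine Submodule.span_mono ?_ hf
    rintro w ⟨l, hG, hL, hl, rfl⟩
    refine Set.mem_iUnion.mpr ⟨l.count v, l, hG, hL, fun u hu => ?_, rfl⟩
    rcases Finset.mem_insert.mp hu with h | h
    · rw [h, Function.update_self]
    · rw [Function.update_of_ne (by rintro rfl; exact hv h), hl u h]
  rw [Submodule.span_iUnion, Submodule.mem_iSup_iff_exists_finsupp] at h1
  obtain ⟨g, hg, hs⟩ := h1
  exact ⟨g, hg, hs⟩

/-- Reduction to polynomials homogeneous in all variables. -/
theorem reduce [Infinite K] {G : List σ → Prop} {L : Finset σ}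
    (base : ∀ (c : σ → ℕ) (f : FreeAlgebra K σ), f ∈ Submodule.span K (GW K G L L c) →
      AllR n f → Van n f) : ∀ (m : ℕ) (V : Finset σ), V ⊆ L → (L \ V).card = m →
    ∀ (c : σ → ℕ) (f : FreeAlgebra K σ), f ∈ Submodule.span K (GW K G L V c) →
      AllR n f → Van n f := by
  intro m
  induction m with
  | zero =>
    intro V hV hm c f hf hall
    have e : V = L := by
      rw [Finset.card_eq_zero, Finset.sdiff_eq_empty_iff_subset] at hm
      exact subset_antisymm hV hm
    subst e
    exact base c f hf hall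
  | succ m ih =>
    intro V hV hm c f hf hall
    obtain ⟨v, hv⟩ : (L \ V).Nonempty := by
      rw [← Finset.card_pos]; omega
    rw [Finset.mem_sdiff] at hv
    obtain ⟨g, hg, hs⟩ := GW_split hf hv.2
    have hghom : ∀ k, HomogIn {v} (fun _ => k) (g k) := by
      intro k
      refine Submodule.span_mono ?_ (hg k)
      rintro w ⟨l, -, -, hl, rfl⟩
      refine ⟨l, fun u hu => ?_, rfl⟩
      rw [Finset.mem_singleton] at hu
      subst hu
      rw [hl u (Finset.mem_insert_self _ _), Function.update_self]
    have hvan : ∀ k, Van n (g k) := by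
      intro k
      induction k using Nat.strong_induction_on with
      | _ k ihk =>
        refine ih (insert v V) (Finset.insert_subset hv.1 hV) ?_ _ (g k) (hg k)
          (inherit hall g hghom hs k ihk)
        rw [Finset.sdiff_insert, Finset.card_erase_of_mem (Finset.mem_sdiff.mpr hv), hm]
        rfl
    intro X
    rw [← hs, map_sum]
    exact Finset.sum_eq_zero fun k _ => hvan k X

/-- The homogeneous case. -/
theorem base_case [Infinite K] (hn5 : 5 ≤ n) (hodd : Odd n) (hnK : (n : K) ≠ 0)
    (h2K : (2 : K) ≠ 0) {L : Finset σ} (c : σ → ℕ) (f : FreeAlgebra K σ)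
    (hf : f ∈ Submodule.span K (GW K (fun l => l.length ≤ l.toFinset.card + 2) L L c))
    (hall : AllR n f) : Van n f := by
  intro X
  by_cases hemp : GW K (fun l => l.length ≤ l.toFinset.card + 2) L L c = ∅
  · rw [hemp, Submodule.span_empty] at hf
    rw [(Submodule.mem_bot K).mp hf, map_zero]
  obtain ⟨w, l, hG, hL, hl, -⟩ := Set.nonempty_iff_ne_empty.mpr hemp
  set S := L.filter (fun v => c v ≠ 0) with hS
  have hlS : l.toFinset = S := by
    ext v
    rw [List.mem_toFinset, hS, Finset.mem_filter]
    constructor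
    · intro hv
      refine ⟨hL v hv, ?_⟩
      rw [← hl v (hL v hv)]
      exact (List.count_pos_iff.mpr hv).ne'
    · rintro ⟨hv, h0⟩
      rw [← hl v hv] at h0
      exact List.count_pos_iff.mp (Nat.pos_of_ne_zero h0)
  have hlen : ∑ v ∈ S, c v = l.length := by
    rw [← List.sum_toFinset_count_eq_length, hlS]
    refine Finset.sum_congr rfl fun v hv => ?_
    rw [hS, Finset.mem_filter] at hv
    exact (hl v hv.1).symm
  have hex : ∑ v ∈ S, (c v - 1) ≤ 2 := by
    have h1 : ∑ v ∈ S, (c v - 1) + S.card = ∑ v ∈ S, c v := by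
      rw [Finset.card_eq_sum_ones, ← Finset.sum_add_distrib]
      refine Finset.sum_congr rfl fun v hv => ?_
      rw [hS, Finset.mem_filter] at hv
      have := Nat.pos_of_ne_zero hv.2
      omega
    rw [hlS] at hG
    omega
  -- the letters of `f`
  have hadj : ∀ T : Set σ, (S : Set σ) ⊆ T → f ∈ Algebra.adjoin K (FreeAlgebra.ι K '' T) := by
    intro T hT
    rw [← Subalgebra.mem_toSubmodule]
    refine Submodule.span_le.mpr ?_ hf
    rintro w ⟨l', -, hL', hl', rfl⟩
    rw [SetLike.mem_coe, Subalgebra.mem_toSubmodule]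
    refine Subalgebra.list_prod_mem _ fun a ha => ?_
    obtain ⟨v, hv, rfl⟩ := List.mem_map.mp ha
    refine Algebra.subset_adjoin ⟨v, hT ?_, rfl⟩
    rw [hS, Finset.coe_filter]
    refine ⟨hL' v hv, ?_⟩
    rw [← hl' v (hL' v hv)]
    exact (List.count_pos_iff.mpr hv).ne'
  have hhom : ∀ (J : Finset σ) (k : σ → ℕ), J ⊆ L → (∀ v ∈ J, c v = k v) → HomogIn J k f := by
    intro J k hJ hk
    refine Submodule.span_mono ?_ hf
    rintro w ⟨l', -, -, hl', rfl⟩
    exact ⟨l', fun v hv => by rw [hl' v (hJ hv), hk v hv], rfl⟩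
  have hSL : S ⊆ L := Finset.filter_subset _ _
  have hpos : ∀ v ∈ S, 1 ≤ c v := by
    intro v hv
    rw [hS, Finset.mem_filter] at hv
    exact Nat.pos_of_ne_zero hv.2
  by_cases h1 : ∀ v ∈ S, c v = 1
  · have hlin : LinIn S f := hhom S _ hSL h1
    have h2 := value_zero (by omega) hodd hnK hlin (hall.Pow S) (hall.Chp S)
      (fun v => if v ∈ S then X v else 0) (fun v hv => by
        rw [if_neg hv]; exact Matrix.isDiag_zero)
    rw [← h2]
    refine lift_congr (hadj S subset_rfl) _ _ (fun v hv => ?_)
    have hv' : v ∈ S := hv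
    rw [if_pos hv']
  push Not at h1
  obtain ⟨x, hx, hx1⟩ := h1
  have hx2 : 2 ≤ c x := by have := hpos x hx; omega
  by_cases h2 : ∀ v ∈ S, v ≠ x → c v = 1
  · have hlin : LinIn (S.erase x) f := hhom _ _ ((Finset.erase_subset _ _).trans hSL)
      (fun v hv => by
        rw [Finset.mem_erase] at hv
        exact h2 v hv.2 hv.1)
    refine zero_of_diag (J := S.erase x) (x := x) ?_ ?_ X
    · refine hadj _ ?_
      rw [Finset.coe_erase]
      intro v hv
      by_cases e : v = x
      · exact Or.inl e
      · exact Or.inr ⟨hv, e⟩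
    · intro R _ _ W hW
      exact value_zero (by omega) hodd hnK hlin (hall.Pow _) (hall.Chp _) W hW
  push Not at h2
  obtain ⟨y, hy, hyx, hy1⟩ := h2
  have hy2 : 2 ≤ c y := by have := hpos y hy; omega
  have hpair : ∀ T ⊆ S, ∑ v ∈ T, (c v - 1) ≤ 2 := fun T hT =>
    (Finset.sum_le_sum_of_subset hT).trans hex
  have hxy2 : c x = 2 ∧ c y = 2 := by
    have h3 := hpair {x, y} (by
      intro v hv
      rcases Finset.mem_insert.mp hv with h | h
      · rw [h]; exact hx
      · rw [Finset.mem_singleton.mp h]; exact hy)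
    rw [Finset.sum_pair hyx.symm] at h3
    omega
  have hrest : ∀ v ∈ S, v ≠ x → v ≠ y → c v = 1 := by
    intro v hv hvx hvy
    have h3 := hpair {x, y, v} (by
      intro u hu
      rcases Finset.mem_insert.mp hu with h | h
      · rw [h]; exact hx
      · rcases Finset.mem_insert.mp h with h | h
        · rw [h]; exact hy
        · rw [Finset.mem_singleton.mp h]; exact hv)
    rw [Finset.sum_insert (by
      rw [Finset.mem_insert, Finset.mem_singleton, not_or]
      exact ⟨hyx.symm, hvx.symm⟩), Finset.sum_pair hvy.symm] at h3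
    have := hpos v hv
    omega
  set J := (S.erase x).erase y with hJ
  have hxJ : x ∉ J := by simp [hJ]
  have hyJ : y ∉ J := by simp [hJ]
  have hins : insert x (insert y J) = S := by
    rw [hJ, Finset.insert_erase (Finset.mem_erase.mpr ⟨hyx, hy⟩), Finset.insert_erase hx]
  refine quad2_zero hn5 hodd hnK h2K (J := J) (x := x) (y := y) ⟨hyx.symm, hxJ, hyJ, ?_, ?_, hall⟩ X
  · rw [hins]
    refine hhom S _ hSL (fun v hv => ?_)
    simp only [dg]
    by_cases e1 : v = x
    · rw [if_pos (Or.inl e1), e1, hxy2.1]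
    · by_cases e2 : v = y
      · rw [if_pos (Or.inr e2), e2, hxy2.2]
      · rw [if_neg (by rintro (h | h); exacts [e1 h, e2 h]), hrest v hv e1 e2]
  · refine hadj _ ?_
    rw [← hins, Finset.coe_insert, Finset.coe_insert]

/-- The theorem. -/
theorem near_zero [Infinite K] (hn5 : 5 ≤ n) (hodd : Odd n) (hnK : (n : K) ≠ 0)
    (h2K : (2 : K) ≠ 0) (f : FreeAlgebra K σ)
    (hf : f ∈ Submodule.span K {w : FreeAlgebra K σ | ∃ l : List σ,
      l.length ≤ l.toFinset.card + 2 ∧ w = (l.map (FreeAlgebra.ι K)).prod})
    (hall : AllR n f) : Van n f := by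
  have hmono : ∀ {L L' : Finset σ}, L ⊆ L' →
      GW K (fun l => l.length ≤ l.toFinset.card + 2) L ∅ (fun _ => 0) ⊆
      GW K (fun l => l.length ≤ l.toFinset.card + 2) L' ∅ (fun _ => 0) := by
    rintro L L' hLL w ⟨l, h1, h2, h3, rfl⟩
    exact ⟨l, h1, fun v hv => hLL (h2 v hv), h3, rfl⟩
  have key : ∃ L : Finset σ, f ∈ Submodule.span K
      (GW K (fun l => l.length ≤ l.toFinset.card + 2) L ∅ (fun _ => 0)) := by
    refine Submodule.span_induction (p := fun f _ => ∃ L : Finset σ, f ∈ Submodule.span K
      (GW K (fun l => l.length ≤ l.toFinset.card + 2) L ∅ (fun _ => 0))) ?_ ?_ ?_ ?_ hf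
    · rintro w ⟨l, hl, rfl⟩
      refine ⟨l.toFinset, Submodule.subset_span ⟨l, hl, fun v hv => List.mem_toFinset.mpr hv,
        fun v hv => absurd hv (Finset.notMem_empty v), rfl⟩⟩
    · exact ⟨∅, Submodule.zero_mem _⟩
    · rintro a b _ _ ⟨La, ha⟩ ⟨Lb, hb⟩
      exact ⟨La ∪ Lb, Submodule.add_mem _
        (Submodule.span_mono (hmono Finset.subset_union_left) ha)
        (Submodule.span_mono (hmono Finset.subset_union_right) hb)⟩
    · rintro t a _ ⟨La, ha⟩
      exact ⟨La, Submodule.smul_mem _ t ha⟩
  obtain ⟨L, hL⟩ := key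
  exact reduce (fun c f hf hall => base_case hn5 hodd hnK h2K c f hf hall) _ ∅
    (Finset.empty_subset _) rfl _ f hL hall

end Pool.Agent.TH46.NC
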